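import Pool.Agent.H.MP_6a1d6a_ag.SN.Def

/-!
MP_6a1d6a_ag/SN, module B1: elementary properties of `dg`, `pt`, `vec`, `pull`. Compare with `SM/B1.lean` (the case of one coordinate).

`x ^ 0 = 1` for real powers, also for `x = 0`; `0 ^ s = 0` for `s ≠ 0`; `fun x => x ^ s` is continuous for `0 ≤ s`. Continuity of `WithLp.toLp 2` and of the coordinates:
`PiLp.continuous_toLp`, `fun_prop`. `pull_zero_iff`: `pull = 0` iff `vec a x v = 0` iff for all `i`: `a i * ‖x i‖ ^ (a i - 1) = 0` or `v i = 0`; the first means `a i ≠ 1` and `x i = 0`.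
`branch`: with `u = exp (i (a - 1) Im L)`, `‖u‖ = 1`: `exp (a L) = ‖exp L‖ ^ (a - 1) * exp L * u`, `exp ((a - 1) L) = ‖exp L‖ ^ (a - 1) * u` (`‖exp L‖ = exp (Re L)`), `‖B exp L‖ ^ (a-1) =
‖B‖ ^ (a-1) ‖exp L‖ ^ (a-1)`; `c = ‖B‖ ^ (a - 1) * u⁻¹`.
-/

set_option autoImplicit false

open Set Filter Topology Metric MeasureTheory
open scoped ContDiff Manifold

namespace Pool.Agent.Nef6.SN

variable {N : ℕ} {a : Fin N → ℝ} {h : E N → E N → ℝ} {U : Set (E N)}

@[simp] theorem dg_apply (c : Fin N → ℂ) (x : E N) (i : Fin N) : dg c x i = c i * x i := rfl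

theorem dg_dg (c d : Fin N → ℂ) (x : E N) : dg c (dg d x) = dg (fun i => c i * d i) x := by
  ext i
  show c i * (d i * x i) = c i * d i * x i
  ring

theorem dg_one (x : E N) : dg (fun _ => 1) x = x := by
  ext i
  show 1 * x i = x i
  ring

private theorem B1_apply (i : Fin N) : Continuous fun x : E N => x i :=
  (continuous_apply i).comp (PiLp.continuous_ofLp 2 _)

private theorem B1_dg {X : Type*} [TopologicalSpace X] {c : X → Fin N → ℂ} {x : X → E N}
    (hc : ∀ i, Continuous fun q => c q i) (hx : Continuous x) :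
    Continuous fun q => dg (c q) (x q) := by
  refine (PiLp.continuous_toLp 2 _).comp (continuous_pi fun i => ?_)
  exact (hc i).mul ((B1_apply i).comp hx)

theorem dg_cont : Continuous fun q : (Fin N → ℂ) × E N => dg q.1 q.2 :=
  B1_dg (fun i => (continuous_apply i).comp continuous_fst) continuous_snd

theorem IsMetric.zero (hh : IsMetric h U) {x : E N} (hx : x ∈ U) : h x 0 = 0 := by
  have h1 := hh.smul x hx 0 0
  rw [smul_zero, norm_zero, zero_mul] at h1
  exact h1

theorem IsMetric.nonneg (hh : IsMetric h U) {x : E N} (hx : x ∈ U) (v : E N) : 0 ≤ h x v := by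
  by_cases hv : v = 0
  · rw [hv, hh.zero hx]
  · exact (hh.pos x hx v hv).le

private theorem B1_iff (hh : IsMetric h U) {x : E N} (hx : x ∈ U) (v : E N) :
    h x v = 0 ↔ v = 0 := by
  constructor
  · intro h0
    by_contra hv
    exact (hh.pos x hx v hv).ne' h0
  · rintro rfl
    exact hh.zero hx

private theorem B1_rpow (ha : ∀ i, 1 ≤ a i) (i : Fin N) :
    Continuous fun x : E N => ‖x i‖ ^ (a i - 1) := by
  have h1 : (0 : ℝ) ≤ a i - 1 := by linarith [ha i]
  exact (Real.continuous_rpow_const h1).comp (B1_apply i).norm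

theorem pt_cont (ha : ∀ i, 1 ≤ a i) : Continuous (pt a : E N → E N) :=
  B1_dg (fun i => Complex.continuous_ofReal.comp (B1_rpow ha i)) continuous_id

theorem vec_cont (ha : ∀ i, 1 ≤ a i) : Continuous fun q : E N × E N => vec a q.1 q.2 :=
  B1_dg (fun i => Complex.continuous_ofReal.comp
    (continuous_const.mul ((B1_rpow ha i).comp continuous_fst))) continuous_snd

theorem pull_cont (hh : IsMetric h U) (ha : ∀ i, 1 ≤ a i) :
    ContinuousOn (fun q : E N × E N => pull a h q.1 q.2) ({x | pt a x ∈ U} ×ˢ univ) := by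
  have h1 : Continuous fun q : E N × E N => (pt a q.1, vec a q.1 q.2) :=
    ((pt_cont ha).comp continuous_fst).prodMk (vec_cont ha)
  exact hh.cont.comp h1.continuousOn fun q hq => ⟨hq.1, mem_univ _⟩

theorem pull_open (hh : IsMetric h U) (ha : ∀ i, 1 ≤ a i) : IsOpen {x : E N | pt a x ∈ U} :=
  hh.op.preimage (pt_cont ha)

theorem pull_smul (hh : IsMetric h U) {x : E N} (hx : pt a x ∈ U) (c : ℂ) (v : E N) :
    pull a h x (c • v) = ‖c‖ * pull a h x v := by
  have h1 : vec a x (c • v) = c • vec a x v := by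
    ext i
    show ((a i * ‖x i‖ ^ (a i - 1) : ℝ) : ℂ) * (c * v i) =
      c * (((a i * ‖x i‖ ^ (a i - 1) : ℝ) : ℂ) * v i)
    ring
  unfold pull
  rw [h1, hh.smul _ hx]

theorem pull_nonneg (hh : IsMetric h U) {x : E N} (hx : pt a x ∈ U) (v : E N) :
    0 ≤ pull a h x v := hh.nonneg hx _

theorem pull_zero_iff (hh : IsMetric h U) (ha : ∀ i, 1 ≤ a i) {x : E N} (hx : pt a x ∈ U)
    (v : E N) : pull a h x v = 0 ↔ ∀ i, v i = 0 ∨ (1 < a i ∧ x i = 0) := by
  unfold pull
  rw [B1_iff hh hx]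
  have h2 : vec a x v = 0 ↔ ∀ i, ((a i * ‖x i‖ ^ (a i - 1) : ℝ) : ℂ) * v i = 0 := by
    constructor
    · intro h0 i
      exact congrArg (fun y : E N => y i) h0
    · intro h0
      ext i
      exact h0 i
  rw [h2]
  refine forall_congr' fun i => ?_
  rw [mul_eq_zero, or_comm]
  refine or_congr Iff.rfl ?_
  rw [Complex.ofReal_eq_zero, mul_eq_zero]
  have hai := ha i
  constructor
  · rintro (h0 | h0)
    · linarith
    · rcases eq_or_lt_of_le hai with h1 | h1
      · rw [← h1, sub_self, Real.rpow_zero] at h0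
        exact absurd h0 one_ne_zero
      · refine ⟨h1, ?_⟩
        rw [Real.rpow_eq_zero (norm_nonneg _) (by linarith), norm_eq_zero] at h0
        exact h0
  · rintro ⟨h1, h0⟩
    right
    rw [h0, norm_zero, Real.zero_rpow (by linarith)]

/-- The modulus and the argument of `exp ((a - 1) L)`. -/
private theorem B1_rot (a : ℝ) (L : ℂ) : ∃ e : ℂ, ‖e‖ = 1 ∧
    e * Complex.exp ((a - 1) * L) = ((‖Complex.exp L‖ ^ (a - 1) : ℝ) : ℂ) := by
  refine ⟨Complex.exp (((-(a - 1) * L.im : ℝ) : ℂ) * Complex.I),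
    Complex.norm_exp_ofReal_mul_I _, ?_⟩
  rw [← Complex.exp_add, Complex.norm_exp, ← Real.exp_mul, Complex.ofReal_exp]
  congr 1
  apply Complex.ext
  · simp [mul_comm]
  · simp
    ring

/-- the power of a number in terms of a logarithm -/
theorem branch {a : ℝ} (ha : 1 < a) {B L x v X V : ℂ} (hx : x = B * Complex.exp L)
    (hX : X = B * Complex.exp (a * L)) (hV : V = a * Complex.exp ((a - 1) * L) * v) :
    ∃ c : ℂ, ‖c‖ = ‖B‖ ^ (a - 1) ∧ ((‖x‖ ^ (a - 1) : ℝ) : ℂ) * x = c * X ∧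
      ((a * ‖x‖ ^ (a - 1) : ℝ) : ℂ) * v = c * V := by
  have _ := ha
  obtain ⟨e, he, hee⟩ := B1_rot a L
  have hβ : ‖x‖ ^ (a - 1) = ‖B‖ ^ (a - 1) * ‖Complex.exp L‖ ^ (a - 1) := by
    rw [hx, norm_mul, Real.mul_rpow (norm_nonneg _) (norm_nonneg _)]
  have hE : Complex.exp (a * L) = Complex.exp L * Complex.exp ((a - 1) * L) := by
    rw [← Complex.exp_add]
    congr 1
    ring
  refine ⟨((‖B‖ ^ (a - 1) : ℝ) : ℂ) * e, ?_, ?_, ?_⟩
  · rw [norm_mul, he, mul_one, Complex.norm_real, Real.norm_eq_abs,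
      abs_of_nonneg (Real.rpow_nonneg (norm_nonneg _) _)]
  · rw [hβ, Complex.ofReal_mul, ← hee, hx, hX, hE]
    ring
  · rw [Complex.ofReal_mul, hβ, Complex.ofReal_mul, ← hee, hV]
    ring

end Pool.Agent.Nef6.SN
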