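import Pool.Agent.H.MP_6a1d6a_ag.SN.P2

/-!
MP_6a1d6a_ag/SN, module B4: the sub-mean value inequality for the pull-back of a metric along discs.

Let `p₀ = pt a (x z₀) ∈ U`, `ε > 0` with `∀ y, (∀ i, ‖y i - p₀ i‖ ≤ ε) → y ∈ U` (`U` open; the norm of `E N` is at most `√N` times the maximum of the coordinates). By `pull_zero_iff` there is `k` with
`v z₀ k ≠ 0` and (`a k = 1` or `x z₀ k ≠ 0`). `fix i = (a i = 1 ∨ x z₀ i ≠ 0)`. For each `i` a `ρ i` from `rep_one` (`a i = 1`; `‖x‖ ^ 0 = 1`, so `pt`, `vec` have the coordinates `x i`, `v i`) or `rep_pull` (`1 < a i`)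
(with `fix i` instead of `True` or `x z₀ i ≠ 0`: equivalent). `ρ` = a quarter of the minimum of the `ρ i` and of a radius such that on `ball z₀ (4 ρ)` `pt a (x z) ∈ U`, `vec a (x z) (v z) k ≠ 0` (continuity), `x`, `v` are continuous (analytic). For `r ≠ ‖b - z₀‖`
`sub_of_rep` with `ξ z = pt a (x z)`, `τ z = vec a (x z) (v z)`. For `r = ‖b - z₀‖`: the inequality for all `s < r` and continuity (`circle_lim`, this is `B4_lim` in `SM/B4.lean`).
-/

set_option autoImplicit false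

open Set Filter Topology Metric MeasureTheory
open scoped ContDiff Manifold

namespace Pool.Agent.Nef6.SN

theorem circle_lim {f : ℂ → ℝ} {b : ℂ} {r m : ℝ} (hr : 0 < r) (hf : ContinuousOn f (closedBall b r))
    (hm : ∀ s, 0 < s → s < r → m ≤ Real.circleAverage f b s) : m ≤ Real.circleAverage f b r := by
  obtain ⟨C, hC⟩ := (isCompact_closedBall b r).exists_bound_of_continuousOn hf
  have hmem : ∀ s, 0 < s → s ≤ r → ∀ θ, circleMap b s θ ∈ closedBall b r := fun s hs hsr θ =>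
    closedBall_subset_closedBall hsr (circleMap_mem_closedBall b hs.le θ)
  have h1 : Tendsto (fun s => Real.circleAverage f b s) (𝓝[Ioo 0 r] r)
      (𝓝 (Real.circleAverage f b r)) := by
    simp only [Real.circleAverage_def]
    refine Tendsto.const_smul ?_ _
    refine intervalIntegral.tendsto_integral_filter_of_dominated_convergence (fun _ => C)
      ?_ ?_ ?_ ?_
    · filter_upwards [self_mem_nhdsWithin] with s hs
      have h2 : Continuous fun θ => f (circleMap b s θ) :=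
        hf.comp_continuous (continuous_circleMap b s) (hmem s hs.1 hs.2.le)
      exact h2.aestronglyMeasurable
    · filter_upwards [self_mem_nhdsWithin] with s hs
      exact Filter.Eventually.of_forall fun θ _ => hC _ (hmem s hs.1 hs.2.le θ)
    · exact intervalIntegrable_const
    · refine Filter.Eventually.of_forall fun θ _ => ?_
      have h2 : ContinuousWithinAt f (closedBall b r) (circleMap b r θ) :=
        hf _ (hmem r hr le_rfl θ)
      have h3 : Tendsto (fun s : ℝ => circleMap b s θ) (𝓝[Ioo 0 r] r)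
          (𝓝[closedBall b r] (circleMap b r θ)) := by
        refine tendsto_nhdsWithin_iff.mpr ⟨?_, ?_⟩
        · have h4 : Continuous fun s : ℝ => circleMap b s θ := by
            unfold circleMap
            fun_prop
          exact h4.continuousAt.tendsto.mono_left nhdsWithin_le_nhds
        · filter_upwards [self_mem_nhdsWithin] with s hs
          exact hmem s hs.1 hs.2.le θ
      exact h2.tendsto.comp h3
  have h5 : (𝓝[Ioo 0 r] r).NeBot := by
    rw [nhdsWithin_Ioo_eq_nhdsLT hr]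
    infer_instance
  refine ge_of_tendsto h1 ?_
  filter_upwards [self_mem_nhdsWithin] with s hs
  exact hm s hs.1 hs.2

variable {N : ℕ} {a : Fin N → ℝ} {h : E N → E N → ℝ} {U : Set (E N)}

/-- a polydisc in an open set -/
private theorem B4_poly (hU : IsOpen U) {p : E N} (hp : p ∈ U) :
    ∃ ε > 0, ∀ y : E N, (∀ i, ‖y i - p i‖ ≤ ε) → y ∈ U := by
  have h1 : IsOpen ((fun y : Fin N → ℂ => (WithLp.toLp 2 y : E N)) ⁻¹' U) :=
    hU.preimage (PiLp.continuous_toLp 2 _)
  obtain ⟨δ, hδ, h2⟩ := Metric.isOpen_iff.mp h1 (fun i => p i) hp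
  refine ⟨δ / 2, half_pos hδ, fun y hy => ?_⟩
  have h3 : (fun i => y i) ∈ ball (fun i => p i) δ := by
    rw [mem_ball]
    refine lt_of_le_of_lt ((dist_pi_le_iff (half_pos hδ).le).2 fun i => ?_) (half_lt_self hδ)
    rw [dist_eq_norm]
    exact hy i
  exact h2 h3

/-- the condition on the constants at the centre can be weakened -/
private theorem B4_mono {c : ℝ} {ξ τ : ℂ → ℂ} {ξ₀ : ℂ} {ε : ℝ} {P Q : Prop} {b : ℂ} {r : ℝ}
    (h : CoordRep c ξ τ ξ₀ ε P b r) (hPQ : Q → P) : CoordRep c ξ τ ξ₀ ε Q b r := by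
  obtain ⟨X, V, hX, hV, ⟨d, h1, h2, h3, h4, h5⟩, h6, h7, h8⟩ := h
  exact ⟨X, V, hX, hV, ⟨d, h1, fun q => h2 (hPQ q), h3, h4, h5⟩, h6, h7, fun q => h8 (hPQ q)⟩

/-- analytic coordinates -/
private theorem B4_coord {x : ℂ → E N} {z₀ : ℂ} (hx : AnalyticAt ℂ x z₀) (i : Fin N) :
    AnalyticAt ℂ (fun z => x z i) z₀ :=
  ((EuclideanSpace.proj (𝕜 := ℂ) (ι := Fin N) i).analyticAt _).comp hx

private theorem B4_rep (ha : ∀ i, 1 ≤ a i) {x v : ℂ → E N} {z₀ : ℂ} (hx : AnalyticAt ℂ x z₀)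
    (hv : AnalyticAt ℂ v z₀) {ε : ℝ} (hε : 0 < ε) (i : Fin N) :
    ∃ ρ > 0, ∀ b ∈ ball z₀ ρ, ∀ r, 0 < r → r < ρ → r ≠ ‖b - z₀‖ →
      CoordRep (a i) (fun z => pt a (x z) i) (fun z => vec a (x z) (v z) i) (pt a (x z₀) i) ε
        (a i = 1 ∨ x z₀ i ≠ 0) b r := by
  rcases eq_or_lt_of_le (ha i) with h1 | h1
  · obtain ⟨ρ, hρ, h2⟩ := rep_one (B4_coord hx i) (B4_coord hv i) hε
    refine ⟨ρ, hρ, fun b hb r h0r hr _ => ?_⟩
    have h3 : ∀ y : E N, pt a y i = y i := by
      intro y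
      show ((‖y i‖ ^ (a i - 1) : ℝ) : ℂ) * y i = y i
      rw [← h1, sub_self, Real.rpow_zero, Complex.ofReal_one, one_mul]
    have h4 : ∀ y w : E N, vec a y w i = w i := by
      intro y w
      show ((a i * ‖y i‖ ^ (a i - 1) : ℝ) : ℂ) * w i = w i
      rw [← h1, sub_self, Real.rpow_zero, one_mul, Complex.ofReal_one, one_mul]
    simp only [h3, h4]
    rw [← h1]
    exact B4_mono (h2 b hb r h0r hr) fun _ => trivial
  · obtain ⟨ρ, hρ, h2⟩ := rep_pull h1 (B4_coord hx i) (B4_coord hv i) hε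
    refine ⟨ρ, hρ, fun b hb r h0r hr hne => ?_⟩
    refine B4_mono (h2 b hb r h0r hr hne) ?_
    rintro (h3 | h3)
    · exact absurd h3 h1.ne'
    · exact h3

theorem pull_sub (hh : IsMetric h U) (ha : ∀ i, 1 ≤ a i) (hr : RotInv a h U) {x v : ℂ → E N}
    {z₀ : ℂ} (hx : AnalyticAt ℂ x z₀) (hv : AnalyticAt ℂ v z₀) (hU : pt a (x z₀) ∈ U)
    (h0 : pull a h (x z₀) (v z₀) ≠ 0) :
    ∃ ρ > 0, ∀ b ∈ ball z₀ ρ, ∀ r, 0 < r → r < ρ →
      Real.log (pull a h (x b) (v b)) ≤
        Real.circleAverage (fun z => Real.log (pull a h (x z) (v z))) b r := by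
  obtain ⟨k, hk⟩ : ∃ k, ¬ (v z₀ k = 0 ∨ (1 < a k ∧ x z₀ k = 0)) := by
    by_contra hcon
    push Not at hcon
    exact h0 ((pull_zero_iff hh ha hU _).2 hcon)
  have hvk : v z₀ k ≠ 0 := fun h1 => hk (Or.inl h1)
  have hxk : a k = 1 ∨ x z₀ k ≠ 0 := by
    rcases eq_or_lt_of_le (ha k) with h1 | h1
    · exact Or.inl h1.symm
    · exact Or.inr fun h2 => hk (Or.inr ⟨h1, h2⟩)
  obtain ⟨ε, hε, hεU⟩ := B4_poly hh.op hU
  have hτ0 : vec a (x z₀) (v z₀) k ≠ 0 := by
    show ((a k * ‖x z₀ k‖ ^ (a k - 1) : ℝ) : ℂ) * v z₀ k ≠ 0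
    refine mul_ne_zero ?_ hvk
    rw [Complex.ofReal_ne_zero]
    refine mul_ne_zero (by linarith [ha k]) ?_
    rcases hxk with h1 | h1
    · rw [h1, sub_self, Real.rpow_zero]
      exact one_ne_zero
    · exact (Real.rpow_pos_of_pos (norm_pos_iff.2 h1) _).ne'
  have hcont : ContinuousAt (fun z => vec a (x z) (v z) k) z₀ := by
    have h1 : ContinuousAt (fun z => vec a (x z) (v z)) z₀ :=
      ContinuousAt.comp (f := fun z => (x z, v z)) (g := fun q : E N × E N => vec a q.1 q.2)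
        (vec_cont ha).continuousAt (hx.continuousAt.prodMk hv.continuousAt)
    exact ((EuclideanSpace.proj (𝕜 := ℂ) (ι := Fin N) k).continuous.continuousAt).comp h1
  have hE : ∀ᶠ z in 𝓝 z₀, AnalyticAt ℂ x z ∧ AnalyticAt ℂ v z ∧ pt a (x z) ∈ U ∧
      vec a (x z) (v z) k ≠ 0 := by
    have h1 : ∀ᶠ z in 𝓝 z₀, pt a (x z) ∈ U :=
      hx.continuousAt.eventually ((pull_open hh ha).mem_nhds hU)
    filter_upwards [hx.eventually_analyticAt, hv.eventually_analyticAt, h1,
      hcont.eventually_ne hτ0] with z g1 g2 g3 g4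
    exact ⟨g1, g2, g3, g4⟩
  obtain ⟨δ, hδ, hloc⟩ := Metric.eventually_nhds_iff_ball.mp hE
  choose ρi hρi hrep using fun i => B4_rep ha hx hv hε i
  have hne : Nonempty (Fin N) := ⟨k⟩
  obtain ⟨i₀, hi₀⟩ := Finite.exists_min ρi
  refine ⟨min (δ / 2) (ρi i₀), lt_min (half_pos hδ) (hρi i₀), ?_⟩
  intro b hb r h0r hrρ
  have hb1 : dist b z₀ < δ / 2 := lt_of_lt_of_le hb (min_le_left _ _)
  have hb2 : dist b z₀ < ρi i₀ := lt_of_lt_of_le hb (min_le_right _ _)
  have hr1 : r < δ / 2 := lt_of_lt_of_le hrρ (min_le_left _ _)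
  have hr2 : r < ρi i₀ := lt_of_lt_of_le hrρ (min_le_right _ _)
  have hloc1 : ∀ z ∈ closedBall b r, AnalyticAt ℂ x z ∧ AnalyticAt ℂ v z ∧ pt a (x z) ∈ U ∧
      vec a (x z) (v z) k ≠ 0 := by
    intro z hz
    refine hloc z ?_
    have h1 := dist_triangle z b z₀
    have h2 : dist z b ≤ r := hz
    rw [mem_ball]
    linarith
  have key : ∀ s, 0 < s → s ≤ r → s ≠ ‖b - z₀‖ → Real.log (pull a h (x b) (v b)) ≤
      Real.circleAverage (fun z => Real.log (pull a h (x z) (v z))) b s := by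
    intro s hs hsr hsne
    refine sub_of_rep hh hr (ξ := fun z => pt a (x z)) (τ := fun z => vec a (x z) (v z))
      (fix := fun i => a i = 1 ∨ x z₀ i ≠ 0) hεU ?_ (fun i hi => Or.inl hi) hs
      (fun i => hrep i b ?_ s hs ?_ hsne) (k := k) hxk ?_
    · intro i hi
      rw [not_or, not_not] at hi
      show ((‖x z₀ i‖ ^ (a i - 1) : ℝ) : ℂ) * x z₀ i = 0
      rw [hi.2, mul_zero]
    · exact lt_of_lt_of_le hb2 (hi₀ i)
    · exact lt_of_le_of_lt hsr (lt_of_lt_of_le hr2 (hi₀ i))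
    · exact fun z hz => (hloc1 z (closedBall_subset_closedBall hsr hz)).2.2.2
  by_cases hrb : r = ‖b - z₀‖
  · refine circle_lim h0r ?_ fun s hs hsr => key s hs hsr.le (by rw [← hrb]; exact hsr.ne)
    have h3 : ContinuousOn (fun z => (x z, v z)) (closedBall b r) := fun z hz =>
      ((hloc1 z hz).1.continuousAt.prodMk (hloc1 z hz).2.1.continuousAt).continuousWithinAt
    have h6 : ContinuousOn (fun z => pull a h (x z) (v z)) (closedBall b r) :=
      ContinuousOn.comp (g := fun q : E N × E N => pull a h q.1 q.2)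
        (f := fun z => (x z, v z)) (t := {x | pt a x ∈ U} ×ˢ univ) (pull_cont hh ha) h3
        fun z hz => ⟨(hloc1 z hz).2.2.1, mem_univ _⟩
    refine h6.log fun z hz h4 => ?_
    have h5 := (pull_zero_iff hh ha (hloc1 z hz).2.2.1 (v z)).1 h4 k
    apply (hloc1 z hz).2.2.2
    show ((a k * ‖x z k‖ ^ (a k - 1) : ℝ) : ℂ) * v z k = 0
    rcases h5 with h5 | ⟨h5, h7⟩
    · rw [h5, mul_zero]
    · rw [h7, norm_zero, Real.zero_rpow (by linarith), mul_zero, Complex.ofReal_zero, zero_mul]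
  · exact key r h0r le_rfl hrb

end Pool.Agent.Nef6.SN
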