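import Pool.Agent.H.MP_6a1d6a_ag.SN.B1

/-!
MP_6a1d6a_ag/SN, module B5: the metric along discs which are tangent to its kernel. Compare with `SM/B5.lean` (one coordinate), which has the lemmas on the norms `h x` for `x` near `x₀`
(`B5_low`, `B5_upp`; copy and adapt them).

`disc_exact`: the coordinates of `vec a (x + s v) v` divided by `‖s‖ ^ (A-1)`: if `v i = 0`: `0`; if `v i ≠ 0` then `x i = 0`, `A ≤ a i`, and it is `a i ‖s‖ ^ (a i - A) ‖v i‖ ^ (a i - 1) v i`, which tends to `leadA a A v i`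
(`0` if `A < a i`). `pt a (x + s v) → pt a x`; homogeneity and continuity of `h` at `(pt a x, leadA a A v)`.

`disc_lower`: `G s = vec a (F s) (deriv F s)` divided by `‖s‖ ^ (A-1)` (real factor; homogeneity of `h`). If `leadA a A (deriv F 0) = 0` then `h (pt ..) 0 = 0`, `κ < 0`, clear (`pull_nonneg`). Let `I = {i : a i = A, deriv F 0 i ≠ 0}`; for `i ∈ I` `F 0 i = 0`, so `pt a (F 0) i = 0`.
For `ε > 0`, `s` near `0`: `h (pt a (F s)) w ≥ (1 - ε) h x₀ w` for all `w`, `x₀ = pt a (F 0)`. With `e i = -1` for `i ∈ I`, `e i = 1` otherwise: `dg e x₀ = x₀`, `h x₀ (dg e w) = h x₀ w` (`RotInv`, `a i = A ≠ 1` on `I`), `2 Π w = w - dg e w`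
for the projection `Π` to the coordinates in `I`, so `h x₀ (Π w) ≤ h x₀ w`. And `Π (G s) / ‖s‖ ^ (A-1) → leadA a A (deriv F 0)`: for `i ∈ I` `F s i / s → deriv F 0 i`, `‖F s i‖ ^ (A-1) / ‖s‖ ^ (A-1) → ‖deriv F 0 i‖ ^ (A-1)`.

`disc_upper` (`A ≤ 2`): the coordinates of `vec a (F s) (deriv F s)` are `O(‖s‖ ^ (A-1))`: if `deriv F 0 i ≠ 0`: `F 0 i = 0`, `A ≤ a i`, `‖F s i‖ ≤ C ‖s‖`, `‖s‖ ^ (a i - 1) ≤ ‖s‖ ^ (A - 1)` for `‖s‖ ≤ 1`; if
`deriv F 0 i = 0`: `‖deriv F s i‖ ≤ C ‖s‖ ≤ C ‖s‖ ^ (A-1)` and the factor `a i ‖F s i‖ ^ (a i - 1)` is bounded. `h x w ≤ C'' ‖w‖` for `x` near `x₀`. At `s = 0` both sides are `0` (`pull_zero_iff`).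

`disc_pos`: if `v ≠ 0` is in the kernel (`KerA` with `A = min {a i : v i ≠ 0}`) then `leadA a A v ≠ 0`.
-/

set_option autoImplicit false

open Set Filter Topology Metric MeasureTheory
open scoped ContDiff Manifold

namespace Pool.Agent.Nef6.SN

variable {N : ℕ} {a : Fin N → ℝ} {h : E N → E N → ℝ} {U : Set (E N)} {A : ℝ}

/-- joint continuity in a point of `U` -/
private theorem B5_contAt (hh : IsMetric h U) {x : E N} (hx : x ∈ U) (w : E N) :
    ContinuousAt (fun q : E N × E N => h q.1 q.2) (x, w) :=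
  hh.cont.continuousAt ((hh.op.prod isOpen_univ).mem_nhds ⟨hx, mem_univ w⟩)

/-- homogeneity, real factor -/
private theorem B5_hom (hh : IsMetric h U) {x : E N} (hx : x ∈ U) {w : E N} (hw : w ≠ 0) :
    h x w = ‖w‖ * h x (((‖w‖⁻¹ : ℝ) : ℂ) • w) := by
  have h1 : ‖w‖ ≠ 0 := norm_ne_zero_iff.mpr hw
  rw [hh.smul x hx]
  rw [Complex.norm_real, norm_inv, norm_norm, ← mul_assoc, mul_inv_cancel₀ h1, one_mul]

private theorem B5_unit {w : E N} (hw : w ≠ 0) : ((‖w‖⁻¹ : ℝ) : ℂ) • w ∈ sphere (0 : E N) 1 := by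
  have h1 : ‖w‖ ≠ 0 := norm_ne_zero_iff.mpr hw
  rw [mem_sphere_zero_iff_norm, norm_smul, Complex.norm_real, norm_inv, norm_norm,
    inv_mul_cancel₀ h1]

/-- the norms `h x` near `x₀` are almost as large as `h x₀` -/
private theorem B5_low (hh : IsMetric h U) {x₀ : E N} (hx₀ : x₀ ∈ U) {ε : ℝ} (hε : 0 < ε) :
    ∀ᶠ x in 𝓝 x₀, ∀ w, (1 - ε) * h x₀ w ≤ h x w := by
  have key : ∀ᶠ x in 𝓝 x₀, ∀ w ∈ sphere (0 : E N) 1, (1 - ε) * h x₀ w < h x w := by
    refine (isCompact_sphere (0 : E N) 1).eventually_forall_of_forall_eventually ?_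
    intro w hw
    have hw0 : w ≠ 0 := by
      rintro rfl
      simp at hw
    have h1 : ContinuousAt (fun q : E N × E N => h q.1 q.2) (x₀, w) := B5_contAt hh hx₀ w
    have h2 : ContinuousAt (fun q : E N × E N => (1 - ε) * h x₀ q.2) (x₀, w) := by
      have h3 : ContinuousAt (fun q : E N × E N => (x₀, q.2)) (x₀, w) := by fun_prop
      have h4 : ContinuousAt (fun q : E N × E N => h x₀ q.2) (x₀, w) :=
        ContinuousAt.comp (g := fun q : E N × E N => h q.1 q.2)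
          (f := fun q : E N × E N => (x₀, q.2)) (x := (x₀, w)) (B5_contAt hh hx₀ w) h3
      exact h4.const_mul _
    refine h2.eventually_lt h1 ?_
    show (1 - ε) * h x₀ w < h x₀ w
    have := hh.pos x₀ hx₀ w hw0
    nlinarith
  filter_upwards [key, hh.op.mem_nhds hx₀] with x hx hxU w
  by_cases hw : w = 0
  · rw [hw, hh.zero hx₀, hh.zero hxU, mul_zero]
  · have h1 := (hx _ (B5_unit hw)).le
    rw [B5_hom hh hx₀ hw, B5_hom hh hxU hw]
    have h2 := mul_le_mul_of_nonneg_left h1 (norm_nonneg w)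
    linarith

/-- the norms `h x` near `x₀` are uniformly bounded -/
private theorem B5_upp (hh : IsMetric h U) {x₀ : E N} (hx₀ : x₀ ∈ U) :
    ∃ C : ℝ, 0 ≤ C ∧ ∀ᶠ x in 𝓝 x₀, ∀ w, h x w ≤ C * ‖w‖ := by
  have hc : ContinuousOn (fun w : E N => h x₀ w) (sphere (0 : E N) 1) := by
    intro w _
    have h3 : ContinuousAt (fun v : E N => (x₀, v)) w := by fun_prop
    exact (ContinuousAt.comp (g := fun q : E N × E N => h q.1 q.2)
      (f := fun v : E N => (x₀, v)) (x := w) (B5_contAt hh hx₀ w) h3).continuousWithinAt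
  obtain ⟨M, hM⟩ := (isCompact_sphere (0 : E N) 1).exists_bound_of_continuousOn hc
  have key : ∀ᶠ x in 𝓝 x₀, ∀ w ∈ sphere (0 : E N) 1, h x w < |M| + 1 := by
    refine (isCompact_sphere (0 : E N) 1).eventually_forall_of_forall_eventually ?_
    intro w hw
    refine (B5_contAt hh hx₀ w).eventually_lt continuousAt_const ?_
    show h x₀ w < |M| + 1
    have h1 := hM w hw
    have h2 := le_abs_self (h x₀ w)
    have h3 := le_abs_self M
    rw [Real.norm_eq_abs] at h1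
    linarith
  refine ⟨|M| + 1, by positivity, ?_⟩
  filter_upwards [key, hh.op.mem_nhds hx₀] with x hx hxU w
  by_cases hw : w = 0
  · rw [hw, hh.zero hxU, norm_zero, mul_zero]
  · have h1 := (hx _ (B5_unit hw)).le
    rw [B5_hom hh hxU hw]
    have h2 := mul_le_mul_of_nonneg_left h1 (norm_nonneg w)
    linarith

/-- convergence of the coordinates -/
private theorem B5_tend {ι : Type*} {l : Filter ι} {f : ι → E N} {y : E N}
    (hf : ∀ i, Tendsto (fun s => f s i) l (𝓝 (y i))) : Tendsto f l (𝓝 y) := by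
  have h1 : Tendsto (fun s => (fun i => f s i)) l (𝓝 (fun i => y i)) := tendsto_pi_nhds.mpr hf
  exact ((PiLp.continuous_toLp 2 _).tendsto _).comp h1

private theorem B5_pow {α A : ℝ} (h : A ≤ α) :
    Tendsto (fun s : ℂ => ‖s‖ ^ (α - A)) (𝓝[≠] 0) (𝓝 (if α = A then 1 else 0)) := by
  by_cases h1 : α = A
  · rw [if_pos h1, h1, sub_self]
    simp only [Real.rpow_zero]
    exact tendsto_const_nhds
  · rw [if_neg h1]
    have h2 : 0 < α - A := sub_pos.mpr (lt_of_le_of_ne h (Ne.symm h1))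
    have h3 : Tendsto (fun s : ℂ => ‖s‖ ^ (α - A)) (𝓝 0) (𝓝 (‖(0 : ℂ)‖ ^ (α - A))) :=
      (continuous_norm.rpow_const (fun _ => Or.inr h2.le)).tendsto 0
    rw [norm_zero, Real.zero_rpow h2.ne'] at h3
    exact h3.mono_left nhdsWithin_le_nhds

/-- the limit of one coordinate -/
private theorem B5_coord {α A : ℝ} (hA : 1 < A) (hα : A ≤ α) {f g : ℂ → ℂ} {β : ℝ} {γ : ℂ}
    (hf : Tendsto (fun s => ‖f s‖ / ‖s‖) (𝓝[≠] 0) (𝓝 β)) (hg : Tendsto g (𝓝[≠] 0) (𝓝 γ)) :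
    Tendsto (fun s : ℂ => (((‖s‖ ^ (A - 1))⁻¹ : ℝ) : ℂ) *
      (((α * ‖f s‖ ^ (α - 1) : ℝ) : ℂ) * g s)) (𝓝[≠] 0)
      (𝓝 (if α = A then ((A * β ^ (A - 1) : ℝ) : ℂ) * γ else 0)) := by
  have h1 : Tendsto (fun s : ℂ => ((‖s‖ ^ (α - A) * (α * (‖f s‖ / ‖s‖) ^ (α - 1)) : ℝ) : ℂ) * g s)
      (𝓝[≠] 0) (𝓝 ((((if α = A then 1 else 0) * (α * β ^ (α - 1)) : ℝ) : ℂ) * γ)) := by
    refine Tendsto.mul ?_ hg
    refine (Complex.continuous_ofReal.tendsto _).comp ?_
    exact (B5_pow hα).mul ((hf.rpow_const (Or.inr (by linarith))).const_mul _)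
  have h2 : ((((if α = A then 1 else 0) * (α * β ^ (α - 1)) : ℝ) : ℂ) * γ) =
      if α = A then ((A * β ^ (A - 1) : ℝ) : ℂ) * γ else 0 := by
    by_cases h : α = A
    · rw [if_pos h, if_pos h, one_mul, h]
    · rw [if_neg h, if_neg h, zero_mul, Complex.ofReal_zero, zero_mul]
  rw [← h2]
  refine h1.congr' ?_
  filter_upwards [self_mem_nhdsWithin] with s hs
  have hs1 : 0 < ‖s‖ := norm_pos_iff.mpr hs
  have e1 : ‖s‖ ^ (α - A) * (α * (‖f s‖ / ‖s‖) ^ (α - 1)) =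
      (‖s‖ ^ (A - 1))⁻¹ * (α * ‖f s‖ ^ (α - 1)) := by
    rw [Real.div_rpow (norm_nonneg _) (norm_nonneg _)]
    have e2 : ‖s‖ ^ (α - A) = ‖s‖ ^ (α - 1) * (‖s‖ ^ (A - 1))⁻¹ := by
      rw [← Real.rpow_neg hs1.le, ← Real.rpow_add hs1]
      congr 1
      ring
    rw [e2]
    have e3 : ‖s‖ ^ (α - 1) ≠ 0 := (Real.rpow_pos_of_pos hs1 _).ne'
    field_simp
  rw [e1, Complex.ofReal_mul, mul_assoc]

private theorem B5_scale (hh : IsMetric h U) {x : E N} (hx : x ∈ U) {r : ℝ} (hr : 0 ≤ r)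
    (w : E N) : h x (((r⁻¹ : ℝ) : ℂ) • w) = h x w / r := by
  rw [hh.smul x hx, Complex.norm_real, Real.norm_eq_abs, abs_of_nonneg (inv_nonneg.mpr hr)]
  ring

/-- the projection to coordinates which vanish in `x₀` does not increase the norm `h x₀` -/
private theorem B5_proj (hh : IsMetric h U) (hr : RotInv a h U) {x₀ : E N} (hx₀ : x₀ ∈ U)
    (p : Fin N → Prop) [DecidablePred p] (hp : ∀ i, p i → a i ≠ 1 ∧ x₀ i = 0) (w : E N) :
    h x₀ (WithLp.toLp 2 (fun i => if p i then w i else 0)) ≤ h x₀ w := by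
  obtain ⟨e, he⟩ : ∃ e : Fin N → ℂ, e = fun i => if p i then -1 else 1 := ⟨_, rfl⟩
  have he1 : ∀ i, ‖e i‖ = 1 := by
    intro i
    rw [he]
    show ‖(if p i then (-1 : ℂ) else 1)‖ = 1
    by_cases h1 : p i
    · rw [if_pos h1, norm_neg, norm_one]
    · rw [if_neg h1, norm_one]
  have he2 : ∀ i, a i = 1 → e i = 1 := by
    intro i hi
    rw [he]
    exact if_neg fun h1 => (hp i h1).1 hi
  obtain ⟨-, h1⟩ := hr e he1 he2 x₀ hx₀
  have h2 : dg e x₀ = x₀ := by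
    ext i
    rw [dg_apply, he]
    show (if p i then (-1 : ℂ) else 1) * x₀ i = x₀ i
    by_cases h1 : p i
    · rw [(hp i h1).2, mul_zero]
    · rw [if_neg h1, one_mul]
  rw [h2] at h1
  have h3 := hh.add x₀ hx₀ w ((-1 : ℂ) • dg e w)
  have h4 : w + (-1 : ℂ) • dg e w =
      (2 : ℂ) • (WithLp.toLp 2 (fun i => if p i then w i else 0) : E N) := by
    ext i
    show w i + (-1 : ℂ) * (dg e w i) = (2 : ℂ) * (if p i then w i else 0)
    rw [dg_apply, he]
    show w i + (-1 : ℂ) * ((if p i then (-1 : ℂ) else 1) * w i) =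
      (2 : ℂ) * (if p i then w i else 0)
    by_cases h1 : p i
    · rw [if_pos h1, if_pos h1]
      ring
    · rw [if_neg h1, if_neg h1]
      ring
  rw [h4, hh.smul x₀ hx₀, hh.smul x₀ hx₀, h1, norm_neg, norm_one, one_mul] at h3
  have h5 : ‖(2 : ℂ)‖ = 2 := by simp
  rw [h5] at h3
  linarith

private theorem B5_norm (w : E N) : ‖w‖ ≤ ∑ i, ‖w i‖ := by
  have h1 : w = ∑ i, EuclideanSpace.single i (w i) := by
    ext j
    rw [WithLp.ofLp_sum, Finset.sum_apply]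
    simp
  calc ‖w‖ = ‖∑ i, EuclideanSpace.single i (w i)‖ := by rw [← h1]
    _ ≤ ∑ i, ‖EuclideanSpace.single i (w i)‖ := norm_sum_le _ _
    _ = ∑ i, ‖w i‖ := by simp

theorem disc_exact (hh : IsMetric h U) (ha : ∀ i, 1 ≤ a i) (hA : 1 < A) {x v : E N}
    (hx : pt a x ∈ U) (hk : KerA a A x v) :
    Tendsto (fun s : ℂ => pull a h (x + s • v) v / ‖s‖ ^ (A - 1)) (𝓝[≠] 0)
      (𝓝 (h (pt a x) (leadA a A v))) := by
  have hpt : Tendsto (fun s : ℂ => pt a (x + s • v)) (𝓝 0) (𝓝 (pt a x)) := by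
    have h1 : Continuous (fun s : ℂ => pt a (x + s • v)) := (pt_cont ha).comp (by fun_prop)
    have h2 := h1.tendsto 0
    rwa [zero_smul, add_zero] at h2
  have hw : Tendsto (fun s : ℂ => (((‖s‖ ^ (A - 1))⁻¹ : ℝ) : ℂ) • vec a (x + s • v) v)
      (𝓝[≠] 0) (𝓝 (leadA a A v)) := by
    apply B5_tend
    intro i
    rcases hk i with h1 | ⟨h1, h2⟩
    · have e1 : leadA a A v i = 0 := by
        show (if a i = A then ((A * ‖v i‖ ^ (A - 1) : ℝ) : ℂ) * v i else 0) = 0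
        rw [h1, mul_zero, ite_self]
      rw [e1]
      refine tendsto_const_nhds.congr ?_
      intro s
      show (0 : ℂ) = (((‖s‖ ^ (A - 1))⁻¹ : ℝ) : ℂ) *
        (((a i * ‖(x + s • v) i‖ ^ (a i - 1) : ℝ) : ℂ) * v i)
      rw [h1, mul_zero, mul_zero]
    · have h3 : Tendsto (fun s : ℂ => ‖(x + s • v) i‖ / ‖s‖) (𝓝[≠] 0) (𝓝 ‖v i‖) := by
        refine tendsto_const_nhds.congr' ?_
        filter_upwards [self_mem_nhdsWithin] with s hs
        show ‖v i‖ = ‖x i + s * v i‖ / ‖s‖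
        rw [h2, zero_add, norm_mul, mul_div_cancel_left₀ _ (norm_ne_zero_iff.mpr hs)]
      exact B5_coord hA h1 (f := fun s => (x + s • v) i) (g := fun _ => v i) h3
        tendsto_const_nhds
  have hlim : Tendsto (fun s : ℂ => h (pt a (x + s • v))
      ((((‖s‖ ^ (A - 1))⁻¹ : ℝ) : ℂ) • vec a (x + s • v) v)) (𝓝[≠] 0)
      (𝓝 (h (pt a x) (leadA a A v))) :=
    (B5_contAt hh hx _).tendsto.comp ((hpt.mono_left nhdsWithin_le_nhds).prodMk_nhds hw)
  refine hlim.congr' ?_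
  filter_upwards [(hpt.eventually (hh.op.mem_nhds hx)).filter_mono nhdsWithin_le_nhds] with s hs
  rw [B5_scale hh hs (by positivity)]
  rfl

theorem disc_lower (hh : IsMetric h U) (ha : ∀ i, 1 ≤ a i) (hr : RotInv a h U) (hA : 1 < A)
    {F : ℂ → E N} (hF : AnalyticAt ℂ F 0) (hU : pt a (F 0) ∈ U) (hk : KerA a A (F 0) (deriv F 0))
    {κ : ℝ} (hκ : κ < h (pt a (F 0)) (leadA a A (deriv F 0))) :
    ∀ᶠ s in 𝓝[≠] (0 : ℂ), κ * ‖s‖ ^ (A - 1) ≤ pull a h (F s) (deriv F s) := by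
  classical
  have hA0 : 0 < A - 1 := by linarith
  -- the factor
  obtain ⟨ε, hε, hε1, hεκ⟩ : ∃ ε : ℝ, 0 < ε ∧ ε < 1 ∧
      κ < (1 - ε) * h (pt a (F 0)) (leadA a A (deriv F 0)) := by
    have h1 : Tendsto (fun ε : ℝ => (1 - ε) * h (pt a (F 0)) (leadA a A (deriv F 0))) (𝓝[>] 0)
        (𝓝 ((1 - 0) * h (pt a (F 0)) (leadA a A (deriv F 0)))) := by
      have : Continuous (fun ε : ℝ => (1 - ε) * h (pt a (F 0)) (leadA a A (deriv F 0))) := by
        fun_prop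
      exact (this.tendsto 0).mono_left nhdsWithin_le_nhds
    rw [sub_zero, one_mul] at h1
    have h2 := h1.eventually (lt_mem_nhds hκ)
    have h3 : ∀ᶠ ε : ℝ in 𝓝[>] 0, ε < 1 :=
      (eventually_lt_nhds (zero_lt_one)).filter_mono nhdsWithin_le_nhds
    obtain ⟨ε, h4, h5, h6⟩ := (h2.and (h3.and self_mem_nhdsWithin)).exists
    exact ⟨ε, h6, h5, h4⟩
  have hpt : Tendsto (fun s : ℂ => pt a (F s)) (𝓝 0) (𝓝 (pt a (F 0))) := by
    have h1 : ContinuousAt (fun s : ℂ => pt a (F s)) 0 :=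
      (pt_cont ha).continuousAt.comp hF.continuousAt
    exact h1.tendsto
  have hlow := (hpt.eventually (B5_low hh hU hε)).filter_mono
    (nhdsWithin_le_nhds (s := {(0 : ℂ)}ᶜ))
  have hUev := (hpt.eventually (hh.op.mem_nhds hU)).filter_mono
    (nhdsWithin_le_nhds (s := {(0 : ℂ)}ᶜ))
  -- the asymptotics
  have hw : Tendsto (fun s : ℂ => (WithLp.toLp 2 (fun i => if a i = A ∧ deriv F 0 i ≠ 0 then
      ((((‖s‖ ^ (A - 1))⁻¹ : ℝ) : ℂ) • vec a (F s) (deriv F s)) i else 0) : E N))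
      (𝓝[≠] 0) (𝓝 (leadA a A (deriv F 0))) := by
    apply B5_tend
    intro i
    by_cases hi : a i = A ∧ deriv F 0 i ≠ 0
    · have h0 : F 0 i = 0 := ((hk i).resolve_left hi.2).2
      have hc : Continuous (fun w : E N => w i) := by fun_prop
      have h1 : Tendsto (fun s : ℂ => ‖F s i‖ / ‖s‖) (𝓝[≠] 0) (𝓝 ‖deriv F 0 i‖) := by
        have h2 := hF.differentiableAt.hasDerivAt.tendsto_slope_zero
        have h3 := ((hc.tendsto _).comp h2).norm
        refine h3.congr ?_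
        intro s
        show ‖s⁻¹ * (F (0 + s) i - F 0 i)‖ = _
        rw [zero_add, h0, sub_zero, norm_mul, norm_inv]
        ring
      have h2 : Tendsto (fun s : ℂ => deriv F s i) (𝓝[≠] 0) (𝓝 (deriv F 0 i)) :=
        ((hc.tendsto _).comp hF.deriv.continuousAt.tendsto).mono_left nhdsWithin_le_nhds
      have h3 := B5_coord hA hi.1.ge (f := fun s => F s i) (g := fun s => deriv F s i) h1 h2
      refine h3.congr ?_
      intro s
      show _ = if a i = A ∧ deriv F 0 i ≠ 0 then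
        ((((‖s‖ ^ (A - 1))⁻¹ : ℝ) : ℂ) • vec a (F s) (deriv F s)) i else 0
      rw [if_pos hi]
      rfl
    · have e1 : leadA a A (deriv F 0) i = 0 := by
        show (if a i = A then ((A * ‖deriv F 0 i‖ ^ (A - 1) : ℝ) : ℂ) * deriv F 0 i else 0) = 0
        by_cases h1 : a i = A
        · have h2 : deriv F 0 i = 0 := by
            by_contra h3
            exact hi ⟨h1, h3⟩
          rw [h2, mul_zero, ite_self]
        · rw [if_neg h1]
      rw [e1]
      refine tendsto_const_nhds.congr ?_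
      intro s
      show (0 : ℂ) = if a i = A ∧ deriv F 0 i ≠ 0 then
        ((((‖s‖ ^ (A - 1))⁻¹ : ℝ) : ℂ) • vec a (F s) (deriv F s)) i else 0
      rw [if_neg hi]
  have hlim := ((B5_contAt hh hU (leadA a A (deriv F 0))).tendsto.comp
    ((tendsto_const_nhds (x := pt a (F 0))).prodMk_nhds hw)).const_mul (1 - ε)
  have hev := hlim.eventually (lt_mem_nhds hεκ)
  filter_upwards [hlow, hUev, hev, self_mem_nhdsWithin] with s hs1 hsU hs2 hs0
  have hs : 0 < ‖s‖ := norm_pos_iff.mpr hs0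
  have h6 : 0 < ‖s‖ ^ (A - 1) := Real.rpow_pos_of_pos hs _
  have h7 : 0 < 1 - ε := by linarith
  have h3 := B5_proj hh hr hU (fun i => a i = A ∧ deriv F 0 i ≠ 0) (by
    intro i hi
    refine ⟨by rw [hi.1]; exact hA.ne', ?_⟩
    show ((‖F 0 i‖ ^ (a i - 1) : ℝ) : ℂ) * F 0 i = 0
    rw [((hk i).resolve_left hi.2).2, mul_zero])
    ((((‖s‖ ^ (A - 1))⁻¹ : ℝ) : ℂ) • vec a (F s) (deriv F s))
  have h4 := hs1 ((((‖s‖ ^ (A - 1))⁻¹ : ℝ) : ℂ) • vec a (F s) (deriv F s))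
  rw [B5_scale hh hsU h6.le] at h4
  have h5 : κ < (1 - ε) * h (pt a (F 0)) (WithLp.toLp 2 (fun i => if a i = A ∧ deriv F 0 i ≠ 0 then
      ((((‖s‖ ^ (A - 1))⁻¹ : ℝ) : ℂ) • vec a (F s) (deriv F s)) i else 0)) := hs2
  have h8 := mul_le_mul_of_nonneg_left h3 h7.le
  have h9 : κ ≤ h (pt a (F s)) (vec a (F s) (deriv F s)) / ‖s‖ ^ (A - 1) :=
    (h5.le.trans h8).trans h4
  exact (le_div_iff₀ h6).mp h9

theorem disc_upper (hh : IsMetric h U) (ha : ∀ i, 1 ≤ a i) (hA : 1 < A) (hA2 : A ≤ 2)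
    {F : ℂ → E N} (hF : AnalyticAt ℂ F 0) (hU : pt a (F 0) ∈ U)
    (hk : KerA a A (F 0) (deriv F 0)) :
    ∃ C : ℝ, ∀ᶠ s in 𝓝 (0 : ℂ), pull a h (F s) (deriv F s) ≤ C * ‖s‖ ^ (A - 1) := by
  have hA0 : 0 < A - 1 := by linarith
  obtain ⟨C, hC, hupp⟩ := B5_upp hh hU
  have hpt : Tendsto (fun s : ℂ => pt a (F s)) (𝓝 0) (𝓝 (pt a (F 0))) := by
    have h1 : ContinuousAt (fun s : ℂ => pt a (F s)) 0 :=
      (pt_cont ha).continuousAt.comp hF.continuousAt
    exact h1.tendsto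
  have hupp' := hpt.eventually hupp
  have hball : ∀ᶠ s : ℂ in 𝓝 0, ‖s‖ < 1 := by
    have := Metric.ball_mem_nhds (0 : ℂ) one_pos
    filter_upwards [this] with s hs
    simpa using hs
  have key : ∀ i : Fin N, ∃ K : ℝ, ∀ᶠ s in 𝓝 (0 : ℂ),
      ‖vec a (F s) (deriv F s) i‖ ≤ K * ‖s‖ ^ (A - 1) := by
    intro i
    have hc : Continuous (fun w : E N => w i) := by fun_prop
    have hai := ha i
    have hFi : ContinuousAt (fun s : ℂ => ‖F s i‖ ^ (a i - 1)) 0 :=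
      ((hc.continuousAt.comp hF.continuousAt).norm).rpow_const (Or.inr (by linarith))
    have hdi : ContinuousAt (fun s : ℂ => ‖deriv F s i‖) 0 :=
      (hc.continuousAt.comp hF.deriv.continuousAt).norm
    have hnorm : ∀ s : ℂ, ‖vec a (F s) (deriv F s) i‖ =
        a i * ‖F s i‖ ^ (a i - 1) * ‖deriv F s i‖ := by
      intro s
      show ‖((a i * ‖F s i‖ ^ (a i - 1) : ℝ) : ℂ) * deriv F s i‖ = _
      rw [norm_mul, Complex.norm_real, Real.norm_eq_abs, abs_of_nonneg (by positivity)]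
    rcases hk i with h0 | ⟨h0, h1⟩
    · -- the coordinate of the derivative vanishes
      obtain ⟨C2, hC2, hb2⟩ := (hF.deriv.differentiableAt.isBigO_sub).exists_pos
      have h3 : ∀ᶠ s : ℂ in 𝓝 0, ‖F s i‖ ^ (a i - 1) < ‖F 0 i‖ ^ (a i - 1) + 1 :=
        hFi.eventually_lt continuousAt_const (by simp)
      refine ⟨a i * (‖F 0 i‖ ^ (a i - 1) + 1) * C2, ?_⟩
      filter_upwards [hb2.bound, h3, hball] with s h4 h5 h6
      rw [sub_zero] at h4
      have h7 : ‖deriv F s i‖ ≤ C2 * ‖s‖ := by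
        have h8 : ‖(deriv F s - deriv F 0) i‖ ≤ ‖deriv F s - deriv F 0‖ :=
          PiLp.norm_apply_le _ i
        have h9 : (deriv F s - deriv F 0) i = deriv F s i := by
          show deriv F s i - deriv F 0 i = deriv F s i
          rw [h0, sub_zero]
        rw [h9] at h8
        exact h8.trans h4
      have h10 : ‖s‖ ≤ ‖s‖ ^ (A - 1) := by
        have := Real.rpow_le_rpow_of_exponent_ge' (norm_nonneg s) h6.le hA0.le
          (show A - 1 ≤ 1 by linarith)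
        rwa [Real.rpow_one] at this
      have h11 : 0 ≤ ‖F s i‖ ^ (a i - 1) := by positivity
      rw [hnorm]
      calc a i * ‖F s i‖ ^ (a i - 1) * ‖deriv F s i‖
          ≤ a i * (‖F 0 i‖ ^ (a i - 1) + 1) * (C2 * ‖s‖ ^ (A - 1)) := by
            refine mul_le_mul (mul_le_mul_of_nonneg_left h5.le (by linarith))
              (h7.trans (mul_le_mul_of_nonneg_left h10 hC2.le)) (norm_nonneg _) (by positivity)
        _ = a i * (‖F 0 i‖ ^ (a i - 1) + 1) * C2 * ‖s‖ ^ (A - 1) := by ring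
    · -- the point is on the divisor
      obtain ⟨C1, hC1, hb1⟩ := (hF.differentiableAt.isBigO_sub).exists_pos
      have h3 : ∀ᶠ s : ℂ in 𝓝 0, ‖deriv F s i‖ < ‖deriv F 0 i‖ + 1 :=
        hdi.eventually_lt continuousAt_const (by simp)
      refine ⟨a i * C1 ^ (a i - 1) * (‖deriv F 0 i‖ + 1), ?_⟩
      filter_upwards [hb1.bound, h3, hball] with s h4 h5 h6
      rw [sub_zero] at h4
      have h7 : ‖F s i‖ ≤ C1 * ‖s‖ := by
        have h8 : ‖(F s - F 0) i‖ ≤ ‖F s - F 0‖ := PiLp.norm_apply_le _ i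
        have h9 : (F s - F 0) i = F s i := by
          show F s i - F 0 i = F s i
          rw [h1, sub_zero]
        rw [h9] at h8
        exact h8.trans h4
      have h10 : ‖F s i‖ ^ (a i - 1) ≤ C1 ^ (a i - 1) * ‖s‖ ^ (A - 1) := by
        calc ‖F s i‖ ^ (a i - 1) ≤ (C1 * ‖s‖) ^ (a i - 1) :=
              Real.rpow_le_rpow (norm_nonneg _) h7 (by linarith)
          _ = C1 ^ (a i - 1) * ‖s‖ ^ (a i - 1) := Real.mul_rpow hC1.le (norm_nonneg _)
          _ ≤ C1 ^ (a i - 1) * ‖s‖ ^ (A - 1) := by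
              refine mul_le_mul_of_nonneg_left ?_ (by positivity)
              exact Real.rpow_le_rpow_of_exponent_ge' (norm_nonneg s) h6.le hA0.le (by linarith)
      rw [hnorm]
      calc a i * ‖F s i‖ ^ (a i - 1) * ‖deriv F s i‖
          ≤ a i * (C1 ^ (a i - 1) * ‖s‖ ^ (A - 1)) * (‖deriv F 0 i‖ + 1) := by
            refine mul_le_mul (mul_le_mul_of_nonneg_left h10 (by linarith)) h5.le
              (norm_nonneg _) (by positivity)
        _ = a i * C1 ^ (a i - 1) * (‖deriv F 0 i‖ + 1) * ‖s‖ ^ (A - 1) := by ring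
  choose K hK using key
  refine ⟨C * ∑ i, K i, ?_⟩
  filter_upwards [hupp', eventually_all.mpr hK] with s h1 h2
  calc pull a h (F s) (deriv F s) ≤ C * ‖vec a (F s) (deriv F s)‖ := h1 _
    _ ≤ C * ∑ i, ‖vec a (F s) (deriv F s) i‖ := mul_le_mul_of_nonneg_left (B5_norm _) hC
    _ ≤ C * ∑ i, K i * ‖s‖ ^ (A - 1) :=
        mul_le_mul_of_nonneg_left (Finset.sum_le_sum fun i _ => h2 i) hC
    _ = C * (∑ i, K i) * ‖s‖ ^ (A - 1) := by rw [← Finset.sum_mul, mul_assoc]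

/-- the exponent of a vector of the kernel -/
theorem exists_exp {x v : E N} (hv : v ≠ 0) (hk : ∀ i, v i = 0 ∨ (1 < a i ∧ x i = 0)) :
    ∃ A, 1 < A ∧ KerA a A x v ∧ (∃ i, v i ≠ 0 ∧ a i = A) ∧ leadA a A v ≠ 0 := by
  classical
  have h1 : (Finset.univ.filter fun i => v i ≠ 0).Nonempty := by
    by_contra h2
    rw [Finset.not_nonempty_iff_eq_empty] at h2
    apply hv
    ext i
    show v i = 0
    by_contra h3
    have h4 : i ∈ (Finset.univ.filter fun i => v i ≠ 0) :=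
      Finset.mem_filter.mpr ⟨Finset.mem_univ i, h3⟩
    rw [h2] at h4
    exact Finset.notMem_empty i h4
  obtain ⟨j, hj, hmin⟩ := Finset.exists_min_image _ a h1
  have hj0 : v j ≠ 0 := (Finset.mem_filter.mp hj).2
  have hj1 : 1 < a j := ((hk j).resolve_left hj0).1
  refine ⟨a j, hj1, ?_, ⟨j, hj0, rfl⟩, ?_⟩
  · intro i
    by_cases hi : v i = 0
    · exact Or.inl hi
    · exact Or.inr ⟨hmin i (Finset.mem_filter.mpr ⟨Finset.mem_univ i, hi⟩),
        ((hk i).resolve_left hi).2⟩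
  · intro h2
    have h3 : leadA a (a j) v j = 0 := by
      rw [h2]
      rfl
    have h4 : leadA a (a j) v j = ((a j * ‖v j‖ ^ (a j - 1) : ℝ) : ℂ) * v j := by
      show (if a j = a j then ((a j * ‖v j‖ ^ (a j - 1) : ℝ) : ℂ) * v j else 0) = _
      rw [if_pos rfl]
    rw [h4] at h3
    have h5 : 0 < ‖v j‖ := norm_pos_iff.mpr hj0
    have h6 : 0 < a j * ‖v j‖ ^ (a j - 1) :=
      mul_pos (by linarith) (Real.rpow_pos_of_pos h5 _)
    rcases mul_eq_zero.mp h3 with h7 | h7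
    · exact h6.ne' (Complex.ofReal_eq_zero.mp h7)
    · exact hj0 h7

end Pool.Agent.Nef6.SN
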