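import Pool.Agent.H.MP_6a1d6a_ag.SN.B4

/-!
MP_6a1d6a_ag/SN, module B6: the conical metric on the kernel.

`lead_smul`: `‖c v i‖ ^ (A-1) * (c v i) = ‖c‖ ^ (A-1) * c * (‖v i‖ ^ (A-1) v i)`. `knA_smul`: `h` is homogeneous, `(‖c‖ ^ (A-1) * ‖c‖) ^ (1/A) = ‖c‖` (`c = 0`: `leadA a A 0 = 0`, `0 ^ (1/A) = 0`).
`knA_zero_iff`: `pos`, `IsMetric.zero`, `leadA` has the coordinates `A ‖v i‖ ^ (A-1) v i`, `A > 1`. `knA_cont`: `pt_cont`, `leadA a A` is continuous (`0 < A - 1`), `hh.cont`, `x ^ (1/A)` is continuous in `x ≥ 0` (`0 < 1/A`).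

`knA_sub`: `p₀ = pt a (x z₀)`; `knA ≠ 0` at `z₀`: there is `k` with `a k = A`, `v z₀ k ≠ 0`, so `x z k = 0` near `z₀` (as `v z k ≠ 0`). `ξ z = pt a (x z)`, `τ z = leadA a A (v z)`. For each `i`: (1) `a i = A` and not (`v z i = 0` for `z` near `z₀`):
then `x z i = 0` near `z₀` (`x z i * v z i = 0` near `z₀` by `KerA`; the zeros of `v · i` are isolated, continuity), `rep_lead`, `ξ z i = 0`, `fix i = (v z₀ i ≠ 0)`. (2) otherwise `τ z i = 0` near `z₀`: `rep_one` or `rep_pull` with `v = 0` (up to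
congruence near `z₀`), `fix i = (a i = 1 ∨ x z₀ i ≠ 0)`. `sub_of_rep` for `r ≠ ‖b - z₀‖`, `circle_lim` for `r = ‖b - z₀‖` as in B4; `log (y ^ (1/A)) = (1/A) log y` for `0 < y` (`knA ≠ 0` near `z₀`), `circleAverage_smul`.
-/

set_option autoImplicit false

open Set Filter Topology Metric MeasureTheory
open scoped ContDiff Manifold

namespace Pool.Agent.Nef6.SN

variable {N : ℕ} {a : Fin N → ℝ} {h : E N → E N → ℝ} {U : Set (E N)} {A : ℝ}

private theorem B6_lead_apply (v : E N) (i : Fin N) :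
    leadA a A v i = if a i = A then ((A * ‖v i‖ ^ (A - 1) : ℝ) : ℂ) * v i else 0 := rfl

private theorem B6_pt_apply (x : E N) (i : Fin N) :
    pt a x i = ((‖x i‖ ^ (a i - 1) : ℝ) : ℂ) * x i := rfl

private theorem B6_pow (hA : 1 < A) (c : ℂ) : ‖c‖ ^ (A - 1) * ‖c‖ = ‖c‖ ^ A := by
  by_cases hc : c = 0
  · rw [hc, norm_zero, mul_zero, Real.zero_rpow (by linarith)]
  · rw [← Real.rpow_add_one (norm_ne_zero_iff.2 hc), sub_add_cancel]

private theorem B6_ne (hA : 1 < A) {v : E N} {i : Fin N} (hi : a i = A) (hv : v i ≠ 0) :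
    leadA a A v i ≠ 0 := by
  rw [B6_lead_apply, if_pos hi]
  refine mul_ne_zero (Complex.ofReal_ne_zero.2 ?_) hv
  exact (mul_pos (by linarith) (Real.rpow_pos_of_pos (norm_pos_iff.2 hv) _)).ne'

private theorem B6_lead_cont (hA : 1 < A) : Continuous (leadA a A : E N → E N) := by
  have h1 : Continuous fun v : E N => fun i =>
      if a i = A then ((A * ‖v i‖ ^ (A - 1) : ℝ) : ℂ) * v i else 0 := by
    refine continuous_pi fun i => ?_
    by_cases hi : a i = A
    · simp only [if_pos hi]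
      have h2 : Continuous fun v : E N => v i := by fun_prop
      have h3 : Continuous fun v : E N => ‖v i‖ ^ (A - 1) :=
        (Real.continuous_rpow_const (by linarith)).comp h2.norm
      exact (Complex.continuous_ofReal.comp (continuous_const.mul h3)).mul h2
    · simp only [if_neg hi]
      exact continuous_const
  exact (PiLp.continuous_toLp 2 _).comp h1

private theorem B6_iff (hh : IsMetric h U) {x : E N} (hx : x ∈ U) (v : E N) :
    h x v = 0 ↔ v = 0 := by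
  constructor
  · intro h0
    by_contra hv
    exact (hh.pos x hx v hv).ne' h0
  · rintro rfl
    exact hh.zero hx

private theorem B6_box (hU : IsOpen U) {p : E N} (hp : p ∈ U) :
    ∃ ε > 0, ∀ y : E N, (∀ i, ‖y i - p i‖ ≤ ε) → y ∈ U := by
  have h1 : IsOpen ((WithLp.toLp 2 : (Fin N → ℂ) → E N) ⁻¹' U) :=
    hU.preimage (PiLp.continuous_toLp 2 _)
  obtain ⟨δ, hδ, hs⟩ := Metric.isOpen_iff.1 h1 (WithLp.ofLp p) hp
  refine ⟨δ / 2, by positivity, fun y hy => ?_⟩
  have h2 : WithLp.ofLp y ∈ ball (WithLp.ofLp p) δ := by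
    rw [mem_ball]
    refine lt_of_le_of_lt ((dist_pi_le_iff (by positivity)).2 fun i => ?_) (half_lt_self hδ)
    rw [dist_eq_norm]
    exact hy i
  exact hs h2

theorem lead_smul (hA : 1 < A) (c : ℂ) (v : E N) :
    leadA a A (c • v) = (((‖c‖ ^ (A - 1) : ℝ) : ℂ) * c) • leadA a A v := by
  have _ := hA
  ext i
  rw [PiLp.smul_apply, B6_lead_apply, B6_lead_apply, PiLp.smul_apply, smul_eq_mul, smul_eq_mul]
  split_ifs
  · rw [norm_mul, Real.mul_rpow (norm_nonneg _) (norm_nonneg _), Complex.ofReal_mul,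
      Complex.ofReal_mul, Complex.ofReal_mul]
    ring
  · rw [mul_zero]

theorem knA_nonneg (hh : IsMetric h U) {x : E N} (hx : pt a x ∈ U) (v : E N) :
    0 ≤ knA a A h x v := Real.rpow_nonneg (hh.nonneg hx _) _

theorem knA_smul (hh : IsMetric h U) (hA : 1 < A) {x : E N} (hx : pt a x ∈ U) (c : ℂ) (v : E N) :
    knA a A h x (c • v) = ‖c‖ * knA a A h x v := by
  have hA0 : A ≠ 0 := by
    intro h0
    linarith
  unfold knA
  rw [lead_smul hA, hh.smul _ hx, norm_mul, Complex.norm_real, Real.norm_eq_abs,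
    abs_of_nonneg (Real.rpow_nonneg (norm_nonneg _) _), B6_pow hA,
    Real.mul_rpow (Real.rpow_nonneg (norm_nonneg _) _) (hh.nonneg hx _),
    ← Real.rpow_mul (norm_nonneg _), mul_one_div_cancel hA0, Real.rpow_one]

theorem knA_zero_iff (hh : IsMetric h U) (hA : 1 < A) {x : E N} (hx : pt a x ∈ U) (v : E N) :
    knA a A h x v = 0 ↔ ∀ i, a i = A → v i = 0 := by
  have hA0 : 1 / A ≠ 0 := by
    have h1 : 0 < 1 / A := one_div_pos.2 (by linarith)
    exact h1.ne'
  unfold knA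
  rw [Real.rpow_eq_zero (hh.nonneg hx _) hA0, B6_iff hh hx]
  constructor
  · intro h0 i hi
    by_contra hv
    refine B6_ne hA hi hv ?_
    rw [h0]
    rfl
  · intro h0
    ext i
    rw [B6_lead_apply]
    split_ifs with hi
    · rw [h0 i hi, mul_zero]
      rfl
    · rfl

private theorem B6_contAt (hh : IsMetric h U) (ha : ∀ i, 1 ≤ a i) (hA : 1 < A) {x v : ℂ → E N}
    {z₀ : ℂ} (hx : ContinuousAt x z₀) (hv : ContinuousAt v z₀) (hU : pt a (x z₀) ∈ U) :
    ContinuousAt (fun z => h (pt a (x z)) (leadA a A (v z))) z₀ := by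
  have h1 : ContinuousAt (fun q : E N × E N => h q.1 q.2) (pt a (x z₀), leadA a A (v z₀)) :=
    hh.cont.continuousAt ((hh.op.prod isOpen_univ).mem_nhds ⟨hU, mem_univ _⟩)
  have h2 : ContinuousAt (fun z => (pt a (x z), leadA a A (v z))) z₀ :=
    ((pt_cont ha).continuousAt.comp hx).prodMk ((B6_lead_cont hA).continuousAt.comp hv)
  exact ContinuousAt.comp (f := fun z => (pt a (x z), leadA a A (v z))) h1 h2

theorem knA_cont (hh : IsMetric h U) (ha : ∀ i, 1 ≤ a i) (hA : 1 < A) {x v : ℂ → E N} {z₀ : ℂ}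
    (hx : ContinuousAt x z₀) (hv : ContinuousAt v z₀) (hU : pt a (x z₀) ∈ U) :
    ContinuousAt (fun z => knA a A h (x z) (v z)) z₀ := by
  have h1 : 0 < 1 / A := one_div_pos.2 (by linarith)
  exact (B6_contAt hh ha hA hx hv hU).rpow_const (Or.inr h1.le)

private theorem B6_congr {α ε : ℝ} {ξ ξ' τ τ' : ℂ → ℂ} {ξ₀ : ℂ} {F F' : Prop} {b : ℂ} {r : ℝ}
    (hr : 0 < r) (h : CoordRep α ξ τ ξ₀ ε F b r) (hξ : ∀ z ∈ closedBall b r, ξ' z = ξ z)
    (hτ : ∀ z ∈ closedBall b r, τ' z = τ z) (hF : F' → F) : CoordRep α ξ' τ' ξ₀ ε F' b r := by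
  obtain ⟨X, V, h1, h2, ⟨c, k1, k2, k3, k4, k5⟩, h4, h5, h6⟩ := h
  have hb : b ∈ closedBall b r := mem_closedBall_self hr.le
  refine ⟨X, V, h1, h2, ⟨c, k1, fun hf => k2 (hF hf), k3, by rw [hξ b hb, k4],
    by rw [hτ b hb, k5]⟩, ?_, h5, ?_⟩
  · intro z hz
    obtain ⟨c, l1, l2, l3, l4⟩ := h4 z hz
    have hz' := sphere_subset_closedBall hz
    exact ⟨c, l1, l2, by rw [hξ z hz', l3], by rw [hτ z hz', l4]⟩
  · intro hf z hz hne
    rw [hτ z hz] at hne
    exact h6 (hF hf) z hz hne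

private theorem B6_in {z₀ b z : ℂ} {r ρ δ : ℝ} (hb : b ∈ ball z₀ ρ) (hr : r < ρ) (hρ : ρ ≤ δ / 2)
    (hz : z ∈ closedBall b r) : z ∈ ball z₀ δ := by
  rw [mem_ball] at hb ⊢
  rw [mem_closedBall] at hz
  have k1 := dist_triangle z b z₀
  linarith

/-- the representation of one coordinate -/
private theorem B6_rep (ha : ∀ i, 1 ≤ a i) (hA : 1 < A) {x v : ℂ → E N} {z₀ : ℂ}
    (hx : AnalyticAt ℂ x z₀) (hv : AnalyticAt ℂ v z₀)
    (hk : ∀ᶠ z in 𝓝 z₀, KerA a A (x z) (v z)) {ε : ℝ} (hε : 0 < ε) (i : Fin N) :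
    ∃ F : Prop, (¬ F → pt a (x z₀) i = 0) ∧ (a i = 1 → F) ∧ (a i = A → v z₀ i ≠ 0 → F) ∧
      ∃ ρ > 0, ∀ b ∈ ball z₀ ρ, ∀ r, 0 < r → r < ρ → r ≠ ‖b - z₀‖ →
        CoordRep (a i) (fun z => pt a (x z) i) (fun z => leadA a A (v z) i) (pt a (x z₀) i) ε F
          b r := by
  have hxi : AnalyticAt ℂ (fun z => x z i) z₀ :=
    ((EuclideanSpace.proj i : E N →L[ℂ] ℂ).analyticAt (x z₀)).comp hx
  have hvi : AnalyticAt ℂ (fun z => v z i) z₀ :=
    ((EuclideanSpace.proj i : E N →L[ℂ] ℂ).analyticAt (v z₀)).comp hv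
  by_cases hT : a i = A ∧ ¬ ∀ᶠ z in 𝓝 z₀, v z i = 0
  · obtain ⟨hi, hne⟩ := hT
    have hxz : ∀ᶠ z in 𝓝 z₀, x z i = 0 := by
      have h1 : ∀ᶠ z in 𝓝[≠] z₀, v z i ≠ 0 :=
        hvi.eventually_eq_zero_or_eventually_ne_zero.resolve_left hne
      have h2 : ∀ᶠ z in 𝓝[≠] z₀, x z i = 0 := by
        filter_upwards [h1, nhdsWithin_le_nhds hk] with z h3 h4
        rcases h4 i with h5 | h5
        · exact absurd h5 h3
        · exact h5.2
      rcases hxi.eventually_eq_zero_or_eventually_ne_zero with h3 | h3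
      · exact h3
      · obtain ⟨z, h4, h5⟩ := (h2.and h3).exists
        exact absurd h4 h5
    obtain ⟨ρ₁, hρ₁, hrep⟩ := rep_lead hA hvi hε
    obtain ⟨ρ₂, hρ₂, hz⟩ := Metric.eventually_nhds_iff_ball.1 hxz
    have hpt : ∀ z ∈ ball z₀ ρ₂, pt a (x z) i = 0 := by
      intro z hz'
      rw [B6_pt_apply, hz z hz', mul_zero]
    refine ⟨v z₀ i ≠ 0, fun _ => hpt z₀ (mem_ball_self hρ₂), fun h1 => by linarith,
      fun _ h2 => h2, min ρ₁ (ρ₂ / 2), by positivity, ?_⟩
    intro b hb r hr hr' hne'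
    rw [hpt z₀ (mem_ball_self hρ₂), hi]
    refine B6_congr hr (hrep b (ball_subset_ball (min_le_left _ _) hb) r hr
      (hr'.trans_le (min_le_left _ _)) hne') ?_ ?_ id
    · intro z hz'
      exact hpt z (B6_in hb hr' (min_le_right _ _) hz')
    · intro z _
      show leadA a A (v z) i = _
      rw [B6_lead_apply, if_pos hi]
  · have hvz : a i = A → ∀ᶠ z in 𝓝 z₀, v z i = 0 := by
      intro hi
      by_contra h2
      exact hT ⟨hi, h2⟩
    have hlz : ∀ᶠ z in 𝓝 z₀, leadA a A (v z) i = 0 := by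
      by_cases hi : a i = A
      · filter_upwards [hvz hi] with z h2
        rw [B6_lead_apply, if_pos hi, h2, mul_zero]
      · refine Eventually.of_forall fun z => ?_
        rw [B6_lead_apply, if_neg hi]
    obtain ⟨ρ₂, hρ₂, hz⟩ := Metric.eventually_nhds_iff_ball.1 hlz
    refine ⟨a i = 1 ∨ x z₀ i ≠ 0, ?_, Or.inl, fun hi h2 => absurd (hvz hi).self_of_nhds h2, ?_⟩
    · intro h1
      rw [not_or, not_not] at h1
      rw [B6_pt_apply, h1.2, mul_zero]
    rcases eq_or_ne (a i) 1 with h1 | h1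
    · obtain ⟨ρ₁, hρ₁, hrep⟩ := rep_one hxi (analyticAt_const (v := (0 : ℂ))) hε
      refine ⟨min ρ₁ (ρ₂ / 2), by positivity, ?_⟩
      intro b hb r hr hr' _
      have h2 : ∀ z, pt a (x z) i = x z i := by
        intro z
        rw [B6_pt_apply, h1, sub_self, Real.rpow_zero, Complex.ofReal_one, one_mul]
      rw [h2 z₀, h1]
      refine B6_congr hr (hrep b (ball_subset_ball (min_le_left _ _) hb) r hr
        (hr'.trans_le (min_le_left _ _))) (fun z _ => h2 z) ?_ fun _ => trivial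
      intro z hz'
      exact hz z (B6_in hb hr' (min_le_right _ _) hz')
    · obtain ⟨ρ₁, hρ₁, hrep⟩ := rep_pull (lt_of_le_of_ne (ha i) h1.symm) hxi
        (analyticAt_const (v := (0 : ℂ))) hε
      refine ⟨min ρ₁ (ρ₂ / 2), by positivity, ?_⟩
      intro b hb r hr hr' hne'
      refine B6_congr hr (hrep b (ball_subset_ball (min_le_left _ _) hb) r hr
        (hr'.trans_le (min_le_left _ _)) hne') (fun z _ => B6_pt_apply _ _) ?_
        fun h2 => h2.resolve_left h1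
      intro z hz'
      show leadA a A (v z) i = _
      rw [hz z (B6_in hb hr' (min_le_right _ _) hz'), mul_zero]

theorem knA_sub (hh : IsMetric h U) (ha : ∀ i, 1 ≤ a i) (hr : RotInv a h U) (hA : 1 < A)
    {x v : ℂ → E N} {z₀ : ℂ} (hx : AnalyticAt ℂ x z₀) (hv : AnalyticAt ℂ v z₀)
    (hU : pt a (x z₀) ∈ U) (hk : ∀ᶠ z in 𝓝 z₀, KerA a A (x z) (v z))
    (h0 : knA a A h (x z₀) (v z₀) ≠ 0) :
    ∃ ρ > 0, ∀ b ∈ ball z₀ ρ, ∀ r, 0 < r → r < ρ →
      Real.log (knA a A h (x b) (v b)) ≤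
        Real.circleAverage (fun z => Real.log (knA a A h (x z) (v z))) b r := by
  obtain ⟨ε, hε, hεU⟩ := B6_box hh.op hU
  obtain ⟨k, hk1, hk2⟩ : ∃ k, a k = A ∧ v z₀ k ≠ 0 := by
    by_contra hcon
    push Not at hcon
    exact h0 ((knA_zero_iff hh hA hU _).2 hcon)
  choose F hF1 hF2 hF3 ρ hρ hrep using fun i => B6_rep ha hA hx hv hk hε i
  obtain ⟨i₀, -, hi₀⟩ := Finset.exists_min_image Finset.univ ρ ⟨k, Finset.mem_univ k⟩
  have hev : ∀ᶠ z in 𝓝 z₀, ContinuousAt x z ∧ ContinuousAt v z ∧ pt a (x z) ∈ U ∧ v z k ≠ 0 := by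
    have e1 : ∀ᶠ z in 𝓝 z₀, ContinuousAt x z :=
      hx.eventually_analyticAt.mono fun z hz => hz.continuousAt
    have e2 : ∀ᶠ z in 𝓝 z₀, ContinuousAt v z :=
      hv.eventually_analyticAt.mono fun z hz => hz.continuousAt
    have e3 : ∀ᶠ z in 𝓝 z₀, pt a (x z) ∈ U :=
      hx.continuousAt.eventually ((pull_open hh ha).mem_nhds hU)
    have h1 : Continuous fun w : E N => w k := by fun_prop
    have e4 : ∀ᶠ z in 𝓝 z₀, v z k ≠ 0 :=
      (h1.continuousAt.comp hv.continuousAt).eventually_ne hk2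
    filter_upwards [e1, e2, e3, e4] with z k1 k2 k3 k4
    exact ⟨k1, k2, k3, k4⟩
  obtain ⟨δ, hδ, hball⟩ := Metric.eventually_nhds_iff_ball.1 hev
  refine ⟨min (ρ i₀) (δ / 2), lt_min (hρ i₀) (half_pos hδ), fun b hb r h0r hrρ => ?_⟩
  have hin : ∀ z ∈ closedBall b r, z ∈ ball z₀ δ := fun z hz =>
    B6_in hb hrρ (min_le_right _ _) hz
  have hne : ∀ z ∈ closedBall b r, leadA a A (v z) k ≠ 0 := fun z hz =>
    B6_ne hA hk1 (hball z (hin z hz)).2.2.2
  have hpos : ∀ z ∈ closedBall b r, 0 < h (pt a (x z)) (leadA a A (v z)) := by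
    intro z hz
    refine hh.pos _ (hball z (hin z hz)).2.2.1 _ fun h1 => hne z hz ?_
    rw [h1]
    rfl
  have hcont : ContinuousOn (fun z => Real.log (h (pt a (x z)) (leadA a A (v z))))
      (closedBall b r) := by
    intro z hz
    obtain ⟨k1, k2, k3, -⟩ := hball z (hin z hz)
    exact ((B6_contAt hh ha hA k1 k2 k3).log (hpos z hz).ne').continuousWithinAt
  have hgen : ∀ s, 0 < s → s ≤ r → s ≠ ‖b - z₀‖ →
      Real.log (h (pt a (x b)) (leadA a A (v b))) ≤
        Real.circleAverage (fun z => Real.log (h (pt a (x z)) (leadA a A (v z)))) b s := by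
    intro s hs hsr hsne
    refine sub_of_rep (ξ := fun z => pt a (x z)) (τ := fun z => leadA a A (v z)) hh hr hεU hF1 hF2
      hs (fun i => ?_) (hF3 k hk1 hk2)
      fun z hz => hne z (closedBall_subset_closedBall hsr hz)
    have h1 : min (ρ i₀) (δ / 2) ≤ ρ i := (min_le_left _ _).trans (hi₀ i (Finset.mem_univ i))
    exact hrep i b (ball_subset_ball h1 hb) s hs (lt_of_le_of_lt hsr (hrρ.trans_le h1)) hsne
  have hmain : Real.log (h (pt a (x b)) (leadA a A (v b))) ≤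
      Real.circleAverage (fun z => Real.log (h (pt a (x z)) (leadA a A (v z)))) b r := by
    by_cases h1 : r = ‖b - z₀‖
    · refine circle_lim h0r hcont fun s hs hsr => hgen s hs hsr.le ?_
      rw [← h1]
      exact hsr.ne
    · exact hgen r h0r le_rfl h1
  have hlog : ∀ z ∈ closedBall b r, Real.log (knA a A h (x z) (v z)) =
      (1 / A) * Real.log (h (pt a (x z)) (leadA a A (v z))) := by
    intro z hz
    unfold knA
    rw [Real.log_rpow (hpos z hz)]
  have e1 : Real.circleAverage (fun z => Real.log (knA a A h (x z) (v z))) b r =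
      Real.circleAverage (fun z => (1 / A) * Real.log (h (pt a (x z)) (leadA a A (v z)))) b r := by
    refine Real.circleAverage_congr_sphere fun z hz => ?_
    rw [abs_of_pos h0r] at hz
    exact hlog z (sphere_subset_closedBall hz)
  have e2 : Real.circleAverage (fun z => (1 / A) * Real.log (h (pt a (x z)) (leadA a A (v z)))) b r
      = (1 / A) *
        Real.circleAverage (fun z => Real.log (h (pt a (x z)) (leadA a A (v z)))) b r :=
    Real.circleAverage_fun_smul (a := 1 / A)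
      (f := fun z => Real.log (h (pt a (x z)) (leadA a A (v z))))
  rw [hlog b (mem_closedBall_self h0r.le), e1, e2]
  exact mul_le_mul_of_nonneg_left hmain (one_div_pos.2 (by linarith)).le

end Pool.Agent.Nef6.SN
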