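import Pool.Agent.H.MP_6a1d6a_ag.Defs

/-!
MP_6a1d6a_ag, singular metrics of nonpositive curvature with normal crossings: definitions of the local metrics.
-/

set_option autoImplicit false

open Set Filter Topology Metric
open scoped ContDiff Manifold

namespace Pool.Agent.Nef6.SN

/-- The space `ℂ^N`. -/
abbrev E (N : ℕ) : Type := EuclideanSpace ℂ (Fin N)

variable {N : ℕ}

/-- `h` is a continuous complex Finsler metric on the open set `U` with plurisubharmonic logarithm (`h x v` is the
length of the tangent vector `v` at the point `x`): `log h` satisfies the sub-mean value inequality for all closed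
holomorphic discs `z ↦ (x z, v z)` in `U × (E \ 0)`. For the length of a smooth Hermitian metric this means that its
curvature is nonpositive in the sense of Griffiths (for a Kähler metric: the holomorphic bisectional curvature is
nonpositive). -/
structure IsMetric (h : E N → E N → ℝ) (U : Set (E N)) : Prop where
  op : IsOpen U
  cont : ContinuousOn (fun q : E N × E N => h q.1 q.2) (U ×ˢ univ)
  pos : ∀ x ∈ U, ∀ v, v ≠ 0 → 0 < h x v
  smul : ∀ x ∈ U, ∀ (c : ℂ) (v : E N), h x (c • v) = ‖c‖ * h x v
  add : ∀ x ∈ U, ∀ v w, h x (v + w) ≤ h x v + h x w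
  psh : ∀ (x v : ℂ → E N) (b : ℂ) (r : ℝ), 0 < r →
    AnalyticOnNhd ℂ x (closedBall b r) → AnalyticOnNhd ℂ v (closedBall b r) →
    (∀ z ∈ closedBall b r, x z ∈ U ∧ v z ≠ 0) →
    Real.log (h (x b) (v b)) ≤ Real.circleAverage (fun z => Real.log (h (x z) (v z))) b r

/-- The vector with the coordinates `c i * x i`. -/
noncomputable def dg (c : Fin N → ℂ) (x : E N) : E N := WithLp.toLp 2 (fun i => c i * x i)

/-- The set `U` and the metric `h` on it are invariant under the rotations of the coordinates `x i` with `a i ≠ 1`. -/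
def RotInv (a : Fin N → ℝ) (h : E N → E N → ℝ) (U : Set (E N)) : Prop :=
  ∀ e : Fin N → ℂ, (∀ i, ‖e i‖ = 1) → (∀ i, a i = 1 → e i = 1) → ∀ x ∈ U, dg e x ∈ U ∧
    ∀ v : E N, h (dg e x) (dg e v) = h x v

/-- The point with the coordinates `|x i|^(a i - 1) x i`: up to rotations this is the point `(x i ^ a i)`. -/
noncomputable def pt (a : Fin N → ℝ) (x : E N) : E N :=
  dg (fun i => ((‖x i‖ ^ (a i - 1) : ℝ) : ℂ)) x

/-- The vector with the coordinates `a i |x i|^(a i - 1) v i`: up to the same rotations this is the image of the tangent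
vector `v` at `x` under the derivative of `x ↦ (x i ^ a i)`. -/
noncomputable def vec (a : Fin N → ℝ) (x v : E N) : E N :=
  dg (fun i => ((a i * ‖x i‖ ^ (a i - 1) : ℝ) : ℂ)) v

/-- The pull-back of the rotationally symmetric metric `h` by the multivalued map `x ↦ (x i ^ a i)`: the metric with
cone angles `2π a i` along `x i = 0`. -/
noncomputable def pull (a : Fin N → ℝ) (h : E N → E N → ℝ) (x v : E N) : ℝ := h (pt a x) (vec a x v)

/-- The vector `v` at `x` is in the kernel of the pull-back, with components only in directions of cone angles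
`≥ 2π A`. -/
def KerA (a : Fin N → ℝ) (A : ℝ) (x v : E N) : Prop := ∀ i, v i = 0 ∨ (A ≤ a i ∧ x i = 0)

/-- The leading part of `v`: the vector with the coordinates `A |v i|^(A-1) v i` if `a i = A`, and `0` otherwise. -/
noncomputable def leadA (a : Fin N → ℝ) (A : ℝ) (v : E N) : E N :=
  WithLp.toLp 2 (fun i => if a i = A then ((A * ‖v i‖ ^ (A - 1) : ℝ) : ℂ) * v i else 0)

/-- The conical length of the vector `v` of the kernel at `x`: the limit of
`(‖s‖ ^ (1 - A) * pull a h (x + s v) v) ^ (1 / A)` for `s → 0`. -/
noncomputable def knA (a : Fin N → ℝ) (A : ℝ) (h : E N → E N → ℝ) (x v : E N) : ℝ :=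
  (h (pt a x) (leadA a A v)) ^ (1 / A)

/-- The type of the charts (open partial homeomorphisms to `ℂ^N`) of `Y`. -/
abbrev Chart (N : ℕ) (Y : Type) [TopologicalSpace Y] : Type := OpenPartialHomeomorph Y (E N)

end Pool.Agent.Nef6.SN
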