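import Pool.Agent.H.MP_6a1d6a_ag.SN.C1
import Pool.Agent.H.MP_6a1d6a_ag.SN.B4

/-!
MP_6a1d6a_ag/SN, module C2: the metric along holomorphic discs in an arbitrary chart. (Adapted from `SM/C2.lean`; only `N_dich` has to be proved again.)

`N_dich`: take `j` at `φ.symm (x z₀)`, `loc_rep`: `y z = ch j (φ.symm (x z))`, `w z = fderiv .. (v z)` are analytic. By `N_zero`, `N = 0` iff for all `i`: `w z i = 0` or (`1 < a j i` and `y z i = 0`). For each `i` let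
`f i z = w z i` if `a j i = 1`, `f i z = w z i * y z i` if `1 < a j i`: analytic, and `N = 0` iff `f i z = 0` for all `i`. `AnalyticAt.eventually_eq_zero_or_eventually_ne_zero` for each `i` (or once for the analytic function
`z ↦ (f i z)_i` with values in `Fin n → ℂ`).
-/

set_option autoImplicit false

open Set Filter Topology Metric
open scoped ContDiff Manifold

namespace Pool.Agent.Nef6.SN

variable {n : ℕ} {Y : Type} [TopologicalSpace Y] [ChartedSpace (E n) Y]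
  [IsManifold 𝓘(ℂ, E n) ω Y] (X : SingularMetric n Y)

theorem loc_rep {φ : Chart n Y} (hφ : φ ∈ Charts (E n) Y) {x v : ℂ → E n} {z₀ : ℂ}
    (hx : AnalyticAt ℂ x z₀) (hv : AnalyticAt ℂ v z₀) (ht : x z₀ ∈ φ.target) {j : X.J}
    (hj : φ.symm (x z₀) ∈ (X.ch j).source) :
    AnalyticAt ℂ (fun z => X.ch j (φ.symm (x z))) z₀ ∧
    AnalyticAt ℂ (fun z => fderiv ℂ (X.ch j ∘ φ.symm) (x z) (v z)) z₀ ∧
    ∀ᶠ z in 𝓝 z₀, x z ∈ φ.target ∧ φ.symm (x z) ∈ (X.ch j).source ∧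
      pt (X.a j) (X.ch j (φ.symm (x z))) ∈ X.U j ∧
      X.N φ (x z) (v z) = pull (X.a j) (X.h j) (X.ch j (φ.symm (x z)))
        (fderiv ℂ (X.ch j ∘ φ.symm) (x z) (v z)) := by
  have h1 : ContDiffAt ℂ ω (X.ch j ∘ φ.symm) (φ (φ.symm (x z₀))) :=
    CC.tr_smooth hφ (X.hol j) (φ.map_target ht) hj
  rw [φ.right_inv ht] at h1
  have h2 : AnalyticAt ℂ (X.ch j ∘ φ.symm) (x z₀) := h1.analyticAt
  have h3 : AnalyticAt ℂ (fun z => fderiv ℂ (X.ch j ∘ φ.symm) (x z)) z₀ :=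
    AnalyticAt.comp h2.fderiv hx
  refine ⟨AnalyticAt.comp (g := X.ch j ∘ φ.symm) (f := x) h2 hx, ?_, ?_⟩
  · exact (h3.contDiffAt.clm_apply (n := ω) hv.contDiffAt).analyticAt
  · have h4 : ∀ᶠ z in 𝓝 z₀, x z ∈ φ.target :=
      hx.continuousAt.eventually (φ.open_target.mem_nhds ht)
    have h5 : ContinuousAt (fun z => φ.symm (x z)) z₀ :=
      ContinuousAt.comp (φ.continuousAt_symm ht) hx.continuousAt
    have h6 : ∀ᶠ z in 𝓝 z₀, φ.symm (x z) ∈ (X.ch j).source :=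
      h5.eventually ((X.ch j).open_source.mem_nhds hj)
    filter_upwards [h4, h6] with z hz1 hz2
    exact ⟨hz1, hz2, X.maps j _ ((X.ch j).map_source hz2), N_eq X hφ hz1 hz2 (v z)⟩

theorem N_cont {φ : Chart n Y} (hφ : φ ∈ Charts (E n) Y) {x v : ℂ → E n} {z₀ : ℂ}
    (hx : AnalyticAt ℂ x z₀) (hv : AnalyticAt ℂ v z₀) (ht : x z₀ ∈ φ.target)
    (hP : φ.symm (x z₀) ∉ X.P) : ContinuousAt (fun z => X.N φ (x z) (v z)) z₀ := by
  obtain ⟨j, hj⟩ := off_P X hP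
  obtain ⟨hf, hg, he⟩ := loc_rep X hφ hx hv ht hj
  have h1 : ContinuousAt (fun z => pull (X.a j) (X.h j) (X.ch j (φ.symm (x z)))
      (fderiv ℂ (X.ch j ∘ φ.symm) (x z) (v z))) z₀ := by
    have h2 : ContinuousAt (fun q : E n × E n => pull (X.a j) (X.h j) q.1 q.2)
        (X.ch j (φ.symm (x z₀)), fderiv ℂ (X.ch j ∘ φ.symm) (x z₀) (v z₀)) := by
      refine (pull_cont (X.metric j) (a_ge X j)).continuousAt ?_
      refine IsOpen.mem_nhds ((pull_open (X.metric j) (a_ge X j)).prod isOpen_univ) ?_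
      exact ⟨he.self_of_nhds.2.2.1, mem_univ _⟩
    exact ContinuousAt.comp (f := fun z => (X.ch j (φ.symm (x z)),
      fderiv ℂ (X.ch j ∘ φ.symm) (x z) (v z))) h2 (hf.continuousAt.prodMk hg.continuousAt)
  refine h1.congr ?_
  filter_upwards [he] with z hz
  exact hz.2.2.2.symm

theorem N_sub {φ : Chart n Y} (hφ : φ ∈ Charts (E n) Y) {x v : ℂ → E n} {z₀ : ℂ}
    (hx : AnalyticAt ℂ x z₀) (hv : AnalyticAt ℂ v z₀) (ht : x z₀ ∈ φ.target)
    (hP : φ.symm (x z₀) ∉ X.P) (h0 : X.N φ (x z₀) (v z₀) ≠ 0) :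
    ∃ ρ > 0, ∀ b ∈ ball z₀ ρ, ∀ r, 0 < r → r < ρ →
      Real.log (X.N φ (x b) (v b)) ≤
        Real.circleAverage (fun z => Real.log (X.N φ (x z) (v z))) b r := by
  obtain ⟨j, hj⟩ := off_P X hP
  obtain ⟨hf, hg, he⟩ := loc_rep X hφ hx hv ht hj
  have h1 : pull (X.a j) (X.h j) (X.ch j (φ.symm (x z₀)))
      (fderiv ℂ (X.ch j ∘ φ.symm) (x z₀) (v z₀)) ≠ 0 := by
    rw [← he.self_of_nhds.2.2.2]
    exact h0
  obtain ⟨ρ, hρ, hsub⟩ := pull_sub (X.metric j) (X.one_le j) (X.rot j) hf hg he.self_of_nhds.2.2.1 h1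
  obtain ⟨ε, hε, hball⟩ := Metric.eventually_nhds_iff_ball.1 he
  refine ⟨min ρ (ε / 2), lt_min hρ (half_pos hε), fun b hb r hr hr2 => ?_⟩
  have hb1 : dist b z₀ < ρ := lt_of_lt_of_le (mem_ball.1 hb) (min_le_left _ _)
  have hb2 : dist b z₀ < ε / 2 := lt_of_lt_of_le (mem_ball.1 hb) (min_le_right _ _)
  have hr3 : r < ρ := lt_of_lt_of_le hr2 (min_le_left _ _)
  have hr4 : r < ε / 2 := lt_of_lt_of_le hr2 (min_le_right _ _)
  have h2 := hsub b (mem_ball.2 hb1) r hr hr3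
  have h3 : b ∈ ball z₀ ε := mem_ball.2 (by linarith)
  rw [(hball b h3).2.2.2]
  refine h2.trans (le_of_eq ?_)
  refine Real.circleAverage_congr_sphere fun z hz => ?_
  have h4 : dist z b = r := by
    rw [mem_sphere.1 hz, abs_of_pos hr]
  have h5 : z ∈ ball z₀ ε := by
    have h6 := dist_triangle z b z₀
    exact mem_ball.2 (by linarith)
  show Real.log _ = Real.log _
  rw [(hball z h5).2.2.2]

theorem N_dich {φ : Chart n Y} (hφ : φ ∈ Charts (E n) Y) {x v : ℂ → E n} {z₀ : ℂ}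
    (hx : AnalyticAt ℂ x z₀) (hv : AnalyticAt ℂ v z₀) (ht : x z₀ ∈ φ.target)
    (hP : φ.symm (x z₀) ∉ X.P) :
    (∀ᶠ z in 𝓝 z₀, X.N φ (x z) (v z) = 0) ∨ ∀ᶠ z in 𝓝[≠] z₀, X.N φ (x z) (v z) ≠ 0 := by
  classical
  obtain ⟨j, hj⟩ := off_P X hP
  obtain ⟨hf, hg, he⟩ := loc_rep X hφ hx hv ht hj
  obtain ⟨f, hfdef⟩ : ∃ f : Fin n → ℂ → ℂ, f = fun i z =>
      if 1 < X.a j i then fderiv ℂ (X.ch j ∘ φ.symm) (x z) (v z) i * X.ch j (φ.symm (x z)) i
      else fderiv ℂ (X.ch j ∘ φ.symm) (x z) (v z) i := ⟨_, rfl⟩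
  have hfi : ∀ i z, f i z = if 1 < X.a j i then
      fderiv ℂ (X.ch j ∘ φ.symm) (x z) (v z) i * X.ch j (φ.symm (x z)) i
      else fderiv ℂ (X.ch j ∘ φ.symm) (x z) (v z) i := by
    intro i z
    rw [hfdef]
  have hz : ∀ᶠ z in 𝓝 z₀, (X.N φ (x z) (v z) = 0 ↔ ∀ i, f i z = 0) := by
    filter_upwards [he] with z h1
    rw [N_zero X hφ h1.1 h1.2.1]
    refine forall_congr' fun i => ?_
    rw [hfi]
    by_cases ha : 1 < X.a j i
    · simp only [ha, true_and, if_true, mul_eq_zero]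
    · simp only [ha, false_and, or_false, if_false]
  have hy : ∀ i, AnalyticAt ℂ (fun z => X.ch j (φ.symm (x z)) i) z₀ := fun i =>
    AnalyticAt.comp (g := fun q : E n => q i)
      ((EuclideanSpace.proj i : E n →L[ℂ] ℂ).analyticAt _) hf
  have hw : ∀ i, AnalyticAt ℂ (fun z => fderiv ℂ (X.ch j ∘ φ.symm) (x z) (v z) i) z₀ := fun i =>
    AnalyticAt.comp (g := fun q : E n => q i)
      ((EuclideanSpace.proj i : E n →L[ℂ] ℂ).analyticAt _) hg
  have hF : ∀ i, AnalyticAt ℂ (f i) z₀ := by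
    intro i
    by_cases ha : 1 < X.a j i
    · have h1 : f i = fun z => fderiv ℂ (X.ch j ∘ φ.symm) (x z) (v z) i *
          X.ch j (φ.symm (x z)) i := by
        funext z
        rw [hfi, if_pos ha]
      rw [h1]
      exact (hw i).mul (hy i)
    · have h1 : f i = fun z => fderiv ℂ (X.ch j ∘ φ.symm) (x z) (v z) i := by
        funext z
        rw [hfi, if_neg ha]
      rw [h1]
      exact hw i
  by_cases hall : ∀ i, ∀ᶠ z in 𝓝 z₀, f i z = 0
  · left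
    filter_upwards [hz, eventually_all.2 hall] with z h4 h5
    exact h4.2 h5
  · right
    obtain ⟨i, hi⟩ := not_forall.1 hall
    rcases (hF i).eventually_eq_zero_or_eventually_ne_zero with h3 | h3
    · exact absurd h3 hi
    · filter_upwards [hz.filter_mono nhdsWithin_le_nhds, h3] with z h4 h5 h6
      exact h5 (h4.1 h6 i)

end Pool.Agent.Nef6.SN
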