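import Pool.Agent.H.MP_6a1d6a_ag.SN.C9
import Pool.Agent.H.MP_6a1d6a_ag.SN.C2

/-!
MP_6a1d6a_ag/SN, module C9d: the conical metric on the kernel along discs. Compare with `SM/C9.lean`.

Along discs: `j` at `φ.symm (x z₀)` (`off_P`), `loc_rep`: `y z = ch j (φ.symm (x z))`, `w z = fderiv .. (v z)` are analytic at `z₀`; near `z₀` `Ker` means `KerA (a j) A (y z) (w z)`, `K = knA .. (y z) (w z)`.
`K_cont`, `K_sub`: `knA_cont`, `knA_sub` (and congruence near `z₀`, shrink `ρ`, as in `N_sub`). `Ker_closed`: let `f i = w · i` if `a j i < A`, `f i z = w z i * y z i` if `A ≤ a j i`; `KerA` iff all `f i z = 0`; each `f i` is analytic and vanishes frequently in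
`𝓝[≠] z₀`, so it vanishes near `z₀` (`AnalyticAt.frequently_zero_iff_eventually_zero`). `K_dich`: `K = 0` iff `w z i = 0` for all `i` with `a j i = A` (`knA_zero_iff`).
`exp_exists`: `v z ≠ 0` near `z₀`, so `w z ≠ 0` (`D_inj`). Let `S` be the set of the `i` such that `w · i` does not vanish identically near `z₀`; `S ≠ ∅`; for `i ∈ S`, `w z i ≠ 0` in a punctured neighbourhood, so by `N_zero` `1 < a j i` and `y z i = 0` there, so near `z₀` (continuity). `A` = the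
minimum of `a j i` over `S`.
-/

set_option autoImplicit false

open Set Filter Topology Metric MeasureTheory
open scoped ContDiff Manifold

namespace Pool.Agent.Nef6.SN

variable {n : ℕ} {Y : Type} [TopologicalSpace Y] [ChartedSpace (E n) Y]
  [IsManifold 𝓘(ℂ, E n) ω Y] (X : SingularMetric n Y)

/-- the coordinates of an analytic function are analytic -/
private theorem C9d_coord {f : ℂ → E n} {z₀ : ℂ} (hf : AnalyticAt ℂ f z₀) (i : Fin n) :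
    AnalyticAt ℂ (fun z => f z i) z₀ :=
  AnalyticAt.comp (g := fun q : E n => q i)
    ((EuclideanSpace.proj (𝕜 := ℂ) i : E n →L[ℂ] ℂ).analyticAt _) hf

/-- the kernel and the conical length along a disc, in the chart `ch j` -/
private theorem C9d_loc {φ : Chart n Y} (hφ : φ ∈ Charts (E n) Y) {x v : ℂ → E n} {z₀ : ℂ}
    (hx : AnalyticAt ℂ x z₀) (hv : AnalyticAt ℂ v z₀) (ht : x z₀ ∈ φ.target)
    (hP : φ.symm (x z₀) ∉ X.P) :
    ∃ j : X.J, AnalyticAt ℂ (fun z => X.ch j (φ.symm (x z))) z₀ ∧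
      AnalyticAt ℂ (fun z => fderiv ℂ (X.ch j ∘ φ.symm) (x z) (v z)) z₀ ∧
      pt (X.a j) (X.ch j (φ.symm (x z₀))) ∈ X.U j ∧
      (v z₀ ≠ 0 → fderiv ℂ (X.ch j ∘ φ.symm) (x z₀) (v z₀) ≠ 0) ∧
      ∀ᶠ z in 𝓝 z₀, pt (X.a j) (X.ch j (φ.symm (x z))) ∈ X.U j ∧
        (X.N φ (x z) (v z) = 0 ↔ ∀ i, fderiv ℂ (X.ch j ∘ φ.symm) (x z) (v z) i = 0 ∨
          (1 < X.a j i ∧ X.ch j (φ.symm (x z)) i = 0)) ∧
        ∀ A : ℝ, 1 < A → (X.Ker A φ (x z) (v z) ↔ KerA (X.a j) A (X.ch j (φ.symm (x z)))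
          (fderiv ℂ (X.ch j ∘ φ.symm) (x z) (v z))) ∧
          (X.Ker A φ (x z) (v z) → X.K A φ (x z) (v z) = knA (X.a j) A (X.h j)
            (X.ch j (φ.symm (x z))) (fderiv ℂ (X.ch j ∘ φ.symm) (x z) (v z))) := by
  obtain ⟨j, hj⟩ := off_P X hP
  obtain ⟨hf, hg, he⟩ := loc_rep X hφ hx hv ht hj
  refine ⟨j, hf, hg, he.self_of_nhds.2.2.1, fun hv0 h0 => hv0 ?_, ?_⟩
  · refine D_inj hφ (X.hol j) (φ.map_target ht) hj ?_
    rw [φ.right_inv ht]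
    exact h0
  · filter_upwards [he] with z hz
    exact ⟨hz.2.2.1, N_zero X hφ hz.1 hz.2.1 (v z), fun A hA =>
      ⟨Ker_iff X hφ hz.1 hz.2.1 hA (v z), fun hk => K_eq X hφ hz.1 hz.2.1 hA hk⟩⟩

theorem K_cont {φ : Chart n Y} (hφ : φ ∈ Charts (E n) Y) {x v : ℂ → E n} {z₀ : ℂ}
    (hx : AnalyticAt ℂ x z₀) (hv : AnalyticAt ℂ v z₀) (ht : x z₀ ∈ φ.target)
    (hP : φ.symm (x z₀) ∉ X.P) {A : ℝ} (hA : 1 < A) (h : ∀ᶠ z in 𝓝 z₀, X.Ker A φ (x z) (v z)) :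
    ContinuousAt (fun z => X.K A φ (x z) (v z)) z₀ := by
  obtain ⟨j, hf, hg, hU, -, he⟩ := C9d_loc X hφ hx hv ht hP
  refine (knA_cont (X.metric j) (X.one_le j) hA hf.continuousAt hg.continuousAt hU).congr ?_
  filter_upwards [he, h] with z hz hk
  exact ((hz.2.2 A hA).2 hk).symm

theorem K_sub {φ : Chart n Y} (hφ : φ ∈ Charts (E n) Y) {x v : ℂ → E n} {z₀ : ℂ}
    (hx : AnalyticAt ℂ x z₀) (hv : AnalyticAt ℂ v z₀) (ht : x z₀ ∈ φ.target)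
    (hP : φ.symm (x z₀) ∉ X.P) {A : ℝ} (hA : 1 < A) (h : ∀ᶠ z in 𝓝 z₀, X.Ker A φ (x z) (v z))
    (h0 : X.K A φ (x z₀) (v z₀) ≠ 0) :
    ∃ ρ > 0, ∀ b ∈ ball z₀ ρ, ∀ r, 0 < r → r < ρ →
      Real.log (X.K A φ (x b) (v b)) ≤
        Real.circleAverage (fun z => Real.log (X.K A φ (x z) (v z))) b r := by
  obtain ⟨j, hf, hg, hU, -, he⟩ := C9d_loc X hφ hx hv ht hP
  have hk : ∀ᶠ z in 𝓝 z₀, KerA (X.a j) A (X.ch j (φ.symm (x z)))
      (fderiv ℂ (X.ch j ∘ φ.symm) (x z) (v z)) := by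
    filter_upwards [he, h] with z hz hk
    exact (hz.2.2 A hA).1.1 hk
  have heq : ∀ᶠ z in 𝓝 z₀, X.K A φ (x z) (v z) = knA (X.a j) A (X.h j)
      (X.ch j (φ.symm (x z))) (fderiv ℂ (X.ch j ∘ φ.symm) (x z) (v z)) := by
    filter_upwards [he, h] with z hz hk
    exact (hz.2.2 A hA).2 hk
  have h1 : knA (X.a j) A (X.h j) (X.ch j (φ.symm (x z₀)))
      (fderiv ℂ (X.ch j ∘ φ.symm) (x z₀) (v z₀)) ≠ 0 := by
    rw [← heq.self_of_nhds]
    exact h0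
  obtain ⟨ρ, hρ, hsub⟩ := knA_sub (X.metric j) (X.one_le j) (X.rot j) hA hf hg hU hk h1
  obtain ⟨ε, hε, hball⟩ := Metric.eventually_nhds_iff_ball.1 heq
  refine ⟨min ρ (ε / 2), lt_min hρ (half_pos hε), fun b hb r hr hr2 => ?_⟩
  have hb1 : dist b z₀ < ρ := lt_of_lt_of_le (mem_ball.1 hb) (min_le_left _ _)
  have hb2 : dist b z₀ < ε / 2 := lt_of_lt_of_le (mem_ball.1 hb) (min_le_right _ _)
  have hr3 : r < ρ := lt_of_lt_of_le hr2 (min_le_left _ _)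
  have hr4 : r < ε / 2 := lt_of_lt_of_le hr2 (min_le_right _ _)
  have h2 := hsub b (mem_ball.2 hb1) r hr hr3
  have h3 : b ∈ ball z₀ ε := mem_ball.2 (by linarith)
  rw [hball b h3]
  refine h2.trans (le_of_eq ?_)
  refine Real.circleAverage_congr_sphere fun z hz => ?_
  have h4 : dist z b = r := by
    rw [mem_sphere.1 hz, abs_of_pos hr]
  have h5 : z ∈ ball z₀ ε := by
    have h6 := dist_triangle z b z₀
    exact mem_ball.2 (by linarith)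
  show Real.log _ = Real.log _
  rw [hball z h5]

theorem Ker_closed {φ : Chart n Y} (hφ : φ ∈ Charts (E n) Y) {x v : ℂ → E n} {z₀ : ℂ}
    (hx : AnalyticAt ℂ x z₀) (hv : AnalyticAt ℂ v z₀) (ht : x z₀ ∈ φ.target)
    (hP : φ.symm (x z₀) ∉ X.P) {A : ℝ} (hA : 1 < A)
    (h : ∃ᶠ z in 𝓝[≠] z₀, X.Ker A φ (x z) (v z)) : ∀ᶠ z in 𝓝 z₀, X.Ker A φ (x z) (v z) := by
  obtain ⟨j, hf, hg, -, -, he⟩ := C9d_loc X hφ hx hv ht hP
  have hk : ∃ᶠ z in 𝓝[≠] z₀, KerA (X.a j) A (X.ch j (φ.symm (x z)))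
      (fderiv ℂ (X.ch j ∘ φ.symm) (x z) (v z)) := by
    refine (h.and_eventually (he.filter_mono nhdsWithin_le_nhds)).mono fun z hz => ?_
    exact (hz.2.2.2 A hA).1.1 hz.1
  have hi : ∀ i, ∀ᶠ z in 𝓝 z₀, fderiv ℂ (X.ch j ∘ φ.symm) (x z) (v z) i = 0 ∨
      (A ≤ X.a j i ∧ X.ch j (φ.symm (x z)) i = 0) := by
    intro i
    by_cases hai : A ≤ X.a j i
    · have h1 : AnalyticAt ℂ (fun z => fderiv ℂ (X.ch j ∘ φ.symm) (x z) (v z) i *
          X.ch j (φ.symm (x z)) i) z₀ := (C9d_coord hg i).mul (C9d_coord hf i)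
      have h2 : ∃ᶠ z in 𝓝[≠] z₀, fderiv ℂ (X.ch j ∘ φ.symm) (x z) (v z) i *
          X.ch j (φ.symm (x z)) i = 0 := by
        refine hk.mono fun z hz => ?_
        rcases hz i with h3 | h3
        · rw [h3, zero_mul]
        · rw [h3.2, mul_zero]
      filter_upwards [h1.frequently_zero_iff_eventually_zero.1 h2] with z hz
      rcases mul_eq_zero.1 hz with h3 | h3
      · exact Or.inl h3
      · exact Or.inr ⟨hai, h3⟩
    · have h2 : ∃ᶠ z in 𝓝[≠] z₀, fderiv ℂ (X.ch j ∘ φ.symm) (x z) (v z) i = 0 := by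
        refine hk.mono fun z hz => ?_
        rcases hz i with h3 | h3
        · exact h3
        · exact absurd h3.1 hai
      filter_upwards [(C9d_coord hg i).frequently_zero_iff_eventually_zero.1 h2] with z hz
      exact Or.inl hz
  filter_upwards [he, eventually_all.2 hi] with z hz h1
  exact (hz.2.2 A hA).1.2 h1

theorem K_dich {φ : Chart n Y} (hφ : φ ∈ Charts (E n) Y) {x v : ℂ → E n} {z₀ : ℂ}
    (hx : AnalyticAt ℂ x z₀) (hv : AnalyticAt ℂ v z₀) (ht : x z₀ ∈ φ.target)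
    (hP : φ.symm (x z₀) ∉ X.P) {A : ℝ} (hA : 1 < A) (h : ∀ᶠ z in 𝓝 z₀, X.Ker A φ (x z) (v z)) :
    (∀ᶠ z in 𝓝 z₀, X.K A φ (x z) (v z) = 0) ∨ ∀ᶠ z in 𝓝[≠] z₀, X.K A φ (x z) (v z) ≠ 0 := by
  obtain ⟨j, hf, hg, -, -, he⟩ := C9d_loc X hφ hx hv ht hP
  have hz : ∀ᶠ z in 𝓝 z₀, (X.K A φ (x z) (v z) = 0 ↔ ∀ i, X.a j i = A →
      fderiv ℂ (X.ch j ∘ φ.symm) (x z) (v z) i = 0) := by
    filter_upwards [he, h] with z h1 h2
    rw [(h1.2.2 A hA).2 h2]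
    exact knA_zero_iff (X.metric j) hA h1.1 _
  by_cases hall : ∀ i, X.a j i = A → ∀ᶠ z in 𝓝 z₀, fderiv ℂ (X.ch j ∘ φ.symm) (x z) (v z) i = 0
  · left
    have h1 : ∀ᶠ z in 𝓝 z₀, ∀ i, X.a j i = A → fderiv ℂ (X.ch j ∘ φ.symm) (x z) (v z) i = 0 := by
      refine eventually_all.2 fun i => ?_
      by_cases hi : X.a j i = A
      · filter_upwards [hall i hi] with z h2 _
        exact h2
      · exact Eventually.of_forall fun z h2 => absurd h2 hi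
    filter_upwards [hz, h1] with z h2 h3
    exact h2.2 h3
  · right
    obtain ⟨i, hi0⟩ := not_forall.1 hall
    obtain ⟨hi, h1⟩ := Classical.not_imp.1 hi0
    rcases (C9d_coord hg i).eventually_eq_zero_or_eventually_ne_zero with h2 | h2
    · exact absurd h2 h1
    · filter_upwards [hz.filter_mono nhdsWithin_le_nhds, h2] with z h3 h4 h5
      exact h4 (h3.1 h5 i hi)

theorem exp_exists {φ : Chart n Y} (hφ : φ ∈ Charts (E n) Y) {x v : ℂ → E n} {z₀ : ℂ}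
    (hx : AnalyticAt ℂ x z₀) (hv : AnalyticAt ℂ v z₀) (ht : x z₀ ∈ φ.target)
    (hP : φ.symm (x z₀) ∉ X.P) (hv0 : v z₀ ≠ 0) (h : ∀ᶠ z in 𝓝 z₀, X.N φ (x z) (v z) = 0) :
    ∃ A, 1 < A ∧ (∀ᶠ z in 𝓝 z₀, X.Ker A φ (x z) (v z)) ∧
      ∀ᶠ z in 𝓝[≠] z₀, X.K A φ (x z) (v z) ≠ 0 := by
  classical
  obtain ⟨j, hf, hg, -, hw0, he⟩ := C9d_loc X hφ hx hv ht hP
  have hN : ∀ᶠ z in 𝓝 z₀, ∀ i, fderiv ℂ (X.ch j ∘ φ.symm) (x z) (v z) i = 0 ∨
      (1 < X.a j i ∧ X.ch j (φ.symm (x z)) i = 0) := by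
    filter_upwards [he, h] with z h1 h2
    exact h1.2.1.1 h2
  obtain ⟨S, hS⟩ : ∃ S : Finset (Fin n), S = Finset.univ.filter fun i =>
      ¬ ∀ᶠ z in 𝓝 z₀, fderiv ℂ (X.ch j ∘ φ.symm) (x z) (v z) i = 0 := ⟨_, rfl⟩
  have hmem : ∀ i, i ∈ S ↔ ¬ ∀ᶠ z in 𝓝 z₀, fderiv ℂ (X.ch j ∘ φ.symm) (x z) (v z) i = 0 := by
    intro i
    rw [hS, Finset.mem_filter]
    exact ⟨fun h1 => h1.2, fun h1 => ⟨Finset.mem_univ _, h1⟩⟩
  have hne : ∀ i ∈ S, ∀ᶠ z in 𝓝[≠] z₀, fderiv ℂ (X.ch j ∘ φ.symm) (x z) (v z) i ≠ 0 := by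
    intro i hi
    rcases (C9d_coord hg i).eventually_eq_zero_or_eventually_ne_zero with h2 | h2
    · exact absurd h2 ((hmem i).1 hi)
    · exact h2
  have hN' : ∀ i ∈ S, ∀ᶠ z in 𝓝[≠] z₀, 1 < X.a j i ∧ X.ch j (φ.symm (x z)) i = 0 := by
    intro i hi
    filter_upwards [hne i hi, hN.filter_mono nhdsWithin_le_nhds] with z h1 h2
    exact (h2 i).resolve_left h1
  have hSne : S.Nonempty := by
    by_contra hcon
    rw [Finset.not_nonempty_iff_eq_empty] at hcon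
    refine hw0 hv0 ?_
    ext i
    have h1 : i ∉ S := by
      rw [hcon]
      exact Finset.notMem_empty _
    rw [hmem, not_not] at h1
    exact h1.self_of_nhds
  obtain ⟨i₀, hi₀, hmin⟩ := Finset.exists_min_image S (X.a j) hSne
  obtain ⟨A, hAdef⟩ : ∃ A, A = X.a j i₀ := ⟨_, rfl⟩
  have hA : 1 < A := by
    obtain ⟨z, hz⟩ := (hN' i₀ hi₀).exists
    rw [hAdef]
    exact hz.1
  have hK : ∀ᶠ z in 𝓝 z₀, KerA (X.a j) A (X.ch j (φ.symm (x z)))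
      (fderiv ℂ (X.ch j ∘ φ.symm) (x z) (v z)) := by
    refine eventually_all.2 fun i => ?_
    by_cases hi : i ∈ S
    · have h1 : ∃ᶠ z in 𝓝[≠] z₀, X.ch j (φ.symm (x z)) i = 0 :=
        ((hN' i hi).mono fun z hz => hz.2).frequently
      filter_upwards [(C9d_coord hf i).frequently_zero_iff_eventually_zero.1 h1] with z hz
      exact Or.inr ⟨by rw [hAdef]; exact hmin i hi, hz⟩
    · rw [hmem, not_not] at hi
      filter_upwards [hi] with z hz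
      exact Or.inl hz
  have hKer : ∀ᶠ z in 𝓝 z₀, X.Ker A φ (x z) (v z) := by
    filter_upwards [he, hK] with z hz h1
    exact (hz.2.2 A hA).1.2 h1
  refine ⟨A, hA, hKer, ?_⟩
  filter_upwards [he.filter_mono nhdsWithin_le_nhds, hKer.filter_mono nhdsWithin_le_nhds,
    hne i₀ hi₀] with z h1 h2 h3 h4
  rw [(h1.2.2 A hA).2 h2, knA_zero_iff (X.metric j) hA h1.1] at h4
  exact h3 (h4 i₀ hAdef.symm)

end Pool.Agent.Nef6.SN
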