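import Mathlib

/-!
MP_6a1d6a_ag/SN, module T1: the complement of a discrete closed set in a connected Riemann surface is connected.

`T₁ = {c : ∀ᶠ c' in 𝓝[≠] c, c' ∈ O₁}`, `T₂` similarly. Both are open (`C` is a T1 space: `ChartedSpace.t1Space ℂ C`). For each `c` take `R > 0` with `ball (χ c) R ⊆ χ.target`, `χ = chartAt ℂ c`, and `χ.symm z ∈ S` for `z ≠ χ c` in the ball; the punctured ball is preconnected (the image
of `{w : Re w < log R}` under `w ↦ χ c + exp w`, see the proof of `T_alt` in `SM/C5.lean`), so its image under `χ.symm` is in `O₁` or in `O₂`, and `c ∈ T₁` or `c ∈ T₂`. `T₁ ∩ T₂ = ∅` as `𝓝[≠] c` is not trivial. As `C` is connected and `T₁ ≠ ∅` (points of `O₁` are in `T₁`),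
`T₁ = univ`; a point of `O₂` would be in `T₂`.
-/

set_option autoImplicit false

open Set Filter Topology Metric MeasureTheory
open scoped ContDiff Manifold

namespace Pool.Agent.Nef6.SN

private theorem T1_tr {A B : Type} [TopologicalSpace A] [TopologicalSpace B]
    (e : OpenPartialHomeomorph A B) {a : A} (ha : a ∈ e.source) :
    Tendsto e (𝓝[≠] a) (𝓝[≠] (e a)) := by
  refine tendsto_nhdsWithin_iff.2 ⟨(e.continuousAt ha).tendsto.mono_left nhdsWithin_le_nhds, ?_⟩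
  filter_upwards [mem_nhdsWithin_of_mem_nhds (e.open_source.mem_nhds ha),
    self_mem_nhdsWithin] with b hb hb' h
  exact hb' (e.injOn hb ha h)

private theorem T1_punct (z₀ : ℂ) {R : ℝ} (hR : 0 < R) : IsPreconnected (ball z₀ R \ {z₀}) := by
  have h1 : ball z₀ R \ {z₀} = (fun w => z₀ + Complex.exp w) '' {w : ℂ | w.re < Real.log R} := by
    ext z
    constructor
    · rintro ⟨hz, hz0⟩
      have hz1 : z - z₀ ≠ 0 := sub_ne_zero.2 hz0
      refine ⟨Complex.log (z - z₀), ?_, ?_⟩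
      · show (Complex.log (z - z₀)).re < Real.log R
        rw [Complex.log_re]
        exact Real.log_lt_log (norm_pos_iff.2 hz1) (by rwa [mem_ball, dist_eq_norm] at hz)
      · show z₀ + Complex.exp (Complex.log (z - z₀)) = z
        rw [Complex.exp_log hz1]
        ring
    · rintro ⟨w, hw, rfl⟩
      have hw' : w.re < Real.log R := hw
      refine ⟨?_, ?_⟩
      · rw [mem_ball, dist_eq_norm]
        have h2 : z₀ + Complex.exp w - z₀ = Complex.exp w := by ring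
        rw [h2, Complex.norm_exp]
        exact (Real.lt_log_iff_exp_lt hR).1 hw'
      · intro h
        have h2 : z₀ + Complex.exp w = z₀ := h
        exact Complex.exp_ne_zero w (by simpa using h2)
  rw [h1]
  exact (convex_halfSpace_re_lt (Real.log R)).isPreconnected.image _
    (continuous_const.add Complex.continuous_exp).continuousOn

private theorem T1_ev {C : Type} [TopologicalSpace C] [T1Space C] {p : C → Prop} {c : C}
    (h : ∀ᶠ c' in 𝓝[≠] c, p c') : ∀ᶠ c' in 𝓝 c, c' ≠ c → ∀ᶠ c'' in 𝓝 c', p c'' := by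
  refine (eventually_nhdsWithin_iff (s := {c}ᶜ)).1 ?_
  filter_upwards [eventually_eventually_nhdsWithin.2 h, self_mem_nhdsWithin] with c' h1 h2
  rwa [isOpen_compl_singleton.nhdsWithin_eq h2] at h1

private theorem T1_open {C : Type} [TopologicalSpace C] [T1Space C] (p : C → Prop) :
    IsOpen {c : C | ∀ᶠ c' in 𝓝[≠] c, p c'} := by
  refine isOpen_iff_mem_nhds.2 fun c hc => ?_
  have hc' : ∀ᶠ c' in 𝓝[≠] c, p c' := hc
  filter_upwards [T1_ev hc'] with c' h1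
  by_cases h2 : c' = c
  · rw [h2]
    exact hc
  · exact mem_nhdsWithin_of_mem_nhds (h1 h2)

theorem conn_compl {C : Type} [TopologicalSpace C] [ChartedSpace ℂ C] [ConnectedSpace C]
    {S O₁ O₂ : Set C} (hS : ∀ c, ∀ᶠ c' in 𝓝[≠] c, c' ∈ S) (h1 : IsOpen O₁) (h2 : IsOpen O₂)
    (hd : Disjoint O₁ O₂) (hc : S ⊆ O₁ ∪ O₂) (hn : O₁.Nonempty) : O₂ = ∅ := by
  haveI : T1Space C := ChartedSpace.t1Space ℂ C
  have hsy : ∀ c : C, (chartAt ℂ c).symm (chartAt ℂ c c) = c :=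
    fun c => (chartAt ℂ c).left_inv (mem_chart_source ℂ c)
  have htr : ∀ c : C, Tendsto (chartAt ℂ c).symm (𝓝[≠] (chartAt ℂ c c)) (𝓝[≠] c) := by
    intro c
    have h3 := T1_tr (chartAt ℂ c).symm ((chartAt ℂ c).map_source (mem_chart_source ℂ c))
    rw [hsy c] at h3
    exact h3
  haveI hne : ∀ c : C, (𝓝[≠] c).NeBot := fun c => (htr c).neBot
  have dich : ∀ c, (∀ᶠ c' in 𝓝[≠] c, c' ∈ O₁) ∨ ∀ᶠ c' in 𝓝[≠] c, c' ∈ O₂ := by
    intro c
    have h4 : ∀ᶠ z in 𝓝[≠] (chartAt ℂ c c), (chartAt ℂ c).symm z ∈ S := (htr c).eventually (hS c)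
    rw [eventually_nhdsWithin_iff, Metric.eventually_nhds_iff_ball] at h4
    obtain ⟨R₁, hR₁, h4⟩ := h4
    obtain ⟨R₂, hR₂, h5⟩ := Metric.mem_nhds_iff.1
      ((chartAt ℂ c).open_target.mem_nhds (mem_chart_target ℂ c))
    obtain ⟨R, hR⟩ : ∃ R, R = min R₁ R₂ := ⟨_, rfl⟩
    have hR0 : 0 < R := hR ▸ lt_min hR₁ hR₂
    have hb1 : ball (chartAt ℂ c c) R ⊆ ball (chartAt ℂ c c) R₁ :=
      ball_subset_ball (hR ▸ min_le_left _ _)
    have hb2 : ball (chartAt ℂ c c) R ⊆ (chartAt ℂ c).target :=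
      (ball_subset_ball (hR ▸ min_le_right _ _)).trans h5
    have hpre : IsPreconnected ((chartAt ℂ c).symm '' (ball (chartAt ℂ c c) R \ {chartAt ℂ c c})) :=
      (T1_punct (chartAt ℂ c c) hR0).image _
        ((chartAt ℂ c).continuousOn_symm.mono (sdiff_subset.trans hb2))
    have hsub : (chartAt ℂ c).symm '' (ball (chartAt ℂ c c) R \ {chartAt ℂ c c}) ⊆ O₁ ∪ O₂ := by
      rintro _ ⟨z, ⟨hz, hz0⟩, rfl⟩
      exact hc (h4 z (hb1 hz) hz0)
    have hback : ∀ O : Set C,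
        (chartAt ℂ c).symm '' (ball (chartAt ℂ c c) R \ {chartAt ℂ c c}) ⊆ O →
        ∀ᶠ c' in 𝓝[≠] c, c' ∈ O := by
      intro O hO
      have h6 := (T1_tr (chartAt ℂ c) (mem_chart_source ℂ c)).eventually
        (show ∀ᶠ z in 𝓝[≠] (chartAt ℂ c c), (chartAt ℂ c).symm z ∈ O by
          filter_upwards [mem_nhdsWithin_of_mem_nhds (ball_mem_nhds _ hR0), self_mem_nhdsWithin]
            with z h6 h7
          exact hO ⟨z, ⟨h6, h7⟩, rfl⟩)
      filter_upwards [h6, mem_nhdsWithin_of_mem_nhds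
        ((chartAt ℂ c).open_source.mem_nhds (mem_chart_source ℂ c))] with c' h7 h9
      rwa [(chartAt ℂ c).left_inv h9] at h7
    rcases hpre.subset_or_subset h1 h2 hd hsub with h6 | h6
    · exact Or.inl (hback _ h6)
    · exact Or.inr (hback _ h6)
  have hnot : ∀ c, (∀ᶠ c' in 𝓝[≠] c, c' ∈ O₁) → (∀ᶠ c' in 𝓝[≠] c, c' ∈ O₂) → False := by
    intro c h3 h4
    obtain ⟨x, hx1, hx2⟩ := (h3.and h4).exists
    exact disjoint_left.1 hd hx1 hx2
  obtain ⟨T₁, hT₁⟩ : ∃ T : Set C, T = {c | ∀ᶠ c' in 𝓝[≠] c, c' ∈ O₁} := ⟨_, rfl⟩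
  obtain ⟨T₂, hT₂⟩ : ∃ T : Set C, T = {c | ∀ᶠ c' in 𝓝[≠] c, c' ∈ O₂} := ⟨_, rfl⟩
  have hm₁ : ∀ c, c ∈ T₁ ↔ ∀ᶠ c' in 𝓝[≠] c, c' ∈ O₁ := by
    intro c
    rw [hT₁]
    rfl
  have hm₂ : ∀ c, c ∈ T₂ ↔ ∀ᶠ c' in 𝓝[≠] c, c' ∈ O₂ := by
    intro c
    rw [hT₂]
    rfl
  have hcompl : T₁ᶜ = T₂ := by
    ext c
    constructor
    · intro h
      exact (hm₂ c).2 ((dich c).resolve_left fun h3 => h ((hm₁ c).2 h3))
    · intro h h3
      exact hnot c ((hm₁ c).1 h3) ((hm₂ c).1 h)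
  have hopen₁ : IsOpen T₁ := hT₁ ▸ T1_open _
  have hopen₂ : IsOpen T₂ := hT₂ ▸ T1_open _
  have hclopen : IsClopen T₁ := ⟨isOpen_compl_iff.1 (hcompl ▸ hopen₂), hopen₁⟩
  obtain ⟨x, hx⟩ := hn
  have hx₁ : x ∈ T₁ := (hm₁ x).2 (mem_nhdsWithin_of_mem_nhds (h1.mem_nhds hx))
  have huniv : T₁ = univ := by
    rcases isClopen_iff.1 hclopen with h | h
    · rw [h] at hx₁
      exact absurd hx₁ (notMem_empty x)
    · exact h
  rw [eq_empty_iff_forall_notMem]
  intro y hy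
  have hy₁ : y ∈ T₁ := by
    rw [huniv]
    exact mem_univ y
  exact hnot y ((hm₁ y).1 hy₁) (mem_nhdsWithin_of_mem_nhds (h2.mem_nhds hy))

end Pool.Agent.Nef6.SN
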