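import Pool.Agent.H.MP_6a1d6a_ag.SN.C9b
import Pool.Agent.H.MP_6a1d6a_ag.SN.C9d
import Pool.Agent.H.MP_6a1d6a_ag.SN.T1

/-!
MP_6a1d6a_ag/SN, module C9c: the exponent of a field along a curve.

`exp_alt`. Let `S = {c : ν c ∉ P}`. (1) For each `c ∈ S` there is `A > 1` with `Q A c : ∀ᶠ c' in 𝓝[≠] c, kr X A ν σ c' ∧ ku X A ν σ c' ≠ 0`: `φ = chartAt (E n) (ν c)`, `loc_curve` (`σ φ (χ.symm z) = (z - z₀) ^ (o c) • g z`, `g z₀ ≠ 0`), `x z = φ (ν (χ.symm z))`; `X.N φ (x z) (g z) = 0` for `z ≠ z₀` near `z₀` (`hT`,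
`nu_loc`), so near `z₀` (`N_cont`); `exp_exists`, `kr_loc`, `ku_loc`, transport between `𝓝[≠] c` and `𝓝[≠] z₀` by the chart. (2) `A` is unique: if `Q A c`, `Q A' c`, `A < A'`, take `c'` near `c` with both (`𝓝[≠] c` is not trivial): `kr X A'`: all components `i` with `w i ≠ 0` have `A' ≤ a i`, so `w i = 0` for `a i = A`
and `ku X A = 0` (`K_eq`, `knA_zero_iff`). (3) `Q A c` implies `Q A c'` for `c' ≠ c` near `c` (`eventually_eventually_nhdsWithin`, T1 space), so `O₁ = {c ∈ S : Q A₀ c}` and `O₂ = {c ∈ S : ∃ A ≠ A₀, 1 < A ∧ Q A c}` are open (`S` is open: `hP`), disjoint by (2), and cover `S` by (1). `A₀` from (1) for some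
`c₀ ∈ S` (exists by `hP`). `conn_compl`: `O₂ = ∅`.
-/

set_option autoImplicit false

open Set Filter Topology Metric MeasureTheory
open scoped ContDiff Manifold

namespace Pool.Agent.Nef6.SN

open Pool.Agent.Nef6.SM (loc_curve)

variable {n : ℕ} {Y : Type} [TopologicalSpace Y] [ChartedSpace (E n) Y]
  [IsManifold 𝓘(ℂ, E n) ω Y] (X : SingularMetric n Y)
  {C : Type} [TopologicalSpace C] [ChartedSpace ℂ C] [IsManifold 𝓘(ℂ) ω C]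

private theorem C9c_tr {A B : Type} [TopologicalSpace A] [TopologicalSpace B]
    (e : OpenPartialHomeomorph A B) {a : A} (ha : a ∈ e.source) :
    Tendsto e (𝓝[≠] a) (𝓝[≠] (e a)) := by
  refine tendsto_nhdsWithin_iff.2 ⟨(e.continuousAt ha).tendsto.mono_left nhdsWithin_le_nhds, ?_⟩
  filter_upwards [mem_nhdsWithin_of_mem_nhds (e.open_source.mem_nhds ha),
    self_mem_nhdsWithin] with b hb hb' h
  exact hb' (e.injOn hb ha h)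

private theorem C9c_ev {C : Type} [TopologicalSpace C] [T1Space C] {p : C → Prop} {c : C}
    (h : ∀ᶠ c' in 𝓝[≠] c, p c') :
    ∀ᶠ c' in 𝓝 c, c' ≠ c → ∀ᶠ c'' in 𝓝 c', p c'' := by
  refine (eventually_nhdsWithin_iff (s := {c}ᶜ)).1 ?_
  filter_upwards [eventually_eventually_nhdsWithin.2 h, self_mem_nhdsWithin] with c' h1 h2
  rwa [isOpen_compl_singleton.nhdsWithin_eq h2] at h1

omit [ChartedSpace ℂ C] [IsManifold 𝓘(ℂ) ω C] [TopologicalSpace C] in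
/-- the exponent is unique -/
private theorem C9c_lt {ν : C → Y} {σ : Chart n Y → C → E n} {c : C} (hP : ν c ∉ X.P)
    {A A' : ℝ} (hA : 1 < A) (hAA : A < A') (h1 : kr X A ν σ c) (h2 : ku X A ν σ c ≠ 0)
    (h3 : kr X A' ν σ c) : False := by
  obtain ⟨j, hj⟩ := off_P X hP
  have hφ : chartAt (E n) (ν c) ∈ Charts (E n) Y := IsManifold.chart_mem_maximalAtlas _
  have hs : ν c ∈ (chartAt (E n) (ν c)).source := mem_chart_source _ _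
  have ht := (chartAt (E n) (ν c)).map_source hs
  have hj' : (chartAt (E n) (ν c)).symm (chartAt (E n) (ν c) (ν c)) ∈ (X.ch j).source := by
    rw [(chartAt (E n) (ν c)).left_inv hs]
    exact hj
  unfold kr at h1 h3
  unfold ku at h2
  rw [Ker_iff X hφ ht hj' (hA.trans hAA)] at h3
  rw [K_eq X hφ ht hj' hA h1] at h2
  apply h2
  rw [knA_zero_iff (X.metric j) hA (X.maps j _ ((X.ch j).map_source hj'))]
  intro i hi
  rcases h3 i with h | h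
  · exact h
  · exfalso
    have h4 := h.1
    rw [hi] at h4
    exact absurd hAA (not_lt.2 h4)

/-- the exponent exists -/
private theorem C9c_one {ν : C → Y} (hν : ContMDiff 𝓘(ℂ) 𝓘(ℂ, E n) ω ν)
    {σ : Chart n Y → C → E n} {o : C → ℤ} (hσ : IsMeroField ν σ o)
    (hP : ∀ c, ∀ᶠ c' in 𝓝[≠] c, ν c' ∉ X.P) (hT : ∀ c, ∀ᶠ c' in 𝓝[≠] c, nu X ν σ c' = 0)
    {c : C} (hc : ν c ∉ X.P) :
    ∃ A, 1 < A ∧ ∀ᶠ c' in 𝓝[≠] c, kr X A ν σ c' ∧ ku X A ν σ c' ≠ 0 := by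
  have hφ : chartAt (E n) (ν c) ∈ Charts (E n) Y := IsManifold.chart_mem_maximalAtlas _
  obtain ⟨R, g, hR, hb, hl⟩ := loc_curve hν hσ c hφ (mem_chart_source _ _)
  have hs : (chartAt ℂ c).symm (chartAt ℂ c c) = c :=
    (chartAt ℂ c).left_inv (mem_chart_source ℂ c)
  obtain ⟨h3, h4, h5, h6, -⟩ := hl _ (mem_ball_self hR)
  have htr' : ∀ p : C → Prop, (∀ᶠ c' in 𝓝[≠] c, p c') →
      ∀ᶠ z in 𝓝[≠] (chartAt ℂ c c), p ((chartAt ℂ c).symm z) := by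
    intro p h
    have h2 := C9c_tr (chartAt ℂ c).symm ((chartAt ℂ c).map_source (mem_chart_source ℂ c))
    rw [hs] at h2
    exact h2.eventually h
  have htr : ∀ p : C → Prop, (∀ᶠ z in 𝓝[≠] (chartAt ℂ c c), p ((chartAt ℂ c).symm z)) →
      ∀ᶠ c' in 𝓝[≠] c, p c' := by
    intro p h
    have h1 := (C9c_tr (chartAt ℂ c) (mem_chart_source ℂ c)).eventually h
    filter_upwards [h1, mem_nhdsWithin_of_mem_nhds
      ((chartAt ℂ c).open_source.mem_nhds (mem_chart_source ℂ c))] with c' h2 h9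
    rwa [(chartAt ℂ c).left_inv h9] at h2
  have h8 : ∀ᶠ z in 𝓝[≠] (chartAt ℂ c c), z ∈ ball (chartAt ℂ c c) R ∧ z ≠ chartAt ℂ c c := by
    filter_upwards [mem_nhdsWithin_of_mem_nhds (ball_mem_nhds _ hR), self_mem_nhdsWithin]
      with z h1 h2
    exact ⟨h1, h2⟩
  have hN : ∀ᶠ z in 𝓝[≠] (chartAt ℂ c c), X.N (chartAt (E n) (ν c))
      (chartAt (E n) (ν c) (ν ((chartAt ℂ c).symm z))) (g z) = 0 := by
    filter_upwards [h8, htr' _ (hP c), htr' _ (hT c)] with z hz h1 h2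
    obtain ⟨h3, h4, h5, h6, h7⟩ := hl z hz.1
    rw [nu_loc X hσ hφ h3 h1 (h7 hz.2).1] at h2
    exact (mul_eq_zero.1 h2).resolve_left
      (zpow_ne_zero _ (norm_ne_zero_iff.2 (sub_ne_zero.2 hz.2)))
  have ht := (chartAt (E n) (ν c)).map_source h3
  have hP0 : (chartAt (E n) (ν c)).symm
      (chartAt (E n) (ν c) (ν ((chartAt ℂ c).symm (chartAt ℂ c c)))) ∉ X.P := by
    rw [(chartAt (E n) (ν c)).left_inv h3, hs]
    exact hc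
  have hN0 : X.N (chartAt (E n) (ν c))
      (chartAt (E n) (ν c) (ν ((chartAt ℂ c).symm (chartAt ℂ c c)))) (g (chartAt ℂ c c)) = 0 := by
    have hcont := N_cont X hφ h4 h5 ht hP0
    refine tendsto_nhds_unique (hcont.tendsto.mono_left nhdsWithin_le_nhds :
      Tendsto _ (𝓝[≠] (chartAt ℂ c c)) _) ?_
    exact tendsto_const_nhds.congr' (hN.mono fun z' h => h.symm)
  have hN1 : ∀ᶠ z in 𝓝 (chartAt ℂ c c), X.N (chartAt (E n) (ν c))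
      (chartAt (E n) (ν c) (ν ((chartAt ℂ c).symm z))) (g z) = 0 := by
    filter_upwards [eventually_nhdsWithin_iff.1 hN] with z hz
    by_cases h : z = chartAt ℂ c c
    · rw [h]
      exact hN0
    · exact hz h
  obtain ⟨A, hA, hK1, hK2⟩ := exp_exists X hφ h4 h5 ht hP0 h6 hN1
  refine ⟨A, hA, htr _ ?_⟩
  filter_upwards [h8, htr' _ (hP c), mem_nhdsWithin_of_mem_nhds hK1, hK2] with z hz h1 h2 h7
  obtain ⟨h3, h4, h5, h6, h9⟩ := hl z hz.1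
  have ht0 : z - chartAt ℂ c c ≠ 0 := sub_ne_zero.2 hz.2
  refine ⟨(kr_loc X hσ hA hφ h3 h1 ht0 (h9 hz.2).1).2 h2, ?_⟩
  rw [ku_loc X hσ hA hφ h3 h1 ht0 (h9 hz.2).1 h2]
  exact mul_ne_zero (zpow_ne_zero _ (norm_ne_zero_iff.2 ht0)) h7

theorem exp_alt [ConnectedSpace C] {ν : C → Y} (hν : ContMDiff 𝓘(ℂ) 𝓘(ℂ, E n) ω ν)
    {σ : Chart n Y → C → E n} {o : C → ℤ} (hσ : IsMeroField ν σ o)
    (hP : ∀ c, ∀ᶠ c' in 𝓝[≠] c, ν c' ∉ X.P) (hT : ∀ c, ∀ᶠ c' in 𝓝[≠] c, nu X ν σ c' = 0) :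
    ∃ A, 1 < A ∧ ∀ c, ν c ∉ X.P → ∀ᶠ c' in 𝓝[≠] c, kr X A ν σ c' ∧ ku X A ν σ c' ≠ 0 := by
  have : T1Space C := ChartedSpace.t1Space ℂ C
  have hne : ∀ c : C, (𝓝[≠] c).NeBot := by
    intro c
    have h1 := C9c_tr (chartAt ℂ c).symm ((chartAt ℂ c).map_source (mem_chart_source ℂ c))
    have h2 : (chartAt ℂ c).symm (chartAt ℂ c c) = c :=
      (chartAt ℂ c).left_inv (mem_chart_source ℂ c)
    rw [h2] at h1
    exact h1.neBot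
  obtain ⟨c₁⟩ : Nonempty C := inferInstance
  have := hne c₁
  obtain ⟨c₀, hc₀⟩ := (hP c₁).exists
  obtain ⟨A₀, hA₀, hQ₀⟩ := C9c_one X hν hσ hP hT hc₀
  have huniq : ∀ (c : C) (A A' : ℝ), 1 < A → 1 < A' →
      (∀ᶠ c' in 𝓝[≠] c, kr X A ν σ c' ∧ ku X A ν σ c' ≠ 0) →
      (∀ᶠ c' in 𝓝[≠] c, kr X A' ν σ c' ∧ ku X A' ν σ c' ≠ 0) → A = A' := by
    intro c A A' hA hA' h h'
    have := hne c
    obtain ⟨c', ⟨h1, h2⟩, h3⟩ := ((h.and h').and (hP c)).exists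
    rcases lt_trichotomy A A' with hlt | heq | hgt
    · exact (C9c_lt X h3 hA hlt h1.1 h1.2 h2.1).elim
    · exact heq
    · exact (C9c_lt X h3 hA' hgt h2.1 h2.2 h1.1).elim
  have hopen : ∀ (A : ℝ) (c : C), ν c ∉ X.P →
      (∀ᶠ c' in 𝓝[≠] c, kr X A ν σ c' ∧ ku X A ν σ c' ≠ 0) → ∀ᶠ c' in 𝓝 c, ν c' ∉ X.P ∧
        ∀ᶠ c'' in 𝓝[≠] c', kr X A ν σ c'' ∧ ku X A ν σ c'' ≠ 0 := by
    intro A c hc h
    filter_upwards [C9c_ev h, eventually_nhdsWithin_iff.1 (hP c)] with c' h1 h2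
    by_cases h3 : c' = c
    · rw [h3]
      exact ⟨hc, h⟩
    · exact ⟨h2 h3, mem_nhdsWithin_of_mem_nhds (h1 h3)⟩
  obtain ⟨S, hS⟩ : ∃ S : Set C, ∀ c, c ∈ S ↔ ν c ∉ X.P := ⟨{c | ν c ∉ X.P}, fun _ => Iff.rfl⟩
  obtain ⟨O₁, hO₁⟩ : ∃ O : Set C, ∀ c, c ∈ O ↔ ν c ∉ X.P ∧
      ∀ᶠ c' in 𝓝[≠] c, kr X A₀ ν σ c' ∧ ku X A₀ ν σ c' ≠ 0 :=
    ⟨{c | ν c ∉ X.P ∧ ∀ᶠ c' in 𝓝[≠] c, kr X A₀ ν σ c' ∧ ku X A₀ ν σ c' ≠ 0}, fun _ => Iff.rfl⟩
  obtain ⟨O₂, hO₂⟩ : ∃ O : Set C, ∀ c, c ∈ O ↔ ν c ∉ X.P ∧ ∃ A, A ≠ A₀ ∧ 1 < A ∧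
      ∀ᶠ c' in 𝓝[≠] c, kr X A ν σ c' ∧ ku X A ν σ c' ≠ 0 :=
    ⟨{c | ν c ∉ X.P ∧ ∃ A, A ≠ A₀ ∧ 1 < A ∧
      ∀ᶠ c' in 𝓝[≠] c, kr X A ν σ c' ∧ ku X A ν σ c' ≠ 0}, fun _ => Iff.rfl⟩
  have hcov : S ⊆ O₁ ∪ O₂ := by
    intro c hc
    rw [hS] at hc
    obtain ⟨A, hA, hQ⟩ := C9c_one X hν hσ hP hT hc
    by_cases h : A = A₀
    · rw [h] at hQ
      exact Or.inl ((hO₁ c).2 ⟨hc, hQ⟩)
    · exact Or.inr ((hO₂ c).2 ⟨hc, A, h, hA, hQ⟩)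
  have hemp : O₂ = ∅ := by
    refine conn_compl (S := S) (O₁ := O₁) (O₂ := O₂) ?_ ?_ ?_ ?_ hcov ?_
    · intro c
      filter_upwards [hP c] with c' h
      exact (hS c').2 h
    · rw [isOpen_iff_mem_nhds]
      intro c hc
      obtain ⟨h1, h2⟩ := (hO₁ c).1 hc
      filter_upwards [hopen A₀ c h1 h2] with c' h
      exact (hO₁ c').2 h
    · rw [isOpen_iff_mem_nhds]
      intro c hc
      obtain ⟨h1, A, h2, h3, h4⟩ := (hO₂ c).1 hc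
      filter_upwards [hopen A c h1 h4] with c' h
      exact (hO₂ c').2 ⟨h.1, A, h2, h3, h.2⟩
    · rw [Set.disjoint_left]
      intro c hc hc'
      obtain ⟨h1, h2⟩ := (hO₁ c).1 hc
      obtain ⟨-, A, h3, h4, h5⟩ := (hO₂ c).1 hc'
      exact h3 (huniq c A A₀ h4 hA₀ h5 h2)
    · exact ⟨c₀, (hO₁ c₀).2 ⟨hc₀, hQ₀⟩⟩
  refine ⟨A₀, hA₀, fun c hc => ?_⟩
  rcases hcov ((hS c).2 hc) with h | h
  · exact ((hO₁ c).1 h).2
  · rw [hemp] at h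
    exact absurd h (Set.notMem_empty c)

end Pool.Agent.Nef6.SN
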