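import Pool.Agent.H.MP_6a1d6a_ag.SN.Base

/-!
MP_6a1d6a_ag, singular metrics of nonpositive curvature with normal crossings: definition.
-/

set_option autoImplicit false

open Set Filter Topology Metric
open scoped ContDiff Manifold

namespace Pool.Agent.Nef6.SN

/-- A metric of nonpositive curvature on the complement of a discrete set `P` of the complex manifold `Y`, with cone
singularities of cone angles `≥ 2π` along a divisor of `Y \ P` with normal crossings. It is given by holomorphic charts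
`ch j` which cover `Y \ P`: in the chart `ch j` it is the pull-back of the metric `h j`, which is invariant under rotations of
the coordinates with `a j i ≠ 1`, by `x ↦ (x i ^ (a j i))`, with the cone angles `2π (a j i)` along `x i = 0`. -/
structure SingularMetric (N : ℕ) (Y : Type) [TopologicalSpace Y] [ChartedSpace (E N) Y] where
  /-- the exceptional points -/
  P : Set Y
  discrete : ∀ y, ∃ W, IsOpen W ∧ y ∈ W ∧ W ∩ P ⊆ {y}
  J : Type
  ch : J → Chart N Y
  a : J → Fin N → ℝ
  U : J → Set (E N)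
  h : J → E N → E N → ℝ
  hol : ∀ j, ch j ∈ Charts (E N) Y
  cover : ∀ y, y ∉ P ↔ ∃ j, y ∈ (ch j).source
  metric : ∀ j, IsMetric (h j) (U j)
  maps : ∀ j, ∀ x ∈ (ch j).target, pt (a j) x ∈ U j
  one_le : ∀ j i, 1 ≤ a j i
  rot : ∀ j, RotInv (a j) (h j) (U j)
  /-- the charts define the same metric -/
  compat : ∀ j k, ∀ y ∈ (ch j).source, y ∈ (ch k).source → ∀ v,
    pull (a k) (h k) (ch k y) (fderiv ℂ (ch k ∘ (ch j).symm) (ch j y) v) =
      pull (a j) (h j) (ch j y) v
  /-- near an exceptional point either the cone angles are `≤ 4π`, or the conical metrics are bounded -/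
  exc : ∀ p ∈ P, (∃ W, IsOpen W ∧ p ∈ W ∧ ∀ j, ∀ y ∈ W, y ∈ (ch j).source → ∀ i, ch j y i = 0 → a j i ≤ 2) ∨
    ∃ φ ∈ Charts (E N) Y, p ∈ φ.source ∧ ∃ C : ℝ, 0 ≤ C ∧ ∀ j, ∀ y ∈ φ.source, y ∈ (ch j).source →
      ∀ A : ℝ, 1 < A → ∀ v, KerA (a j) A (ch j y) (fderiv ℂ (ch j ∘ φ.symm) (φ y) v) →
        knA (a j) A (h j) (ch j y) (fderiv ℂ (ch j ∘ φ.symm) (φ y) v) ≤ C * ‖v‖

end Pool.Agent.Nef6.SN
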