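import Pool.Agent.H.MP_6a1d6a_ag.SM.C3
import Pool.Agent.H.MP_6a1d6a_ag.SM.A4
import Pool.Agent.H.MP_6a1d6a_ag.SM.A5
import Pool.Agent.H.MP_6a1d6a_ag.SN.Def
import Pool.Agent.H.MP_6a1d6a_ag.CC.Nef

/-!
MP_6a1d6a_ag/SN, module C4: the curve meets the exceptional set `P` in isolated points, or is constant.

`P_alt`. Let `A = {c : ν is constant near c and ν c ∈ P}` (`∀ᶠ c' in 𝓝 c, ν c' = ν c`). `A` is open. `A` is closed: let `c` be in its closure; take `W` for `ν c` from `discrete`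
and `c' ∈ A` near `c` with `ν c' ∈ W`: `ν c' = ν c`, so `ν = ν c` near `c'`; in the charts `chartAt ℂ c` and `φ = chartAt (E n) (ν c)` the analytic function
`φ ∘ ν ∘ χ.symm` is near `c'` equal to the constant `φ (ν c)`, for `c'` arbitrarily near `c`: by
`AnalyticAt.eventually_eq_or_eventually_ne` (or frequently equal) it is constant near `c` (and `ν` near `c` has values in `φ.source`). So `A` is empty or everything
(`ConnectedSpace`). If `A = univ`, `ν` is locally constant, so constant (`IsLocallyConstant`, preconnected). If `A = ∅`: let `c ∈ C`. If `ν c ∉ P` then near `c` the values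
are not in `P` (`discrete` for `ν c`: `W ∩ P ⊆ {ν c}`, `ν c ∉ P`). If `ν c ∈ P`: near `c`, `ν c' ∈ W`, so `ν c' ∈ P` only if `ν c' = ν c`, and by the identity theorem in
the charts `ν c' ≠ ν c` for `c' ≠ c` near `c`, as `c ∉ A`.

`case_const`: `φ = chartAt (E n) p`, `u c = log ‖σ φ c‖`; `sum_le` with `w z = log ‖g z‖` (`loc_curve`, norm of the equation, `Real.log_mul`, `Real.log_zpow`).
`WForm` from `wform_log` with `f z = ‖g z‖` (continuous, positive, bounded on a smaller ball); `PSub`: for `b` take a continuous linear functional `ℓ` with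
`‖ℓ‖ ≤ 1`, `ℓ (g b) = ‖g b‖` (`exists_dual_vector`) and use `CC.Nef_peak_sub` with `W z = log ‖g z‖`, `H z = ℓ (g z)`.
-/

set_option autoImplicit false

open Set Filter Topology Metric MeasureTheory
open scoped ContDiff Manifold

namespace Pool.Agent.Nef6.SN

open Pool.Agent.Nef6.SM (loc_curve PSub WForm wform_log sum_le)

variable {n : ℕ} {Y : Type} [TopologicalSpace Y] [ChartedSpace (E n) Y]
  [IsManifold 𝓘(ℂ, E n) ω Y] (X : SingularMetric n Y)
  {C : Type} [TopologicalSpace C] [ChartedSpace ℂ C] [IsManifold 𝓘(ℂ) ω C]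

omit [IsManifold 𝓘(ℂ) ω C] in
private theorem C4_chart (c : C) {R : ℝ} (hR : 0 < R) :
    (chartAt ℂ c).source ∩ chartAt ℂ c ⁻¹' ball (chartAt ℂ c c) R ∈ 𝓝 c := by
  refine ((chartAt ℂ c).isOpen_inter_preimage isOpen_ball).mem_nhds ⟨mem_chart_source ℂ c, ?_⟩
  exact mem_ball_self hR

private theorem C4_loc {ν : C → Y} (hν : ContMDiff 𝓘(ℂ) 𝓘(ℂ, E n) ω ν) (c : C) :
    ∃ R : ℝ, 0 < R ∧ ball (chartAt ℂ c c) R ⊆ (chartAt ℂ c).target ∧
      (∀ z ∈ ball (chartAt ℂ c c) R, ν ((chartAt ℂ c).symm z) ∈ (chartAt (E n) (ν c)).source) ∧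
      AnalyticOnNhd ℂ (fun z => chartAt (E n) (ν c) (ν ((chartAt ℂ c).symm z)))
        (ball (chartAt ℂ c c) R) := by
  have hφ : chartAt (E n) (ν c) ∈ Charts (E n) Y :=
    IsManifold.chart_mem_maximalAtlas (I := 𝓘(ℂ, E n)) (n := ω) (ν c)
  have hνφ : ν c ∈ (chartAt (E n) (ν c)).source := mem_chart_source (E n) (ν c)
  set φ := chartAt (E n) (ν c) with hφdef
  have hχ : chartAt ℂ c ∈ Charts ℂ C := IsManifold.chart_mem_maximalAtlas (I := 𝓘(ℂ)) (n := ω) c
  have hct : chartAt ℂ c c ∈ (chartAt ℂ c).target := mem_chart_target ℂ c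
  have hsymm : ContinuousAt (chartAt ℂ c).symm (chartAt ℂ c c) :=
    (chartAt ℂ c).symm.continuousAt hct
  have hsc : (chartAt ℂ c).symm (chartAt ℂ c c) = c :=
    (chartAt ℂ c).left_inv (mem_chart_source ℂ c)
  have hT : ∀ᶠ z in 𝓝 (chartAt ℂ c c), z ∈ (chartAt ℂ c).target :=
    (chartAt ℂ c).open_target.mem_nhds hct
  have hνs : ContinuousAt (fun z => ν ((chartAt ℂ c).symm z)) (chartAt ℂ c c) := by
    refine ContinuousAt.comp' ?_ hsymm
    exact hν.continuous.continuousAt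
  have hS : ∀ᶠ z in 𝓝 (chartAt ℂ c c), ν ((chartAt ℂ c).symm z) ∈ φ.source := by
    refine hνs.eventually_mem ?_
    rw [hsc]
    exact φ.open_source.mem_nhds hνφ
  obtain ⟨R, hR, hball⟩ := Metric.eventually_nhds_iff_ball.1 (hT.and hS)
  have hsub : ball (chartAt ℂ c c) R ⊆ (chartAt ℂ c).target := fun z hz => (hball z hz).1
  have hxm : ContMDiffOn 𝓘(ℂ) 𝓘(ℂ, E n) ω
      (fun z => φ (ν ((chartAt ℂ c).symm z))) (ball (chartAt ℂ c c) R) := by
    have h1 : ContMDiffOn 𝓘(ℂ) 𝓘(ℂ) ω (chartAt ℂ c).symm (ball (chartAt ℂ c c) R) :=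
      (contMDiffOn_symm_of_mem_maximalAtlas hχ).mono hsub
    have h2 : ContMDiffOn 𝓘(ℂ) 𝓘(ℂ, E n) ω
        (fun z => ν ((chartAt ℂ c).symm z)) (ball (chartAt ℂ c c) R) := hν.comp_contMDiffOn h1
    have h3 : ContMDiffOn 𝓘(ℂ, E n) 𝓘(ℂ, E n) ω φ φ.source :=
      contMDiffOn_of_mem_maximalAtlas hφ
    exact h3.comp h2 fun z hz => (hball z hz).2
  have hxd : DifferentiableOn ℂ (fun z => φ (ν ((chartAt ℂ c).symm z)))
      (ball (chartAt ℂ c c) R) :=
    (contMDiffOn_iff_contDiffOn.1 hxm).differentiableOn (by simp)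
  exact ⟨R, hR, hsub, fun z hz => (hball z hz).2, hxd.analyticOnNhd isOpen_ball⟩

private theorem C4_clopen {ν : C → Y} (hν : ContMDiff 𝓘(ℂ) 𝓘(ℂ, E n) ω ν) :
    IsClopen {c : C | ∀ᶠ c' in 𝓝 c, ν c' = ν c} := by
  constructor
  · rw [← closure_subset_iff_isClosed]
    intro c hc
    obtain ⟨R, hR, hsub, hsrc, han⟩ := C4_loc hν c
    obtain ⟨c', ⟨hc's, hc'b⟩, hc'⟩ := mem_closure_iff_nhds.1 hc _ (C4_chart c hR)
    have hc'A : ∀ᶠ c'' in 𝓝 c', ν c'' = ν c' := hc'
    have hz' : chartAt ℂ c c' ∈ ball (chartAt ℂ c c) R := hc'b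
    have hinv : (chartAt ℂ c).symm (chartAt ℂ c c') = c' := (chartAt ℂ c).left_inv hc's
    have hcont : ContinuousAt (chartAt ℂ c).symm (chartAt ℂ c c') :=
      (chartAt ℂ c).symm.continuousAt (hsub hz')
    have hev : (fun z => chartAt (E n) (ν c) (ν ((chartAt ℂ c).symm z))) =ᶠ[𝓝 (chartAt ℂ c c')]
        fun _ => chartAt (E n) (ν c) (ν c') := by
      have h1 : ∀ᶠ z in 𝓝 (chartAt ℂ c c'), ν ((chartAt ℂ c).symm z) = ν c' := by
        have h2 : Tendsto (chartAt ℂ c).symm (𝓝 (chartAt ℂ c c')) (𝓝 c') := by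
          have h3 := hcont.tendsto
          rwa [hinv] at h3
        exact h2.eventually hc'A
      filter_upwards [h1] with z hz
      rw [hz]
    have heq := han.eqOn_of_preconnected_of_eventuallyEq analyticOnNhd_const
      (convex_ball (chartAt ℂ c c) R).isPreconnected hz' hev
    have hall : ∀ z ∈ ball (chartAt ℂ c c) R, ν ((chartAt ℂ c).symm z) = ν c' := by
      intro z hz
      have h1 : chartAt (E n) (ν c) (ν ((chartAt ℂ c).symm z)) =
          chartAt (E n) (ν c) (ν c') := heq hz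
      have h2 := hsrc _ hz'
      rw [hinv] at h2
      exact (chartAt (E n) (ν c)).injOn (hsrc z hz) h2 h1
    have hc0 : ν c = ν c' := by
      have h1 := hall _ (mem_ball_self hR)
      rwa [(chartAt ℂ c).left_inv (mem_chart_source ℂ c)] at h1
    show ∀ᶠ c'' in 𝓝 c, ν c'' = ν c
    filter_upwards [C4_chart c hR] with c'' hc''
    have h1 := hall _ hc''.2
    rw [(chartAt ℂ c).left_inv hc''.1] at h1
    rw [h1, hc0]
  · rw [isOpen_iff_mem_nhds]
    intro c hc
    have hc' : ∀ᶠ c' in 𝓝 c, ν c' = ν c := hc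
    filter_upwards [eventually_eventually_nhds.2 hc', hc'] with c' h1 h2
    show ∀ᶠ c'' in 𝓝 c', ν c'' = ν c'
    rw [h2]
    exact h1

theorem P_alt [ConnectedSpace C] {ν : C → Y} (hν : ContMDiff 𝓘(ℂ) 𝓘(ℂ, E n) ω ν) :
    (∀ c, ∀ᶠ c' in 𝓝[≠] c, ν c' ∉ X.P) ∨ ∃ p, ∀ c, ν c = p := by
  rcases isClopen_iff.1 (C4_clopen hν) with h | h
  · left
    intro c
    obtain ⟨W, hW, hcW, hWP⟩ := X.discrete (ν c)
    obtain ⟨R, hR, hsub, hsrc, han⟩ := C4_loc hν c
    have hcA : ¬ ∀ᶠ c' in 𝓝 c, ν c' = ν c := by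
      intro h1
      have h2 : c ∈ {c : C | ∀ᶠ c' in 𝓝 c, ν c' = ν c} := h1
      rw [h] at h2
      exact h2
    have hinv : (chartAt ℂ c).symm (chartAt ℂ c c) = c :=
      (chartAt ℂ c).left_inv (mem_chart_source ℂ c)
    have hcc : ContinuousAt (chartAt ℂ c) c :=
      (chartAt ℂ c).continuousAt (mem_chart_source ℂ c)
    have hWc : ∀ᶠ c' in 𝓝 c, ν c' ∈ W :=
      hν.continuous.continuousAt.eventually_mem (hW.mem_nhds hcW)
    rcases (han _ (mem_ball_self hR)).eventually_eq_or_eventually_ne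
      (analyticAt_const (v := chartAt (E n) (ν c) (ν c))) with h1 | h1
    · exfalso
      apply hcA
      have h2 := hcc.tendsto.eventually h1
      filter_upwards [h2, C4_chart c hR] with c' h3 h4
      rw [(chartAt ℂ c).left_inv h4.1] at h3
      have h5 := hsrc _ h4.2
      rw [(chartAt ℂ c).left_inv h4.1] at h5
      exact (chartAt (E n) (ν c)).injOn h5 (mem_chart_source (E n) (ν c)) h3
    · have h2 : ∀ᶠ z in 𝓝 (chartAt ℂ c c), z ≠ chartAt ℂ c c →
          chartAt (E n) (ν c) (ν ((chartAt ℂ c).symm z)) ≠ chartAt (E n) (ν c) (ν c) :=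
        eventually_nhdsWithin_iff.1 h1
      have h3 := hcc.tendsto.eventually h2
      rw [eventually_nhdsWithin_iff]
      filter_upwards [h3, C4_chart c hR, hWc] with c' h4 h5 h6 h7 h8
      have h9 : ν c' = ν c := hWP ⟨h6, h8⟩
      refine h4 ?_ ?_
      · intro h10
        exact h7 ((chartAt ℂ c).injOn h5.1 (mem_chart_source ℂ c) h10)
      · rw [(chartAt ℂ c).left_inv h5.1, h9]
  · right
    have hl : IsLocallyConstant ν := by
      rw [IsLocallyConstant.iff_eventually_eq]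
      intro c
      have h2 : c ∈ {c : C | ∀ᶠ c' in 𝓝 c, ν c' = ν c} := by
        rw [h]
        exact mem_univ c
      exact h2
    obtain ⟨c₀⟩ := (inferInstance : Nonempty C)
    exact ⟨ν c₀, fun c => hl.apply_eq_of_preconnectedSpace c c₀⟩

private theorem C4_psub {V : Type} [NormedAddCommGroup V] [NormedSpace ℂ V] {g : ℂ → V}
    {U : Set ℂ} (hU : IsOpen U) (hg : ∀ z ∈ U, AnalyticAt ℂ g z) (hg0 : ∀ z ∈ U, g z ≠ 0) :
    PSub (fun z => ‖g z‖) U := by
  intro z hz _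
  obtain ⟨s, hs, hsU⟩ := Metric.isOpen_iff.1 hU z hz
  have hbU : ball z (2 * (s / 2)) ⊆ U := by
    have e : 2 * (s / 2) = s := by ring
    rw [e]
    exact hsU
  refine ⟨s / 2, by positivity, fun b hb => ⟨hbU hb, norm_ne_zero_iff.2 (hg0 b (hbU hb))⟩, ?_⟩
  intro b hb r hr hrs
  have hb' : dist b z < s / 2 := hb
  have hcl : closedBall b r ⊆ ball z (2 * (s / 2)) := by
    intro y hy
    rw [mem_closedBall] at hy
    rw [mem_ball]
    have := dist_triangle y b z
    linarith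
  have hbz : b ∈ ball z (2 * (s / 2)) := hcl (mem_closedBall_self hr.le)
  obtain ⟨ℓ, hℓ, hℓb⟩ := exists_dual_vector'' ℂ (g b)
  have hgd : DifferentiableOn ℂ g (ball z (2 * (s / 2))) := fun y hy =>
    (hg y (hbU hy)).differentiableAt.differentiableWithinAt
  have hpos : ∀ y ∈ ball z (2 * (s / 2)), 0 < ‖g y‖ := fun y hy =>
    norm_pos_iff.2 (hg0 y (hbU hy))
  refine CC.Nef_peak_sub (W := fun y => Real.log ‖g y‖) (H := fun y => ℓ (g y)) hr hcl ?_ ?_ ?_ ?_
  · exact hgd.continuousOn.norm.log fun y hy => (hpos y hy).ne'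
  · exact ℓ.differentiable.comp_differentiableOn hgd
  · intro y hy
    rw [Real.exp_log (hpos y hy)]
    refine (ℓ.le_opNorm (g y)).trans ?_
    calc ‖ℓ‖ * ‖g y‖ ≤ 1 * ‖g y‖ := mul_le_mul_of_nonneg_right hℓ (norm_nonneg _)
      _ = ‖g y‖ := one_mul _
  · rw [Real.exp_log (hpos b hbz), hℓb]
    simp

theorem case_const [CompactSpace C] [T2Space C] {ν : C → Y}
    (hν : ContMDiff 𝓘(ℂ) 𝓘(ℂ, E n) ω ν) {σ : Chart n Y → C → E n} {o : C → ℤ}
    (hσ : IsMeroField ν σ o) {p : Y} (hp : ∀ c, ν c = p) : ∑ᶠ c, o c ≤ 0 := by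
  have hφ : chartAt (E n) p ∈ Charts (E n) Y :=
    IsManifold.chart_mem_maximalAtlas (I := 𝓘(ℂ, E n)) (n := ω) p
  refine sum_le (u := fun c => Real.log ‖σ (chartAt (E n) p) c‖) ?_
  intro c
  have hc : ν c ∈ (chartAt (E n) p).source := by
    rw [hp]
    exact mem_chart_source (E n) p
  obtain ⟨R, g, hR, hsub, hz⟩ := loc_curve hν hσ c hφ hc
  have hRR : ball (chartAt ℂ c c) (R / 2) ⊆ ball (chartAt ℂ c c) R :=
    ball_subset_ball (by linarith)
  have hcl : closedBall (chartAt ℂ c c) (R / 2) ⊆ ball (chartAt ℂ c c) R :=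
    closedBall_subset_ball (by linarith)
  have hgc : ContinuousOn g (ball (chartAt ℂ c c) R) := fun z hz' =>
    (hz z hz').2.2.1.continuousAt.continuousWithinAt
  obtain ⟨M, hM⟩ := (isCompact_closedBall (chartAt ℂ c c) (R / 2)).exists_bound_of_continuousOn
    (hgc.mono hcl)
  have hpun : ball (chartAt ℂ c c) (R / 2) \ {chartAt ℂ c c} ⊆ ball (chartAt ℂ c c) R :=
    sdiff_subset.trans hRR
  refine ⟨R / 2, by positivity, hRR.trans hsub, fun z hzb hne => ((hz z (hRR hzb)).2.2.2.2 hne).2,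
    fun z => Real.log ‖g z‖, ?_, ?_⟩
  · refine wform_log (f := fun z => ‖g z‖) (M := M) (hgc.mono hpun).norm ?_ ?_ ?_
    · intro z hzb
      exact ⟨norm_nonneg _, hM z (ball_subset_closedBall hzb.1)⟩
    · exact C4_psub (isOpen_ball.sdiff isClosed_singleton) (fun z hzb => (hz z (hpun hzb)).2.2.1)
        fun z hzb => (hz z (hpun hzb)).2.2.2.1
    · intro z hzb
      have hU : IsOpen (ball (chartAt ℂ c c) (R / 2) \ {chartAt ℂ c c}) :=
        isOpen_ball.sdiff isClosed_singleton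
      filter_upwards [mem_nhdsWithin_of_mem_nhds (hU.mem_nhds hzb)] with y hy
      exact norm_ne_zero_iff.2 (hz y (hpun hy)).2.2.2.1
  · have hne : ∀ᵐ z : ℂ, z ≠ chartAt ℂ c c := by
      rw [ae_iff]
      simp
    filter_upwards [hne] with z hz1 hzb
    have h1 := (hz z (hRR hzb)).2.2.2
    have hz0 : ‖z - chartAt ℂ c c‖ ≠ 0 := norm_ne_zero_iff.2 (sub_ne_zero.2 hz1)
    have hg0 : ‖g z‖ ≠ 0 := norm_ne_zero_iff.2 h1.1
    rw [(h1.2 hz1).1, norm_smul, norm_zpow, Real.log_mul (zpow_ne_zero _ hz0) hg0,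
      Real.log_zpow]

end Pool.Agent.Nef6.SN
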