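import Pool.Agent.H.MP_6a1d6a_ag.SN.C2
import Pool.Agent.H.MP_6a1d6a_ag.SM.C3

/-!
MP_6a1d6a_ag/SN, module C5: the length `nu c` of the field `σ` at the point `c` of the curve, and the alternative: its zeros are isolated off
`ν⁻¹ P`, or it vanishes identically.

`nu_eq`: transformation rule of `σ` (first part of `IsMeroField`) and `N_change`. `nu_loc`: `nu_eq`, `loc_curve`, `N_smul`, `norm_zpow`.
`T_alt`. For `c` with `ν c ∉ P`: by `loc_curve` and `N_dich` (with `φ = chartAt (E n) (ν c)`, `x z = φ (ν (χ.symm z))`, `v = g`) and `nu_loc`, either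
`nu = 0` on a punctured neighbourhood of `c` or `nu ≠ 0` on a punctured neighbourhood (transport between `𝓝[≠] c` and `𝓝[≠] (χ c)` by the chart).
Let `T = {c : ∀ᶠ c' in 𝓝[≠] c, nu c' = 0}`. `T` is open (`eventually_eventually_nhdsWithin`...). Its complement is open: let `c ∉ T`. If `ν c ∉ P`, then `nu ≠ 0` on a punctured
neighbourhood `Q` of `c`, and no point of `Q` is in `T` (the point `c'` has no punctured neighbourhood where `nu = 0`, as `𝓝[≠] c'` is nontrivial). If `ν c ∈ P`: take `R`, `g` from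
`loc_curve`, `R` so small that `ν (χ.symm z) ∉ P` for `z ≠ z₀` in the ball (`hP`). The punctured ball is preconnected (it is the image of the convex set
`{w : Re w < log R}` under `w ↦ z₀ + exp w`). The sets `T` and its complement, pulled back to the punctured ball by `χ.symm`, are both open there (by the first
case). So if some point of the punctured ball is in `T`, all are; then for each `z'` of the punctured ball the continuous function
`z ↦ N φ (x z) (g z)` (`N_cont`) vanishes on a punctured neighbourhood of `z'`, so at `z'`, so `nu = 0` at `χ.symm z'` (`nu_loc`); thus `c ∈ T`, a contradiction. So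
`T = ∅` or `T = univ`. If `T = ∅` the first alternative holds by the dichotomy above.
-/

set_option autoImplicit false

open Set Filter Topology Metric
open scoped ContDiff Manifold

namespace Pool.Agent.Nef6.SN

open Pool.Agent.Nef6.SM (loc_curve)

variable {n : ℕ} {Y : Type} [TopologicalSpace Y] [ChartedSpace (E n) Y]

/-- the length of `σ` at `c` -/
noncomputable def nu (X : SingularMetric n Y) {C : Type} (ν : C → Y) (σ : Chart n Y → C → E n)
    (c : C) : ℝ :=
  X.N (chartAt (E n) (ν c)) (chartAt (E n) (ν c) (ν c)) (σ (chartAt (E n) (ν c)) c)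

variable [IsManifold 𝓘(ℂ, E n) ω Y] (X : SingularMetric n Y)
  {C : Type} [TopologicalSpace C] [ChartedSpace ℂ C] [IsManifold 𝓘(ℂ) ω C]

omit [IsManifold 𝓘(ℂ) ω C] in
theorem nu_eq {ν : C → Y} {σ : Chart n Y → C → E n} {o : C → ℤ} (hσ : IsMeroField ν σ o)
    {φ : Chart n Y} (hφ : φ ∈ Charts (E n) Y) {c : C} (hc : ν c ∈ φ.source) (hP : ν c ∉ X.P) :
    nu X ν σ c = X.N φ (φ (ν c)) (σ φ c) := by
  have hψ : chartAt (E n) (ν c) ∈ Charts (E n) Y := IsManifold.chart_mem_maximalAtlas _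
  rw [nu, hσ.1 φ hφ _ hψ c hc (mem_chart_source _ _)]
  exact N_change X hφ hψ hc (mem_chart_source _ _) hP _

omit [IsManifold 𝓘(ℂ) ω C] in
/-- the length of `σ` at a point where `σ φ = t • v` -/
theorem nu_loc {ν : C → Y} {σ : Chart n Y → C → E n} {o : C → ℤ} (hσ : IsMeroField ν σ o)
    {φ : Chart n Y} (hφ : φ ∈ Charts (E n) Y) {c : C} (hc : ν c ∈ φ.source) (hP : ν c ∉ X.P)
    {t : ℂ} {k : ℤ} {v : E n} (h : σ φ c = t ^ k • v) :
    nu X ν σ c = ‖t‖ ^ k * X.N φ (φ (ν c)) v := by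
  rw [nu_eq X hσ hφ hc hP, h, N_smul X hφ (φ.map_source hc) (by rw [φ.left_inv hc]; exact hP),
    norm_zpow]

private theorem C5_tr {A B : Type} [TopologicalSpace A] [TopologicalSpace B]
    (e : OpenPartialHomeomorph A B) {a : A} (ha : a ∈ e.source) :
    Tendsto e (𝓝[≠] a) (𝓝[≠] (e a)) := by
  refine tendsto_nhdsWithin_iff.2 ⟨(e.continuousAt ha).tendsto.mono_left nhdsWithin_le_nhds, ?_⟩
  filter_upwards [mem_nhdsWithin_of_mem_nhds (e.open_source.mem_nhds ha),
    self_mem_nhdsWithin] with b hb hb' h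
  exact hb' (e.injOn hb ha h)

private theorem C5_punct (z₀ : ℂ) {R : ℝ} (hR : 0 < R) : IsPreconnected (ball z₀ R \ {z₀}) := by
  have h1 : ball z₀ R \ {z₀} = (fun w => z₀ + Complex.exp w) '' {w : ℂ | w.re < Real.log R} := by
    ext z
    constructor
    · rintro ⟨hz, hz0⟩
      have hz1 : z - z₀ ≠ 0 := sub_ne_zero.2 hz0
      refine ⟨Complex.log (z - z₀), ?_, ?_⟩
      · show (Complex.log (z - z₀)).re < Real.log R
        rw [Complex.log_re]
        exact Real.log_lt_log (norm_pos_iff.2 hz1) (by rwa [mem_ball, dist_eq_norm] at hz)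
      · show z₀ + Complex.exp (Complex.log (z - z₀)) = z
        rw [Complex.exp_log hz1]
        ring
    · rintro ⟨w, hw, rfl⟩
      have hw' : w.re < Real.log R := hw
      refine ⟨?_, ?_⟩
      · rw [mem_ball, dist_eq_norm]
        have h2 : z₀ + Complex.exp w - z₀ = Complex.exp w := by ring
        rw [h2, Complex.norm_exp]
        exact (Real.lt_log_iff_exp_lt hR).1 hw'
      · intro h
        have h2 : z₀ + Complex.exp w = z₀ := h
        exact Complex.exp_ne_zero w (by simpa using h2)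
  rw [h1]
  exact (convex_halfSpace_re_lt (Real.log R)).isPreconnected.image _
    (continuous_const.add Complex.continuous_exp).continuousOn

private theorem C5_ev [T1Space C] {p : C → Prop} {c : C} (h : ∀ᶠ c' in 𝓝[≠] c, p c') :
    ∀ᶠ c' in 𝓝 c, c' ≠ c → ∀ᶠ c'' in 𝓝 c', p c'' := by
  refine (eventually_nhdsWithin_iff (s := {c}ᶜ)).1 ?_
  filter_upwards [eventually_eventually_nhdsWithin.2 h, self_mem_nhdsWithin] with c' h1 h2
  rwa [isOpen_compl_singleton.nhdsWithin_eq h2] at h1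

theorem T_alt [ConnectedSpace C] {ν : C → Y} (hν : ContMDiff 𝓘(ℂ) 𝓘(ℂ, E n) ω ν)
    {σ : Chart n Y → C → E n} {o : C → ℤ} (hσ : IsMeroField ν σ o)
    (hP : ∀ c, ∀ᶠ c' in 𝓝[≠] c, ν c' ∉ X.P) :
    (∀ c, ν c ∉ X.P → ∀ᶠ c' in 𝓝[≠] c, nu X ν σ c' ≠ 0) ∨
      ∀ c, ∀ᶠ c' in 𝓝[≠] c, nu X ν σ c' = 0 := by
  haveI : T1Space C := ChartedSpace.t1Space ℂ C
  haveI hne : ∀ c : C, (𝓝[≠] c).NeBot := by
    intro c
    have h1 := C5_tr (chartAt ℂ c).symm ((chartAt ℂ c).map_source (mem_chart_source ℂ c))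
    have h2 : (chartAt ℂ c).symm (chartAt ℂ c c) = c := (chartAt ℂ c).left_inv (mem_chart_source ℂ c)
    rw [h2] at h1
    exact h1.neBot
  -- the function `N` and `nu` in a chart
  have key : ∀ c : C, ∃ (R : ℝ) (g : ℂ → E n), 0 < R ∧
      ball (chartAt ℂ c c) R ⊆ (chartAt ℂ c).target ∧
      ∀ z ∈ ball (chartAt ℂ c c) R,
        ν ((chartAt ℂ c).symm z) ∈ (chartAt (E n) (ν c)).source ∧
        AnalyticAt ℂ (fun z => chartAt (E n) (ν c) (ν ((chartAt ℂ c).symm z))) z ∧
        AnalyticAt ℂ g z ∧ g z ≠ 0 ∧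
        (z ≠ chartAt ℂ c c → ν ((chartAt ℂ c).symm z) ∉ X.P ∧
          (nu X ν σ ((chartAt ℂ c).symm z) = 0 ↔ X.N (chartAt (E n) (ν c))
            (chartAt (E n) (ν c) (ν ((chartAt ℂ c).symm z))) (g z) = 0)) := by
    intro c
    have hφ : chartAt (E n) (ν c) ∈ Charts (E n) Y := IsManifold.chart_mem_maximalAtlas _
    obtain ⟨R, g, hR, hb, hl⟩ := loc_curve hν hσ c hφ (mem_chart_source _ _)
    have h1 : ∀ᶠ z in 𝓝[≠] (chartAt ℂ c c), ν ((chartAt ℂ c).symm z) ∉ X.P := by
      have h2 := C5_tr (chartAt ℂ c).symm ((chartAt ℂ c).map_source (mem_chart_source ℂ c))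
      have h3 : (chartAt ℂ c).symm (chartAt ℂ c c) = c :=
        (chartAt ℂ c).left_inv (mem_chart_source ℂ c)
      rw [h3] at h2
      exact h2.eventually (hP c)
    rw [eventually_nhdsWithin_iff, Metric.eventually_nhds_iff_ball] at h1
    obtain ⟨R', hR', h2⟩ := h1
    refine ⟨min R R', g, lt_min hR hR', (ball_subset_ball (min_le_left _ _)).trans hb,
      fun z hz => ?_⟩
    obtain ⟨h3, h4, h5, h6, h7⟩ := hl z (ball_subset_ball (min_le_left _ _) hz)
    refine ⟨h3, h4, h5, h6, fun hz0 => ?_⟩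
    have h8 := h2 z (ball_subset_ball (min_le_right _ _) hz) hz0
    refine ⟨h8, ?_⟩
    rw [nu_loc X hσ hφ h3 h8 (h7 hz0).1]
    have h9 : ‖z - chartAt ℂ c c‖ ^ o c ≠ 0 := zpow_ne_zero _ (norm_ne_zero_iff.2 (sub_ne_zero.2 hz0))
    constructor
    · intro h
      exact (mul_eq_zero.1 h).resolve_left h9
    · intro h
      rw [h, mul_zero]
  have dich : ∀ c, ν c ∉ X.P → (∀ᶠ c' in 𝓝[≠] c, nu X ν σ c' = 0) ∨
      ∀ᶠ c' in 𝓝[≠] c, nu X ν σ c' ≠ 0 := by
    intro c hc
    obtain ⟨R, g, hR, hb, hl⟩ := key c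
    obtain ⟨h3, h4, h5, h6, -⟩ := hl _ (mem_ball_self hR)
    have hφ : chartAt (E n) (ν c) ∈ Charts (E n) Y := IsManifold.chart_mem_maximalAtlas _
    have hs : (chartAt ℂ c).symm (chartAt ℂ c c) = c :=
      (chartAt ℂ c).left_inv (mem_chart_source ℂ c)
    have h7 := N_dich X hφ h4 h5 ((chartAt (E n) (ν c)).map_source h3)
      (by rw [(chartAt (E n) (ν c)).left_inv h3, hs]; exact hc)
    have h8 : ∀ᶠ z in 𝓝[≠] (chartAt ℂ c c), z ∈ ball (chartAt ℂ c c) R ∧ z ≠ chartAt ℂ c c := by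
      filter_upwards [mem_nhdsWithin_of_mem_nhds (ball_mem_nhds _ hR), self_mem_nhdsWithin]
        with z h1 h2
      exact ⟨h1, h2⟩
    have htr : ∀ p : C → Prop, (∀ᶠ z in 𝓝[≠] (chartAt ℂ c c), p ((chartAt ℂ c).symm z)) →
        ∀ᶠ c' in 𝓝[≠] c, p c' := by
      intro p h
      have h1 := (C5_tr (chartAt ℂ c) (mem_chart_source ℂ c)).eventually h
      filter_upwards [h1, mem_nhdsWithin_of_mem_nhds
        ((chartAt ℂ c).open_source.mem_nhds (mem_chart_source ℂ c))] with c' h2 h9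
      rwa [(chartAt ℂ c).left_inv h9] at h2
    rcases h7 with h7 | h7
    · left
      refine htr _ ?_
      filter_upwards [h8, mem_nhdsWithin_of_mem_nhds h7] with z hz hz'
      exact ((hl z hz.1).2.2.2.2 hz.2).2.2 hz'
    · right
      refine htr _ ?_
      filter_upwards [h8, h7] with z hz hz'
      exact fun h => hz' (((hl z hz.1).2.2.2.2 hz.2).2.1 h)
  obtain ⟨T, hT⟩ : ∃ T : Set C, T = {c | ∀ᶠ c' in 𝓝[≠] c, nu X ν σ c' = 0} := ⟨_, rfl⟩
  have hTm : ∀ c, c ∈ T ↔ ∀ᶠ c' in 𝓝[≠] c, nu X ν σ c' = 0 := by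
    intro c
    rw [hT]
    rfl
  have hTo : ∀ c ∈ T, ∀ᶠ c' in 𝓝 c, c' ∈ T := by
    intro c hc
    filter_upwards [C5_ev ((hTm c).1 hc)] with c' h1
    by_cases h2 : c' = c
    · rw [h2]
      exact hc
    · exact (hTm c').2 (mem_nhdsWithin_of_mem_nhds (h1 h2))
  have hTc1 : ∀ c, ν c ∉ X.P → c ∉ T → ∀ᶠ c' in 𝓝 c, c' ∉ T := by
    intro c hc hcT
    have h0 : ∀ᶠ c' in 𝓝[≠] c, nu X ν σ c' ≠ 0 :=
      (dich c hc).resolve_left fun h => hcT ((hTm c).2 h)
    filter_upwards [C5_ev h0] with c' h1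
    by_cases h2 : c' = c
    · rw [h2]
      exact hcT
    · intro h3
      haveI := hne c'
      obtain ⟨x, hx1, hx2⟩ := (((hTm c').1 h3).and
        (mem_nhdsWithin_of_mem_nhds (h1 h2) : ∀ᶠ x in 𝓝[≠] c', nu X ν σ x ≠ 0)).exists
      exact hx2 hx1
  have hTc : ∀ c, c ∉ T → ∀ᶠ c' in 𝓝 c, c' ∉ T := by
    intro c hcT
    by_cases hc : ν c ∈ X.P
    swap
    · exact hTc1 c hc hcT
    obtain ⟨R, g, hR, hb, hl⟩ := key c
    have hφ : chartAt (E n) (ν c) ∈ Charts (E n) Y := IsManifold.chart_mem_maximalAtlas _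
    have hs : (chartAt ℂ c).symm (chartAt ℂ c c) = c :=
      (chartAt ℂ c).left_inv (mem_chart_source ℂ c)
    -- local constancy in the punctured ball
    have hlc : ∀ z ∈ ball (chartAt ℂ c c) R \ {chartAt ℂ c c},
        (∀ᶠ z' in 𝓝 z, (chartAt ℂ c).symm z' ∈ T) ∨ ∀ᶠ z' in 𝓝 z, (chartAt ℂ c).symm z' ∉ T := by
      rintro z ⟨hz, hz0⟩
      have h1 : ContinuousAt (chartAt ℂ c).symm z := (chartAt ℂ c).symm.continuousAt (hb hz)
      by_cases h2 : (chartAt ℂ c).symm z ∈ T
      · exact Or.inl (h1.eventually (hTo _ h2))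
      · exact Or.inr (h1.eventually (hTc1 _ ((hl z hz).2.2.2.2 hz0).1 h2))
    have hall : ∀ z ∈ ball (chartAt ℂ c c) R \ {chartAt ℂ c c}, (chartAt ℂ c).symm z ∉ T := by
      by_contra hcon
      push Not at hcon
      obtain ⟨z₁, hz₁, hz₁T⟩ := hcon
      have hin : ∀ z ∈ ball (chartAt ℂ c c) R \ {chartAt ℂ c c}, (chartAt ℂ c).symm z ∈ T := by
        by_contra hcon
        push Not at hcon
        obtain ⟨z₂, hz₂, hz₂T⟩ := hcon
        obtain ⟨z, -, hz1, hz2⟩ := C5_punct (chartAt ℂ c c) hR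
          (interior {z | (chartAt ℂ c).symm z ∈ T}) (interior {z | (chartAt ℂ c).symm z ∉ T})
          isOpen_interior isOpen_interior
          (fun z hz => (hlc z hz).imp (fun h => mem_interior_iff_mem_nhds.2 h)
            fun h => mem_interior_iff_mem_nhds.2 h)
          ⟨z₁, hz₁, (hlc z₁ hz₁).elim (fun h => mem_interior_iff_mem_nhds.2 h)
            fun h => absurd hz₁T h.self_of_nhds⟩
          ⟨z₂, hz₂, (hlc z₂ hz₂).elim (fun h => absurd h.self_of_nhds hz₂T)
            fun h => mem_interior_iff_mem_nhds.2 h⟩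
        have hz3 : z ∈ {z | (chartAt ℂ c).symm z ∈ T} := interior_subset hz1
        have hz4 : z ∈ {z | (chartAt ℂ c).symm z ∉ T} := interior_subset hz2
        exact hz4 hz3
      -- the length is zero in the punctured ball
      have hz0 : ∀ z ∈ ball (chartAt ℂ c c) R \ {chartAt ℂ c c},
          nu X ν σ ((chartAt ℂ c).symm z) = 0 := by
        rintro z ⟨hz, hz0⟩
        obtain ⟨h3, h4, h5, h6, h7⟩ := hl z hz
        obtain ⟨h8, h9⟩ := h7 hz0
        have hcont := N_cont X hφ h4 h5 ((chartAt (E n) (ν c)).map_source h3)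
          (by rw [(chartAt (E n) (ν c)).left_inv h3]; exact h8)
        have hopen : IsOpen (ball (chartAt ℂ c c) R \ {chartAt ℂ c c}) :=
          isOpen_ball.sdiff isClosed_singleton
        have h10 : ∀ᶠ z' in 𝓝[≠] z, X.N (chartAt (E n) (ν c))
            (chartAt (E n) (ν c) (ν ((chartAt ℂ c).symm z'))) (g z') = 0 := by
          have h11 := (C5_tr (chartAt ℂ c).symm (hb hz)).eventually
            ((hTm _).1 (hin z ⟨hz, hz0⟩))
          filter_upwards [h11, mem_nhdsWithin_of_mem_nhds (hopen.mem_nhds ⟨hz, hz0⟩)] with z' h12 h13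
          exact (((hl z' h13.1).2.2.2.2 h13.2).2.1) h12
        have h11 : X.N (chartAt (E n) (ν c))
            (chartAt (E n) (ν c) (ν ((chartAt ℂ c).symm z))) (g z) = 0 := by
          refine tendsto_nhds_unique (hcont.tendsto.mono_left nhdsWithin_le_nhds :
            Tendsto _ (𝓝[≠] z) _) ?_
          exact tendsto_const_nhds.congr' (h10.mono fun z' h => h.symm)
        exact h9.2 h11
      refine hcT ((hTm c).2 ?_)
      have h1 := (C5_tr (chartAt ℂ c) (mem_chart_source ℂ c)).eventually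
        (show ∀ᶠ z in 𝓝[≠] (chartAt ℂ c c), nu X ν σ ((chartAt ℂ c).symm z) = 0 by
          filter_upwards [mem_nhdsWithin_of_mem_nhds (ball_mem_nhds _ hR), self_mem_nhdsWithin]
            with z h1 h2
          exact hz0 z ⟨h1, h2⟩)
      filter_upwards [h1, mem_nhdsWithin_of_mem_nhds
        ((chartAt ℂ c).open_source.mem_nhds (mem_chart_source ℂ c))] with c' h2 h9
      rwa [(chartAt ℂ c).left_inv h9] at h2
    have h1 : ∀ᶠ c' in 𝓝 c, chartAt ℂ c c' ∈ ball (chartAt ℂ c c) R :=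
      ((chartAt ℂ c).continuousAt (mem_chart_source ℂ c)).eventually (ball_mem_nhds _ hR)
    filter_upwards [h1, (chartAt ℂ c).open_source.mem_nhds (mem_chart_source ℂ c)] with c' h2 h3
    by_cases h4 : c' = c
    · rw [h4]
      exact hcT
    · have h5 := hall (chartAt ℂ c c') ⟨h2, fun h => h4
        ((chartAt ℂ c).injOn h3 (mem_chart_source ℂ c) h)⟩
      rwa [(chartAt ℂ c).left_inv h3] at h5
  have hclopen : IsClopen T :=
    ⟨isOpen_compl_iff.1 (isOpen_iff_mem_nhds.2 fun c hc => hTc c hc),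
      isOpen_iff_mem_nhds.2 fun c hc => hTo c hc⟩
  rcases isClopen_iff.1 hclopen with h | h
  · left
    intro c hc
    refine (dich c hc).resolve_left fun h1 => ?_
    have h2 := (hTm c).2 h1
    rw [h] at h2
    exact h2
  · right
    intro c
    refine (hTm c).1 ?_
    rw [h]
    exact mem_univ c

end Pool.Agent.Nef6.SN
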