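import Pool.Agent.H.MP_6a1d6a_ag.SN.C2
import Pool.Agent.H.MP_6a1d6a_ag.SM.D0

/-!
MP_6a1d6a_ag/SN, module D1: in dimension `≥ 2` the metric is automatically bounded near the exceptional points (Hartogs).

Let `p ∈ P`, `ψ = chartAt (E n) p`, `x₀ = ψ p`. Choose `r > 0` with `closedBall x₀ (3 r) ⊆ ψ.target`, `ψ.symm x ∉ P` for `x ≠ x₀` in this ball (`discrete`), and `ψ.symm` of this ball is in the
set `W₂`. The function `(x, v) ↦ X.N ψ x v` is continuous at all points with `x ∈ ψ.target`, `ψ.symm x ∉ P` (`N_eq` with a fixed `j`, `pull_cont`, continuity of the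
derivative of `ch j ∘ ψ.symm`: `CC.tr_smooth`; see `N_cont` for the idea), so on the compact set `{r ≤ ‖x - x₀‖ ≤ 3 r} × {‖v‖ = 1}` (finite dimension) it is `≤ M`, `0 ≤ M`.
Let `0 < ‖x - x₀‖ < r`, `‖v‖ = 1`. As `E n` has complex dimension `n + 1 ≥ 2`, there is `w` with `‖w‖ = 1` which is not in `ℂ (x - x₀)`, so `x + ζ w ≠ x₀` for all `ζ`.
`f ζ = X.N ψ (x + ζ w) v` on `closedBall 0 (2 r)`: `x + ζ w ∈ closedBall x₀ (3 r)`, `f` continuous (`N_cont`), `f ≥ 0`, `PSub` (`N_sub` and continuity), and for `‖ζ‖ = 2 r`: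
`r ≤ ‖x + ζ w - x₀‖ ≤ 3 r`, `f ζ ≤ M`. By `max_le`, `X.N ψ x v = f 0 ≤ M`. So `X.N ψ x v ≤ M ‖v‖` for all `x ≠ x₀` in `closedBall x₀ (3 r)` and all `v` (`N_smul`).
Take `φ = ψ.restr O`, `O` the open set `ψ.source ∩ ψ ⁻¹' ball x₀ (3 r)` (`restr_mem_maximalAtlas`, see the use in `KC/Main.lean`); for `y ∈ φ.source` with `y ∈ (ch j).source` (so `y ∉ P`, `y ≠ p`):
`φ y = ψ y`, `ch j ∘ φ.symm = ch j ∘ ψ.symm` and `N_eq`.
-/

set_option autoImplicit false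

open Set Filter Topology Metric
open scoped ContDiff Manifold

namespace Pool.Agent.Nef6.SN

open Pool.Agent.Nef6.SM (PSub max_le)

variable {n : ℕ} {Y : Type} [TopologicalSpace Y] [ChartedSpace (E n) Y]
  [IsManifold 𝓘(ℂ, E n) ω Y] (X : SingularMetric n Y)

private theorem D1_cont {ψ : Chart n Y} (hψ : ψ ∈ Charts (E n) Y) {x v : E n}
    (hx : x ∈ ψ.target) (hP : ψ.symm x ∉ X.P) :
    ContinuousAt (fun q : E n × E n => X.N ψ q.1 q.2) (x, v) := by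
  obtain ⟨j, hj⟩ := off_P X hP
  have h0 : ContDiffAt ℂ ω (X.ch j ∘ ψ.symm) (ψ (ψ.symm x)) :=
    CC.tr_smooth hψ (X.hol j) (ψ.map_target hx) hj
  rw [ψ.right_inv hx] at h0
  have h1 : AnalyticAt ℂ (X.ch j ∘ ψ.symm) x := h0.analyticAt
  have hU : pt (X.a j) (X.ch j (ψ.symm x)) ∈ X.U j := X.maps j _ ((X.ch j).map_source hj)
  have h2 : ContinuousAt (fun q : E n × E n => pull (X.a j) (X.h j) q.1 q.2)
      (X.ch j (ψ.symm x), fderiv ℂ (X.ch j ∘ ψ.symm) x v) := by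
    refine (pull_cont (X.metric j) (a_ge X j)).continuousAt ?_
    refine IsOpen.mem_nhds ((pull_open (X.metric j) (a_ge X j)).prod isOpen_univ) ?_
    exact ⟨hU, mem_univ _⟩
  have h3 : ContinuousAt (fun q : E n × E n => (X.ch j (ψ.symm q.1),
      fderiv ℂ (X.ch j ∘ ψ.symm) q.1 q.2)) (x, v) := by
    refine ContinuousAt.prodMk ?_ ?_
    · exact ContinuousAt.comp (f := fun q : E n × E n => q.1) (g := X.ch j ∘ ψ.symm)
        (x := (x, v)) h1.continuousAt continuousAt_fst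
    · refine ContinuousAt.clm_apply ?_ continuousAt_snd
      exact ContinuousAt.comp (f := fun q : E n × E n => q.1)
        (g := fun y => fderiv ℂ (X.ch j ∘ ψ.symm) y)
        (x := (x, v)) h1.fderiv.continuousAt continuousAt_fst
  have h4 : ContinuousAt (fun q : E n × E n => pull (X.a j) (X.h j) (X.ch j (ψ.symm q.1))
      (fderiv ℂ (X.ch j ∘ ψ.symm) q.1 q.2)) (x, v) :=
    ContinuousAt.comp (f := fun q : E n × E n => (X.ch j (ψ.symm q.1),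
      fderiv ℂ (X.ch j ∘ ψ.symm) q.1 q.2)) (x := (x, v)) h2 h3
  refine h4.congr ?_
  have h5 : ∀ᶠ y in 𝓝 x, y ∈ ψ.target ∧ ψ.symm y ∈ (X.ch j).source := by
    have h6 : ∀ᶠ y in 𝓝 x, ψ.symm y ∈ (X.ch j).source :=
      (ψ.continuousAt_symm hx).eventually ((X.ch j).open_source.mem_nhds hj)
    filter_upwards [ψ.open_target.mem_nhds hx, h6] with y h7 h8
    exact ⟨h7, h8⟩
  have h6 : ∀ᶠ q : E n × E n in 𝓝 (x, v), q.1 ∈ ψ.target ∧ ψ.symm q.1 ∈ (X.ch j).source :=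
    (continuousAt_fst (p := (x, v))).eventually h5
  filter_upwards [h6] with q hq
  exact (N_eq X hψ hq.1 hq.2 q.2).symm

private theorem D1_dir (hn : 1 < n) {u : E n} (hu : u ≠ 0) :
    ∃ w : E n, ‖w‖ = 1 ∧ ∀ ζ : ℂ, u + ζ • w ≠ 0 := by
  obtain ⟨i, hi⟩ : ∃ i, u i ≠ 0 := by
    by_contra h
    push Not at h
    exact hu (by ext i; exact h i)
  obtain ⟨k, hk⟩ : ∃ k : Fin n, k ≠ i := by
    haveI : Nontrivial (Fin n) := Fin.nontrivial_iff_two_le.2 hn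
    exact exists_ne i
  refine ⟨EuclideanSpace.single k 1, by simp, fun ζ h => hi ?_⟩
  have h2 := congrArg (fun y : E n => y i) h
  simpa [hk.symm] using h2

private theorem D1_disc {ψ : Chart n Y} (hψ : ψ ∈ Charts (E n) Y) {x₀ x w v : E n} {r M : ℝ}
    (hr : 0 < r) (hw : ‖w‖ = 1) (hxr : ‖x - x₀‖ < r)
    (hne : ∀ ζ : ℂ, x - x₀ + ζ • w ≠ 0)
    (hb : ∀ y ∈ closedBall x₀ (3 * r), y ∈ ψ.target ∧ (y ≠ x₀ → ψ.symm y ∉ X.P))
    (hM : ∀ y ∈ closedBall x₀ (3 * r), r ≤ ‖y - x₀‖ → X.N ψ y v ≤ M) : X.N ψ x v ≤ M := by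
  have hmem : ∀ ζ ∈ closedBall (0 : ℂ) (2 * r), x + ζ • w ∈ closedBall x₀ (3 * r) := by
    intro ζ hζ
    rw [mem_closedBall, dist_zero_right] at hζ
    rw [mem_closedBall, dist_eq_norm]
    have h1 : x + ζ • w - x₀ = (x - x₀) + ζ • w := by abel
    rw [h1]
    have h2 := norm_add_le (x - x₀) (ζ • w)
    rw [norm_smul, hw, mul_one] at h2
    linarith
  have hne' : ∀ ζ : ℂ, x + ζ • w ≠ x₀ := by
    intro ζ h
    refine hne ζ ?_
    rw [← h]
    abel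
  have hxa : ∀ z₀ : ℂ, AnalyticAt ℂ (fun ζ : ℂ => x + ζ • w) z₀ := fun z₀ =>
    analyticAt_const.add (analyticAt_id.smul analyticAt_const)
  have hva : ∀ z₀ : ℂ, AnalyticAt ℂ (fun _ : ℂ => v) z₀ := fun z₀ => analyticAt_const
  have hcont : ∀ ζ ∈ closedBall (0 : ℂ) (2 * r),
      ContinuousAt (fun ζ : ℂ => X.N ψ (x + ζ • w) v) ζ := by
    intro ζ hζ
    obtain ⟨h1, h2⟩ := hb _ (hmem ζ hζ)
    exact N_cont X hψ (x := fun ζ : ℂ => x + ζ • w) (v := fun _ => v) (hxa ζ) (hva ζ) h1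
      (h2 (hne' ζ))
  have key : (fun ζ : ℂ => X.N ψ (x + ζ • w) v) 0 ≤ M := by
    refine max_le (r := 2 * r) (by linarith) (fun ζ hζ => (hcont ζ hζ).continuousWithinAt) ?_ ?_ ?_
    · intro ζ hζ
      exact N_nonneg X hψ (hb _ (hmem ζ hζ)).1 v
    · intro z hz hfz
      have hz' : z ∈ closedBall (0 : ℂ) (2 * r) := ball_subset_closedBall hz
      obtain ⟨h1, h2⟩ := hb _ (hmem z hz')
      obtain ⟨ρ, hρ, hsub⟩ := N_sub X hψ (x := fun ζ : ℂ => x + ζ • w) (v := fun _ => v)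
        (hxa z) (hva z) h1 (h2 (hne' z)) hfz
      have h3 : ∀ᶠ b in 𝓝 z, b ∈ ball (0 : ℂ) (2 * r) ∧ X.N ψ (x + b • w) v ≠ 0 := by
        filter_upwards [isOpen_ball.mem_nhds hz, (hcont z hz').eventually_ne hfz] with b h4 h5
        exact ⟨h4, h5⟩
      obtain ⟨ε, hε, hball⟩ := Metric.eventually_nhds_iff_ball.1 h3
      refine ⟨min ρ (ε / 2), lt_min hρ (half_pos hε), fun b hb1 => ?_, fun b hb1 s hs hs2 => ?_⟩
      · refine hball b (ball_subset_ball ?_ hb1)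
        have := min_le_right ρ (ε / 2)
        linarith
      · exact hsub b (ball_subset_ball (min_le_left _ _) hb1) s hs
          (lt_of_lt_of_le hs2 (min_le_left _ _))
    · intro ζ hζ
      refine hM _ (hmem ζ (sphere_subset_closedBall hζ)) ?_
      rw [mem_sphere, dist_zero_right] at hζ
      have h1 : x + ζ • w - x₀ = ζ • w - (x₀ - x) := by abel
      rw [h1]
      have h2 := norm_sub_norm_le (ζ • w) (x₀ - x)
      rw [norm_smul, hw, mul_one, hζ, norm_sub_rev x₀ x] at h2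
      linarith
  have h0 : x + (0 : ℂ) • w = x := by rw [zero_smul, add_zero]
  have h1 : X.N ψ (x + (0 : ℂ) • w) v ≤ M := key
  rwa [h0] at h1

theorem bdd_N (hn : 1 < n) {p : Y} (hp : p ∈ X.P) {W₂ : Set Y} (hW₂o : IsOpen W₂) (hpW₂ : p ∈ W₂) :
    ∃ φ ∈ Charts (E n) Y, p ∈ φ.source ∧ φ.source ⊆ W₂ ∧ ∃ C : ℝ, ∀ j, ∀ y ∈ φ.source,
      y ∈ (X.ch j).source →
        ∀ v, pull (X.a j) (X.h j) (X.ch j y) (fderiv ℂ (X.ch j ∘ φ.symm) (φ y) v) ≤ C * ‖v‖ := by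
  obtain ⟨W₁, hW₁o, hpW₁, hW₁⟩ := X.discrete p
  set ψ : Chart n Y := chartAt (E n) p with hψdef
  have hψ : ψ ∈ Charts (E n) Y := IsManifold.chart_mem_maximalAtlas p
  have hpψ : p ∈ ψ.source := mem_chart_source (E n) p
  have hS : IsOpen (ψ.target ∩ ψ.symm ⁻¹' (W₁ ∩ W₂)) :=
    ψ.isOpen_inter_preimage_symm (hW₁o.inter hW₂o)
  have hx₀ : ψ p ∈ ψ.target ∩ ψ.symm ⁻¹' (W₁ ∩ W₂) := by
    refine ⟨ψ.map_source hpψ, ?_⟩
    show ψ.symm (ψ p) ∈ W₁ ∩ W₂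
    rw [ψ.left_inv hpψ]
    exact ⟨hpW₁, hpW₂⟩
  obtain ⟨R, hR, hball⟩ := Metric.nhds_basis_closedBall.mem_iff.1 (hS.mem_nhds hx₀)
  obtain ⟨r, hrdef⟩ : ∃ r : ℝ, r = R / 3 := ⟨_, rfl⟩
  have hr : 0 < r := by rw [hrdef]; linarith
  have hR3 : R = 3 * r := by rw [hrdef]; ring
  rw [hR3] at hball
  have hb : ∀ y ∈ closedBall (ψ p) (3 * r), y ∈ ψ.target ∧ (y ≠ ψ p → ψ.symm y ∉ X.P) := by
    intro y hy
    obtain ⟨h1, h2⟩ := hball hy
    refine ⟨h1, fun hne hyP => hne ?_⟩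
    have h3 : ψ.symm y = p := hW₁ ⟨h2.1, hyP⟩
    rw [← h3, ψ.right_inv h1]
  -- the bound on the shell
  have hK : IsCompact ((closedBall (ψ p) (3 * r) \ ball (ψ p) r) ×ˢ sphere (0 : E n) 1) :=
    ((isCompact_closedBall (ψ p) (3 * r)).diff isOpen_ball).prod (isCompact_sphere 0 1)
  have hcon : ContinuousOn (fun q : E n × E n => X.N ψ q.1 q.2)
      ((closedBall (ψ p) (3 * r) \ ball (ψ p) r) ×ˢ sphere (0 : E n) 1) := by
    rintro ⟨x, v⟩ ⟨⟨h1, h2⟩, -⟩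
    have h3 : x ≠ ψ p := by
      rintro rfl
      exact h2 (mem_ball_self hr)
    obtain ⟨h4, h5⟩ := hb x h1
    exact (D1_cont X hψ h4 (h5 h3)).continuousWithinAt
  obtain ⟨M, hM⟩ := hK.exists_bound_of_continuousOn hcon
  have hshell : ∀ v : E n, ‖v‖ = 1 → ∀ y ∈ closedBall (ψ p) (3 * r), r ≤ ‖y - ψ p‖ →
      X.N ψ y v ≤ M := by
    intro v hv y hy hyr
    refine (le_abs_self _).trans (hM (y, v) ⟨⟨hy, ?_⟩, ?_⟩)
    · intro h1
      rw [mem_ball, dist_eq_norm] at h1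
      linarith
    · rw [mem_sphere, dist_zero_right]
      exact hv
  have hall : ∀ v : E n, ‖v‖ = 1 → ∀ y ∈ closedBall (ψ p) (3 * r), y ≠ ψ p → X.N ψ y v ≤ M := by
    intro v hv y hy hne
    by_cases hyr : r ≤ ‖y - ψ p‖
    · exact hshell v hv y hy hyr
    · obtain ⟨w, hw, hwn⟩ := D1_dir hn (sub_ne_zero.2 hne)
      exact D1_disc X hψ hr hw (not_le.1 hyr) hwn hb (hshell v hv)
  have hO : IsOpen (ψ.source ∩ ψ ⁻¹' ball (ψ p) (3 * r)) := ψ.isOpen_inter_preimage isOpen_ball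
  refine ⟨ψ.restr (ψ.source ∩ ψ ⁻¹' ball (ψ p) (3 * r)), ?_, ?_, ?_, M, ?_⟩
  · exact restr_mem_maximalAtlas (G := contDiffGroupoid ω 𝓘(ℂ, E n)) hψ hO
  · rw [ψ.restr_source, hO.interior_eq]
    exact ⟨hpψ, hpψ, mem_ball_self (by linarith)⟩
  · intro y hy
    rw [ψ.restr_source, hO.interior_eq] at hy
    obtain ⟨hyψ, -, hyb⟩ := hy
    have h1 := (hball (ball_subset_closedBall hyb)).2.2
    rwa [ψ.left_inv hyψ] at h1
  · intro j y hy hyj
    rw [ψ.restr_source, hO.interior_eq] at hy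
    obtain ⟨hyψ, -, hyb⟩ := hy
    have hyc : ψ y ∈ closedBall (ψ p) (3 * r) := ball_subset_closedBall hyb
    have hyP : y ∉ X.P := (X.cover y).2 ⟨j, hyj⟩
    have hyne : ψ y ≠ ψ p := by
      intro h
      have h1 : y = p := ψ.injOn hyψ hpψ h
      exact hyP (h1 ▸ hp)
    · intro v
      have hj' : ψ.symm (ψ y) ∈ (X.ch j).source := by
        rw [ψ.left_inv hyψ]
        exact hyj
      have hP' : ψ.symm (ψ y) ∉ X.P := by
        rw [ψ.left_inv hyψ]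
        exact hyP
      have h1 := N_eq X hψ (ψ.map_source hyψ) hj' v
      rw [ψ.left_inv hyψ] at h1
      show pull (X.a j) (X.h j) (X.ch j y) (fderiv ℂ (X.ch j ∘ ψ.symm) (ψ y) v) ≤ M * ‖v‖
      rw [← h1]
      rcases eq_or_ne v 0 with rfl | hv
      · have h2 := N_smul X hψ (ψ.map_source hyψ) hP' 0 0
        rw [smul_zero, norm_zero, zero_mul] at h2
        rw [h2, norm_zero, mul_zero]
      · have hv' : ‖v‖ ≠ 0 := norm_ne_zero_iff.2 hv
        have h2 : X.N ψ (ψ y) (((‖v‖ : ℝ) : ℂ)⁻¹ • v) ≤ M := by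
          refine hall _ ?_ _ hyc hyne
          rw [norm_smul, norm_inv, Complex.norm_real, norm_norm, inv_mul_cancel₀ hv']
        rw [N_smul X hψ (ψ.map_source hyψ) hP', norm_inv, Complex.norm_real, norm_norm] at h2
        rw [inv_mul_le_iff₀ (norm_pos_iff.2 hv)] at h2
        rw [mul_comm]
        exact h2

end Pool.Agent.Nef6.SN
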