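import Pool.Agent.H.MP_6a1d6a_ag.SN.C5
import Pool.Agent.H.MP_6a1d6a_ag.SN.D1
import Pool.Agent.H.MP_6a1d6a_ag.SM.A4
import Pool.Agent.H.MP_6a1d6a_ag.SM.A5

/-!
MP_6a1d6a_ag/SN, module C6: the first case: the length of the field vanishes at isolated points only.

`sum_le` with `m = o`, `u c = log (nu c)`. Let `c ∈ C`, `φ` a holomorphic chart at `ν c`: the one of `bdd_N` if `ν c ∈ P`, else `chartAt (E n) (ν c)`. Take `R`, `g` from `loc_curve`, and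
shrink `R` so that `ν (χ.symm z) ∉ P` for `z ≠ z₀` in the ball (`hP`, `χ = chartAt ℂ c`), and `g` is bounded on the ball. `f z = X.N φ (φ (ν (χ.symm z))) (g z)`, `w = log ∘ f`.
`wform_log` for `f`: continuous on the punctured ball (`N_cont`; `φ.symm (φ y) = y`); `0 ≤ f` (`N_nonneg`); `f ≤ M`: if `ν c ∈ P` by `bdd_N` and `N_eq` (`f z ≤ C ‖g z‖`), if
`ν c ∉ P` because `f` is continuous also at `z₀` (shrink `R`); `PSub`: `N_sub` (and continuity of `f` for the `ρ` with `f ≠ 0` on the ball of radius `2ρ`); the zeros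
are isolated: `nu ≠ 0` near each point `c'` with `ν c' ∉ P` (`hT`), and `nu (χ.symm z) = ‖z - z₀‖ ^ (o c) * f z` (`nu_loc`) for `z ≠ z₀` in the ball.
The equation `log (nu (χ.symm z)) = o c * log ‖z - z₀‖ + log (f z)` for all `z` with `z ≠ z₀`, `f z ≠ 0`, so almost everywhere in the ball (the zeros of `f` in the
punctured ball are isolated, so countable).
-/

set_option autoImplicit false

open Set Filter Topology Metric MeasureTheory
open scoped ContDiff Manifold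

namespace Pool.Agent.Nef6.SN

open Pool.Agent.Nef6.SM (loc_curve PSub WForm wform_log sum_le)

variable {n : ℕ} {Y : Type} [TopologicalSpace Y] [ChartedSpace (E n) Y]
  [IsManifold 𝓘(ℂ, E n) ω Y] (X : SingularMetric n Y)
  {C : Type} [TopologicalSpace C] [ChartedSpace ℂ C] [IsManifold 𝓘(ℂ) ω C]

omit [IsManifold 𝓘(ℂ) ω C] in
private theorem C6_tend (c : C) {z : ℂ} (hz : z ∈ (chartAt ℂ c).target) :
    Tendsto (chartAt ℂ c).symm (𝓝[≠] z) (𝓝[≠] ((chartAt ℂ c).symm z)) := by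
  refine tendsto_nhdsWithin_iff.2 ⟨?_, ?_⟩
  · exact ((chartAt ℂ c).continuousAt_symm hz).tendsto.mono_left nhdsWithin_le_nhds
  · have h1 : ∀ᶠ z' in 𝓝[≠] z, z' ∈ (chartAt ℂ c).target :=
      nhdsWithin_le_nhds ((chartAt ℂ c).open_target.mem_nhds hz)
    filter_upwards [h1, self_mem_nhdsWithin] with z' h2 h3 h4
    exact h3 ((chartAt ℂ c).symm.injOn h2 hz h4)

private theorem C6_ae {f : ℂ → ℝ} {U : Set ℂ} (hU : IsOpen U)
    (hz : ∀ z ∈ U, ∀ᶠ z' in 𝓝[≠] z, f z' ≠ 0) : ∀ᵐ z : ℂ, z ∈ U → f z ≠ 0 := by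
  rw [← ae_restrict_iff' hU.measurableSet]
  have h1 : {z : ℂ | f z ≠ 0} ∈ codiscreteWithin U := by
    rw [mem_codiscreteWithin_iff_forall_mem_nhdsNE]
    intro x hx
    filter_upwards [hz x hx] with y hy
    exact Or.inl hy
  exact ae_restrict_le_codiscreteWithin hU.measurableSet h1

private theorem C6_chart (hn : 1 < n) (p : Y) : ∃ φ ∈ Charts (E n) Y, p ∈ φ.source ∧
    (p ∈ X.P → ∃ K : ℝ, ∀ y ∈ φ.source, y ∉ X.P → ∀ v, X.N φ (φ y) v ≤ K * ‖v‖) := by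
  by_cases hp : p ∈ X.P
  · obtain ⟨φ, hφ, hs, -, K, hK⟩ := bdd_N X hn hp isOpen_univ (mem_univ p)
    refine ⟨φ, hφ, hs, fun _ => ⟨K, fun y hy hyP v => ?_⟩⟩
    obtain ⟨j, hj⟩ := off_P X hyP
    have h1 : φ.symm (φ y) ∈ (X.ch j).source := by rwa [φ.left_inv hy]
    rw [N_eq X hφ (φ.map_source hy) h1, φ.left_inv hy]
    exact hK j y hy hj v
  · exact ⟨chartAt (E n) p, IsManifold.chart_mem_maximalAtlas p, mem_chart_source _ p,
      fun h => absurd h hp⟩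

theorem case_pos [CompactSpace C] [T2Space C] (hn : 1 < n) {ν : C → Y}
    (hν : ContMDiff 𝓘(ℂ) 𝓘(ℂ, E n) ω ν) {σ : Chart n Y → C → E n} {o : C → ℤ}
    (hσ : IsMeroField ν σ o) (hP : ∀ c, ∀ᶠ c' in 𝓝[≠] c, ν c' ∉ X.P)
    (hT : ∀ c, ν c ∉ X.P → ∀ᶠ c' in 𝓝[≠] c, nu X ν σ c' ≠ 0) : ∑ᶠ c, o c ≤ 0 := by
  refine sum_le (u := fun c => Real.log (nu X ν σ c)) (m := o) fun c => ?_
  obtain ⟨φ, hφ, hc, hb⟩ := C6_chart X hn (ν c)
  obtain ⟨R₁, g, hR₁, hsub, hloc⟩ := loc_curve hν hσ c hφ hc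
  obtain ⟨f, hf⟩ : ∃ f : ℂ → ℝ, f = fun z => X.N φ (φ (ν ((chartAt ℂ c).symm z))) (g z) := ⟨_, rfl⟩
  have hz₀ : chartAt ℂ c c ∈ ball (chartAt ℂ c c) R₁ := mem_ball_self hR₁
  have hcc : (chartAt ℂ c).symm (chartAt ℂ c c) = c :=
    (chartAt ℂ c).left_inv (mem_chart_source ℂ c)
  have hft : ∀ z ∈ ball (chartAt ℂ c c) R₁, φ (ν ((chartAt ℂ c).symm z)) ∈ φ.target :=
    fun z hz => φ.map_source (hloc z hz).1
  have hfs : ∀ z ∈ ball (chartAt ℂ c c) R₁,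
      φ.symm (φ (ν ((chartAt ℂ c).symm z))) = ν ((chartAt ℂ c).symm z) :=
    fun z hz => φ.left_inv (hloc z hz).1
  have hfc : ∀ z ∈ ball (chartAt ℂ c c) R₁, ν ((chartAt ℂ c).symm z) ∉ X.P →
      ContinuousAt f z := by
    intro z hz hzP
    rw [hf]
    exact N_cont X hφ (hloc z hz).2.1 (hloc z hz).2.2.1 (hft z hz) (by rwa [hfs z hz])
  -- the points of the punctured ball
  have hev1 : ∀ᶠ z in 𝓝[≠] (chartAt ℂ c c), ν ((chartAt ℂ c).symm z) ∉ X.P := by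
    have h1 := C6_tend c (hsub hz₀)
    rw [hcc] at h1
    exact h1.eventually (hP c)
  have hev2 : ∃ M : ℝ, ∀ᶠ z in 𝓝[≠] (chartAt ℂ c c), f z ≤ M := by
    by_cases hcP : ν c ∈ X.P
    · obtain ⟨K, hK⟩ := hb hcP
      refine ⟨|K| * (‖g (chartAt ℂ c c)‖ + 1), ?_⟩
      have h1 : ∀ᶠ z in 𝓝[≠] (chartAt ℂ c c), ‖g z‖ < ‖g (chartAt ℂ c c)‖ + 1 :=
        nhdsWithin_le_nhds ((hloc _ hz₀).2.2.1.continuousAt.norm.eventually_lt_const (by linarith))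
      have h2 : ∀ᶠ z in 𝓝[≠] (chartAt ℂ c c), z ∈ ball (chartAt ℂ c c) R₁ :=
        nhdsWithin_le_nhds (isOpen_ball.mem_nhds hz₀)
      filter_upwards [h1, h2, hev1] with z h3 h4 h5
      rw [hf]
      calc X.N φ (φ (ν ((chartAt ℂ c).symm z))) (g z) ≤ K * ‖g z‖ :=
            hK _ (hloc z h4).1 h5 (g z)
        _ ≤ |K| * ‖g z‖ := mul_le_mul_of_nonneg_right (le_abs_self K) (norm_nonneg _)
        _ ≤ |K| * (‖g (chartAt ℂ c c)‖ + 1) := mul_le_mul_of_nonneg_left h3.le (abs_nonneg K)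
    · refine ⟨f (chartAt ℂ c c) + 1, ?_⟩
      have h1 : ContinuousAt f (chartAt ℂ c c) := hfc _ hz₀ (by rwa [hcc])
      have h2 : ∀ᶠ z in 𝓝 (chartAt ℂ c c), f z < f (chartAt ℂ c c) + 1 :=
        h1.eventually_lt_const (by linarith)
      filter_upwards [nhdsWithin_le_nhds h2] with z h3
      exact h3.le
  obtain ⟨M, hM⟩ := hev2
  obtain ⟨R₂, hR₂, hRs⟩ := Metric.mem_nhdsWithin_iff.1 (hev1.and hM)
  have hR : 0 < min R₁ R₂ := lt_min hR₁ hR₂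
  have hB : ∀ z ∈ ball (chartAt ℂ c c) (min R₁ R₂), z ∈ ball (chartAt ℂ c c) R₁ :=
    fun z hz => ball_subset_ball (min_le_left _ _) hz
  have hBP : ∀ z ∈ ball (chartAt ℂ c c) (min R₁ R₂) \ {chartAt ℂ c c},
      ν ((chartAt ℂ c).symm z) ∉ X.P ∧ f z ≤ M :=
    fun z hz => hRs ⟨ball_subset_ball (min_le_right _ _) hz.1, hz.2⟩
  have hU : IsOpen (ball (chartAt ℂ c c) (min R₁ R₂) \ {chartAt ℂ c c}) :=
    isOpen_ball.sdiff isClosed_singleton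
  have hnu : ∀ z ∈ ball (chartAt ℂ c c) (min R₁ R₂) \ {chartAt ℂ c c},
      nu X ν σ ((chartAt ℂ c).symm z) = ‖z - chartAt ℂ c c‖ ^ (o c) * f z := by
    intro z hz
    rw [hf]
    exact nu_loc X hσ hφ (hloc z (hB z hz.1)).1 (hBP z hz).1
      ((hloc z (hB z hz.1)).2.2.2.2 hz.2).1
  have hiso : ∀ z ∈ ball (chartAt ℂ c c) (min R₁ R₂) \ {chartAt ℂ c c},
      ∀ᶠ z' in 𝓝[≠] z, f z' ≠ 0 := by
    intro z hz
    have h1 := (C6_tend c (hsub (hB z hz.1))).eventually (hT _ (hBP z hz).1)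
    filter_upwards [h1, nhdsWithin_le_nhds (hU.mem_nhds hz)] with z' h2 h3 h4
    rw [hnu z' h3, h4, mul_zero] at h2
    exact h2 rfl
  have hfcont : ContinuousOn f (ball (chartAt ℂ c c) (min R₁ R₂) \ {chartAt ℂ c c}) :=
    fun z hz => (hfc z (hB z hz.1) (hBP z hz).1).continuousWithinAt
  have hf0 : ∀ z ∈ ball (chartAt ℂ c c) (min R₁ R₂) \ {chartAt ℂ c c}, 0 ≤ f z := by
    intro z hz
    rw [hf]
    exact N_nonneg X hφ (hft z (hB z hz.1)) (g z)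
  have hps : PSub f (ball (chartAt ℂ c c) (min R₁ R₂) \ {chartAt ℂ c c}) := by
    intro z hz hfz
    have hzB := hB z hz.1
    obtain ⟨ρ, hρ, hρs⟩ := N_sub X hφ (hloc z hzB).2.1 (hloc z hzB).2.2.1 (hft z hzB)
      (by rw [hfs z hzB]; exact (hBP z hz).1) (by rw [hf] at hfz; exact hfz)
    have h0 : ∀ᶠ y in 𝓝 z, y ∈ ball (chartAt ℂ c c) (min R₁ R₂) \ {chartAt ℂ c c} :=
      hU.mem_nhds hz
    have h1 : ∀ᶠ y in 𝓝 z, y ∈ ball (chartAt ℂ c c) (min R₁ R₂) \ {chartAt ℂ c c} ∧ f y ≠ 0 :=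
      h0.and ((hfc z hzB (hBP z hz).1).eventually_ne hfz)
    obtain ⟨t, ht0, ht⟩ := Metric.eventually_nhds_iff_ball.1 h1
    refine ⟨min ρ (t / 2), by positivity, fun b hb => ht b (ball_subset_ball ?_ hb), ?_⟩
    · have := min_le_right ρ (t / 2)
      linarith
    · intro b hb r hr hr'
      rw [hf]
      exact hρs b (ball_subset_ball (min_le_left _ _) hb) r hr (hr'.trans_le (min_le_left _ _))
  refine ⟨min R₁ R₂, hR, fun z hz => hsub (hB z hz),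
    fun z hz hne => ((hloc z (hB z hz)).2.2.2.2 hne).2, fun z => Real.log (f z),
    wform_log hfcont (fun z hz => ⟨hf0 z hz, (hBP z hz).2⟩) hps hiso, ?_⟩
  have hne : ∀ᵐ z : ℂ, z ≠ chartAt ℂ c c := by
    rw [ae_iff]
    simp
  filter_upwards [C6_ae hU hiso, hne] with z h1 h2 h3
  have hz : z ∈ ball (chartAt ℂ c c) (min R₁ R₂) \ {chartAt ℂ c c} := ⟨h3, h2⟩
  have h4 : ‖z - chartAt ℂ c c‖ ≠ 0 := norm_ne_zero_iff.2 (sub_ne_zero.2 h2)
  show Real.log (nu X ν σ ((chartAt ℂ c).symm z)) = _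
  rw [hnu z hz, Real.log_mul (zpow_ne_zero _ h4) (h1 hz), Real.log_zpow]

end Pool.Agent.Nef6.SN
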