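import Pool.Agent.H.MP_6a1d6a_ag.SN.C1
import Pool.Agent.H.MP_6a1d6a_ag.SN.B5
import Pool.Agent.H.MP_6a1d6a_ag.SN.B6

/-!
MP_6a1d6a_ag/SN, module C7: the kernel with exponent `≥ A` and the conical metric on it do not depend on the chart. Compare with `SM/C7.lean` (one coordinate).

Let `x₀ = ch j y`, `t = ch k ∘ (ch j).symm`, `D = fderiv ℂ t x₀`, `w = D v`; `v = 0` is trivial (`leadA a A 0 = 0`), let `v ≠ 0`, so `w ≠ 0` (`D_inj`). `pull (a j) (h j) x₀ v = 0` (`pull_zero_iff`, `KerA`, `1 < A`), so by `compat`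
`pull (a k) (h k) (ch k y) w = 0`: for all `i` `w i = 0` or `1 < a k i`, `ch k y i = 0`. `F s = t (x₀ + s v)` is analytic at `0` (`CC.tr_smooth`), `F 0 = ch k y`, `deriv F s = fderiv ℂ t (x₀ + s v) v`, `deriv F 0 = w`, and
`pull (a k) (h k) (F s) (deriv F s) = pull (a j) (h j) (x₀ + s v) v` for `s` near `0` (`compat` at `(ch j).symm (x₀ + s v)`); by `disc_exact` the right side divided by `‖s‖ ^ (A-1)` tends to `m = h_j (pt x₀) (leadA (a j) A v)`.
(1) `KerA (a k) A (ch k y) w`: let `A'` be the exponent of `w` from `exists_exp` (for `a k`), `leadA (a k) A' w ≠ 0`, so `h_k (pt (ch k y)) (leadA (a k) A' w) > κ > 0` for some `κ`; `disc_lower` with `A'`: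
`κ ‖s‖ ^ (A'-1) ≤ pull .. ≤ (m + 1) ‖s‖ ^ (A-1)` for `s ≠ 0` near `0`. If `A' < A` this is false for `s → 0`. So `A ≤ A'`, and `KerA (a k) A' ..` implies `KerA (a k) A ..`.
(2) by `disc_lower` with `A`: `κ ≤ m` for all `κ < h_k (pt (ch k y)) (leadA (a k) A w)`, so `h_k (pt (ch k y)) (leadA (a k) A w) ≤ m`. The same for the pair `k`, `j` and the vector `w` (its image is `v` by `CC.tr_comp`, `CC.tr_id`) gives
equality. Power `1 / A`.
-/

set_option autoImplicit false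

open Set Filter Topology Metric MeasureTheory
open scoped ContDiff Manifold

namespace Pool.Agent.Nef6.SN

variable {n : ℕ} {Y : Type} [TopologicalSpace Y] [ChartedSpace (E n) Y]
  [IsManifold 𝓘(ℂ, E n) ω Y] (X : SingularMetric n Y)

omit [IsManifold 𝓘(ℂ, E n) ω Y] in
/-- the point of a chart -/
private theorem C7_maps {j : X.J} {y : Y} (hj : y ∈ (X.ch j).source) :
    pt (X.a j) (X.ch j y) ∈ X.U j := X.maps j _ ((X.ch j).map_source hj)

/-- the comparison along the disc -/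
private theorem C7_key {j k : X.J} {y : Y} (hj : y ∈ (X.ch j).source) (hk : y ∈ (X.ch k).source)
    {A : ℝ} (hA : 1 < A) {v : E n} (h : KerA (X.a j) A (X.ch j y) v) {A' : ℝ} (hA' : 1 < A')
    (h' : KerA (X.a k) A' (X.ch k y) (fderiv ℂ (X.ch k ∘ (X.ch j).symm) (X.ch j y) v)) {κ : ℝ}
    (hκ : κ < X.h k (pt (X.a k) (X.ch k y))
      (leadA (X.a k) A' (fderiv ℂ (X.ch k ∘ (X.ch j).symm) (X.ch j y) v))) (hle : A' ≤ A) :
    κ ≤ X.h j (pt (X.a j) (X.ch j y)) (leadA (X.a j) A v) * (0 : ℝ) ^ (A - A') := by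
  have hxt : X.ch j y ∈ (X.ch j).target := (X.ch j).map_source hj
  have hUj := C7_maps X hj
  have hUk := C7_maps X hk
  -- the disc
  set t : E n → E n := X.ch k ∘ (X.ch j).symm with ht
  have htan : AnalyticAt ℂ t (X.ch j y) := (CC.tr_smooth (X.hol j) (X.hol k) hj hk).analyticAt
  have hty : t (X.ch j y) = X.ch k y := by
    rw [ht, Function.comp_apply, (X.ch j).left_inv hj]
  have hpd : ∀ s : ℂ, HasDerivAt (fun s : ℂ => X.ch j y + s • v) v s := by
    intro s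
    have h3 : HasDerivAt (fun s : ℂ => s • v) ((1 : ℂ) • v) s := (hasDerivAt_id s).smul_const v
    rw [one_smul] at h3
    exact h3.const_add (X.ch j y)
  have hpc : Continuous (fun s : ℂ => X.ch j y + s • v) := by fun_prop
  have hp0 : X.ch j y + (0 : ℂ) • v = X.ch j y := by
    rw [zero_smul, add_zero]
  have hpt : Tendsto (fun s : ℂ => X.ch j y + s • v) (𝓝 0) (𝓝 (X.ch j y)) := by
    have h3 := hpc.tendsto 0
    rwa [hp0] at h3
  have hpan : AnalyticAt ℂ (fun s : ℂ => X.ch j y + s • v) 0 :=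
    analyticAt_const.add (analyticAt_id.smul analyticAt_const)
  have hFan : AnalyticAt ℂ (fun s : ℂ => t (X.ch j y + s • v)) 0 := by
    refine AnalyticAt.comp (g := t) (f := fun s : ℂ => X.ch j y + s • v) ?_ hpan
    show AnalyticAt ℂ t (X.ch j y + (0 : ℂ) • v)
    rw [hp0]
    exact htan
  have hFd : ∀ s : ℂ, DifferentiableAt ℂ t (X.ch j y + s • v) →
      deriv (fun s : ℂ => t (X.ch j y + s • v)) s = fderiv ℂ t (X.ch j y + s • v) v := by
    intro s hs
    exact (HasFDerivAt.comp_hasDerivAt s hs.hasFDerivAt (hpd s)).deriv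
  have hF0 : t (X.ch j y + (0 : ℂ) • v) = X.ch k y := by
    rw [hp0, hty]
  have hFd0 : deriv (fun s : ℂ => t (X.ch j y + s • v)) 0 = fderiv ℂ t (X.ch j y) v := by
    rw [hFd 0 (by rw [hp0]; exact htan.differentiableAt), hp0]
  have hlow := disc_lower (X.metric k) (X.one_le k) (X.rot k) hA' hFan (by rw [hF0]; exact hUk)
    (by rw [hF0, hFd0]; exact h') (κ := κ) (by rw [hF0, hFd0]; exact hκ)
  have hex := disc_exact (X.metric j) (X.one_le j) hA hUj h
  -- the two sides are equal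
  have e1 : ∀ᶠ s in 𝓝 (0 : ℂ), X.ch j y + s • v ∈ (X.ch j).target :=
    hpt.eventually ((X.ch j).open_target.mem_nhds hxt)
  have e2 : ∀ᶠ s in 𝓝 (0 : ℂ), (X.ch j).symm (X.ch j y + s • v) ∈ (X.ch k).source := by
    have h3 : Tendsto (fun s : ℂ => (X.ch j).symm (X.ch j y + s • v)) (𝓝 0) (𝓝 y) := by
      have h4 := ((X.ch j).continuousAt_symm hxt).tendsto.comp hpt
      rwa [(X.ch j).left_inv hj] at h4
    exact h3.eventually ((X.ch k).open_source.mem_nhds hk)
  have e3 : ∀ᶠ s in 𝓝 (0 : ℂ), DifferentiableAt ℂ t (X.ch j y + s • v) :=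
    (hpt.eventually htan.eventually_analyticAt).mono fun s hs => hs.differentiableAt
  have hmain : ∀ᶠ s in 𝓝[≠] (0 : ℂ),
      κ ≤ pull (X.a j) (X.h j) (X.ch j y + s • v) v / ‖s‖ ^ (A - 1) * ‖s‖ ^ (A - A') := by
    filter_upwards [hlow, e1.filter_mono nhdsWithin_le_nhds, e2.filter_mono nhdsWithin_le_nhds,
      e3.filter_mono nhdsWithin_le_nhds, self_mem_nhdsWithin] with s hs k1 k2 k3 k4
    have hs0 : 0 < ‖s‖ := norm_pos_iff.2 k4
    have h3 := X.compat j k _ ((X.ch j).map_target k1) k2 v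
    rw [(X.ch j).right_inv k1] at h3
    have h4 : pull (X.a k) (X.h k) (t (X.ch j y + s • v))
        (deriv (fun s : ℂ => t (X.ch j y + s • v)) s) =
        pull (X.a j) (X.h j) (X.ch j y + s • v) v := by
      rw [hFd s k3]
      exact h3
    have h5 : κ * ‖s‖ ^ (A' - 1) ≤ pull (X.a j) (X.h j) (X.ch j y + s • v) v :=
      hs.trans h4.le
    have h6 : 0 < ‖s‖ ^ (A' - 1) := Real.rpow_pos_of_pos hs0 _
    have h7 : 0 < ‖s‖ ^ (A - 1) := Real.rpow_pos_of_pos hs0 _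
    have h8 : ‖s‖ ^ (A - A') = ‖s‖ ^ (A - 1) / ‖s‖ ^ (A' - 1) := by
      rw [← Real.rpow_sub hs0]
      congr 1
      ring
    rw [h8, div_mul_div_comm, mul_comm (‖s‖ ^ (A - 1)) (‖s‖ ^ (A' - 1)),
      mul_div_mul_right _ _ h7.ne', le_div_iff₀ h6]
    exact h5
  have hlim2 : Tendsto (fun s : ℂ => ‖s‖ ^ (A - A')) (𝓝[≠] 0) (𝓝 ((0 : ℝ) ^ (A - A'))) := by
    have h3 : Continuous (fun s : ℂ => ‖s‖ ^ (A - A')) :=
      (Real.continuous_rpow_const (by linarith)).comp continuous_norm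
    have h4 := h3.tendsto 0
    rw [norm_zero] at h4
    exact h4.mono_left nhdsWithin_le_nhds
  exact ge_of_tendsto (hex.mul hlim2) hmain

theorem ker_inv {j k : X.J} {y : Y} (hj : y ∈ (X.ch j).source) (hk : y ∈ (X.ch k).source) {A : ℝ}
    (hA : 1 < A) {v : E n} (h : KerA (X.a j) A (X.ch j y) v) :
    KerA (X.a k) A (X.ch k y) (fderiv ℂ (X.ch k ∘ (X.ch j).symm) (X.ch j y) v) := by
  by_cases hv : v = 0
  · intro i
    left
    rw [hv, map_zero]
    rfl
  have hw : fderiv ℂ (X.ch k ∘ (X.ch j).symm) (X.ch j y) v ≠ 0 := fun h0 =>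
    hv (D_inj (X.hol j) (X.hol k) hj hk h0)
  have h1 := X.compat j k y hj hk v
  rw [(pull_zero_iff (X.metric j) (X.one_le j) (C7_maps X hj) v).2 (fun i => by
    rcases h i with h2 | h2
    · exact Or.inl h2
    · exact Or.inr ⟨hA.trans_le h2.1, h2.2⟩)] at h1
  have h2 := (pull_zero_iff (X.metric k) (X.one_le k) (C7_maps X hk) _).1 h1
  obtain ⟨A', hA', h3, -, h4⟩ := exists_exp hw h2
  have hle : A ≤ A' := by
    by_contra hlt
    have hlt' : A' < A := not_le.1 hlt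
    have hm : 0 < X.h k (pt (X.a k) (X.ch k y))
        (leadA (X.a k) A' (fderiv ℂ (X.ch k ∘ (X.ch j).symm) (X.ch j y) v)) :=
      (X.metric k).pos _ (C7_maps X hk) _ h4
    have h5 := C7_key X hj hk hA h hA' h3 (half_lt_self hm) hlt'.le
    rw [Real.zero_rpow (sub_pos.2 hlt').ne', mul_zero] at h5
    linarith
  intro i
  rcases h3 i with h5 | h5
  · exact Or.inl h5
  · exact Or.inr ⟨hle.trans h5.1, h5.2⟩

private theorem C7_le {j k : X.J} {y : Y} (hj : y ∈ (X.ch j).source) (hk : y ∈ (X.ch k).source)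
    {A : ℝ} (hA : 1 < A) {v : E n} (h : KerA (X.a j) A (X.ch j y) v) :
    X.h k (pt (X.a k) (X.ch k y))
      (leadA (X.a k) A (fderiv ℂ (X.ch k ∘ (X.ch j).symm) (X.ch j y) v)) ≤
      X.h j (pt (X.a j) (X.ch j y)) (leadA (X.a j) A v) := by
  refine le_of_forall_lt_imp_le_of_dense fun κ hκ => ?_
  have h1 := C7_key X hj hk hA h hA (ker_inv X hj hk hA h) hκ le_rfl
  rwa [sub_self, Real.rpow_zero, mul_one] at h1

theorem kernel_inv {j k : X.J} {y : Y} (hj : y ∈ (X.ch j).source) (hk : y ∈ (X.ch k).source)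
    {A : ℝ} (hA : 1 < A) {v : E n} (h : KerA (X.a j) A (X.ch j y) v) :
    knA (X.a k) A (X.h k) (X.ch k y) (fderiv ℂ (X.ch k ∘ (X.ch j).symm) (X.ch j y) v) =
      knA (X.a j) A (X.h j) (X.ch j y) v := by
  have h1 := C7_le X hj hk hA h
  have h2 := C7_le X hk hj hA (ker_inv X hj hk hA h)
  rw [CC.tr_comp (X.hol j) (X.hol k) (X.hol j) hj hk hj v, CC.tr_id hj] at h2
  unfold knA
  rw [le_antisymm h1 h2]

end Pool.Agent.Nef6.SN
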