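import Pool.Agent.H.MP_6a1d6a_ag.SN.C7

/-!
MP_6a1d6a_ag/SN, module C9: the conical metric on the kernel in an arbitrary chart. Compare with `SM/C9.lean`.

`Ker_iff`, `K_eq`: compare the chosen chart with `ch j` by `ker_inv`, `kernel_inv` (applied to `fderiv ℂ (ch j ∘ φ.symm) x v`, `CC.tr_comp`). `Ker_change`, `K_change`: both charts with the same `j` (`off_P`), `CC.tr_comp`.
`Ker_smul`, `K_smul`: `map_smul`, `knA_smul`. `K_nonneg`: `knA_nonneg`, `maps`.
-/

set_option autoImplicit false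

open Set Filter Topology Metric MeasureTheory
open scoped ContDiff Manifold

namespace Pool.Agent.Nef6.SN

section defs

variable {n : ℕ} {Y : Type} [TopologicalSpace Y] [ChartedSpace (E n) Y]

open Classical in
/-- the conical length of a vector of the kernel, in an arbitrary holomorphic chart -/
noncomputable def SingularMetric.K (X : SingularMetric n Y) (A : ℝ) (φ : Chart n Y) (x v : E n) : ℝ :=
  if h : ∃ j, φ.symm x ∈ (X.ch j).source then
    knA (X.a h.choose) A (X.h h.choose) (X.ch h.choose (φ.symm x))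
      (fderiv ℂ (X.ch h.choose ∘ φ.symm) x v)
  else 0

/-- the vector `v` is in the kernel, with exponent `≥ A` -/
def SingularMetric.Ker (X : SingularMetric n Y) (A : ℝ) (φ : Chart n Y) (x v : E n) : Prop :=
  ∃ j, φ.symm x ∈ (X.ch j).source ∧
    KerA (X.a j) A (X.ch j (φ.symm x)) (fderiv ℂ (X.ch j ∘ φ.symm) x v)

end defs

variable {n : ℕ} {Y : Type} [TopologicalSpace Y] [ChartedSpace (E n) Y]
  [IsManifold 𝓘(ℂ, E n) ω Y] (X : SingularMetric n Y)

theorem Ker_iff {φ : Chart n Y} (hφ : φ ∈ Charts (E n) Y) {x : E n} (hx : x ∈ φ.target) {j : X.J}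
    (hj : φ.symm x ∈ (X.ch j).source) {A : ℝ} (hA : 1 < A) (v : E n) :
    X.Ker A φ x v ↔ KerA (X.a j) A (X.ch j (φ.symm x)) (fderiv ℂ (X.ch j ∘ φ.symm) x v) := by
  have hy : φ.symm x ∈ φ.source := φ.map_target hx
  constructor
  · rintro ⟨i, hi, hk⟩
    have h5 := ker_inv X hi hj hA hk
    have h6 := CC.tr_comp hφ (X.hol i) (X.hol j) hy hi hj v
    rw [φ.right_inv hx] at h6
    rw [h6] at h5
    exact h5
  · intro h
    exact ⟨j, hj, h⟩

theorem K_eq {φ : Chart n Y} (hφ : φ ∈ Charts (E n) Y) {x : E n} (hx : x ∈ φ.target) {j : X.J}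
    (hj : φ.symm x ∈ (X.ch j).source) {A : ℝ} (hA : 1 < A) {v : E n} (h : X.Ker A φ x v) :
    X.K A φ x v = knA (X.a j) A (X.h j) (X.ch j (φ.symm x)) (fderiv ℂ (X.ch j ∘ φ.symm) x v) := by
  have hex : ∃ j, φ.symm x ∈ (X.ch j).source := ⟨j, hj⟩
  unfold SingularMetric.K
  rw [dif_pos hex]
  have hi := hex.choose_spec
  generalize hex.choose = i at hi ⊢
  have hy : φ.symm x ∈ φ.source := φ.map_target hx
  have h5 := kernel_inv X hj hi hA ((Ker_iff X hφ hx hj hA v).1 h)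
  have h6 := CC.tr_comp hφ (X.hol j) (X.hol i) hy hj hi v
  rw [φ.right_inv hx] at h6
  rw [h6] at h5
  exact h5

theorem Ker_change {φ ψ : Chart n Y} (hφ : φ ∈ Charts (E n) Y) (hψ : ψ ∈ Charts (E n) Y) {y : Y}
    (hy : y ∈ φ.source) (hy' : y ∈ ψ.source) (hP : y ∉ X.P) {A : ℝ} (hA : 1 < A) (v : E n) :
    X.Ker A ψ (ψ y) (fderiv ℂ (ψ ∘ φ.symm) (φ y) v) ↔ X.Ker A φ (φ y) v := by
  obtain ⟨j, hj⟩ := off_P X hP
  rw [Ker_iff X hψ (ψ.map_source hy') (j := j) (by rw [ψ.left_inv hy']; exact hj) hA,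
    Ker_iff X hφ (φ.map_source hy) (j := j) (by rw [φ.left_inv hy]; exact hj) hA,
    ψ.left_inv hy', φ.left_inv hy, CC.tr_comp hφ hψ (X.hol j) hy hy' hj v]

theorem K_change {φ ψ : Chart n Y} (hφ : φ ∈ Charts (E n) Y) (hψ : ψ ∈ Charts (E n) Y) {y : Y}
    (hy : y ∈ φ.source) (hy' : y ∈ ψ.source) (hP : y ∉ X.P) {A : ℝ} (hA : 1 < A) {v : E n}
    (h : X.Ker A φ (φ y) v) :
    X.K A ψ (ψ y) (fderiv ℂ (ψ ∘ φ.symm) (φ y) v) = X.K A φ (φ y) v := by
  obtain ⟨j, hj⟩ := off_P X hP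
  rw [K_eq X hψ (ψ.map_source hy') (j := j) (by rw [ψ.left_inv hy']; exact hj) hA
      ((Ker_change X hφ hψ hy hy' hP hA v).2 h),
    K_eq X hφ (φ.map_source hy) (j := j) (by rw [φ.left_inv hy]; exact hj) hA h,
    ψ.left_inv hy', φ.left_inv hy, CC.tr_comp hφ hψ (X.hol j) hy hy' hj v]

theorem Ker_smul {φ : Chart n Y} (hφ : φ ∈ Charts (E n) Y) {x : E n} (hx : x ∈ φ.target)
    (hP : φ.symm x ∉ X.P) {A : ℝ} (hA : 1 < A) {c : ℂ} (hc : c ≠ 0) (v : E n) :
    X.Ker A φ x (c • v) ↔ X.Ker A φ x v := by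
  obtain ⟨j, hj⟩ := off_P X hP
  rw [Ker_iff X hφ hx hj hA, Ker_iff X hφ hx hj hA, map_smul]
  refine forall_congr' fun i => or_congr ?_ Iff.rfl
  rw [PiLp.smul_apply, smul_eq_mul, mul_eq_zero]
  exact or_iff_right hc

theorem K_smul {φ : Chart n Y} (hφ : φ ∈ Charts (E n) Y) {x : E n} (hx : x ∈ φ.target)
    (hP : φ.symm x ∉ X.P) {A : ℝ} (hA : 1 < A) (c : ℂ) (v : E n) :
    X.K A φ x (c • v) = ‖c‖ * X.K A φ x v := by
  have hex : ∃ j, φ.symm x ∈ (X.ch j).source := off_P X hP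
  unfold SingularMetric.K
  rw [dif_pos hex, dif_pos hex]
  have hi := hex.choose_spec
  generalize hex.choose = i at hi ⊢
  rw [map_smul, knA_smul (X.metric i) hA (X.maps i _ ((X.ch i).map_source hi))]

theorem K_nonneg {φ : Chart n Y} (hφ : φ ∈ Charts (E n) Y) {x : E n} (hx : x ∈ φ.target) (A : ℝ)
    (v : E n) : 0 ≤ X.K A φ x v := by
  unfold SingularMetric.K
  by_cases hex : ∃ j, φ.symm x ∈ (X.ch j).source
  · rw [dif_pos hex]
    have hi := hex.choose_spec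
    generalize hex.choose = i at hi ⊢
    exact knA_nonneg (X.metric i) (X.maps i _ ((X.ch i).map_source hi)) _
  · rw [dif_neg hex]

end Pool.Agent.Nef6.SN
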