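import Pool.Agent.H.MP_6a1d6a_ag.SN.C5
import Pool.Agent.H.MP_6a1d6a_ag.SN.C9

/-!
MP_6a1d6a_ag/SN, module C9b: the exponent of a field along a curve.

`kr_loc`, `ku_loc`: transformation rule of `σ` (first part of `IsMeroField`), `Ker_change`, `K_change`, `Ker_smul`, `K_smul` (`t ^ k ≠ 0`), `norm_zpow`; compare with `nu_loc` and `C10_eq` in `SM/C10.lean`.
-/

set_option autoImplicit false

open Set Filter Topology Metric MeasureTheory
open scoped ContDiff Manifold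

namespace Pool.Agent.Nef6.SN

open Pool.Agent.Nef6.SM (loc_curve)

section defs

variable {n : ℕ} {Y : Type} [TopologicalSpace Y] [ChartedSpace (E n) Y]

/-- the conical length of `σ` at `c` -/
noncomputable def ku (X : SingularMetric n Y) (A : ℝ) {C : Type} (ν : C → Y) (σ : Chart n Y → C → E n)
    (c : C) : ℝ :=
  X.K A (chartAt (E n) (ν c)) (chartAt (E n) (ν c) (ν c)) (σ (chartAt (E n) (ν c)) c)

/-- `σ` is in the kernel at `c`, with exponent `≥ A` -/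
def kr (X : SingularMetric n Y) (A : ℝ) {C : Type} (ν : C → Y) (σ : Chart n Y → C → E n) (c : C) :
    Prop :=
  X.Ker A (chartAt (E n) (ν c)) (chartAt (E n) (ν c) (ν c)) (σ (chartAt (E n) (ν c)) c)

end defs

variable {n : ℕ} {Y : Type} [TopologicalSpace Y] [ChartedSpace (E n) Y]
  [IsManifold 𝓘(ℂ, E n) ω Y] (X : SingularMetric n Y)
  {C : Type} [TopologicalSpace C] [ChartedSpace ℂ C] [IsManifold 𝓘(ℂ) ω C]

theorem kr_loc {ν : C → Y} {σ : Chart n Y → C → E n} {o : C → ℤ} (hσ : IsMeroField ν σ o) {A : ℝ}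
    (hA : 1 < A) {φ : Chart n Y} (hφ : φ ∈ Charts (E n) Y) {c : C} (hc : ν c ∈ φ.source)
    (hP : ν c ∉ X.P) {t : ℂ} (ht : t ≠ 0) {k : ℤ} {v : E n} (h : σ φ c = t ^ k • v) :
    kr X A ν σ c ↔ X.Ker A φ (φ (ν c)) v := by
  have htk : t ^ k ≠ 0 := zpow_ne_zero _ ht
  have hP' : φ.symm (φ (ν c)) ∉ X.P := by
    rw [φ.left_inv hc]
    exact hP
  have h1 : chartAt (E n) (ν c) ∈ Charts (E n) Y := IsManifold.chart_mem_maximalAtlas _
  unfold kr
  rw [hσ.1 φ hφ _ h1 c hc (mem_chart_source _ _),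
    Ker_change X hφ h1 hc (mem_chart_source _ _) hP hA, h,
    Ker_smul X hφ (φ.map_source hc) hP' hA htk]

theorem ku_loc {ν : C → Y} {σ : Chart n Y → C → E n} {o : C → ℤ} (hσ : IsMeroField ν σ o) {A : ℝ}
    (hA : 1 < A) {φ : Chart n Y} (hφ : φ ∈ Charts (E n) Y) {c : C} (hc : ν c ∈ φ.source)
    (hP : ν c ∉ X.P) {t : ℂ} (ht : t ≠ 0) {k : ℤ} {v : E n} (h : σ φ c = t ^ k • v)
    (hk : X.Ker A φ (φ (ν c)) v) : ku X A ν σ c = ‖t‖ ^ k * X.K A φ (φ (ν c)) v := by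
  have htk : t ^ k ≠ 0 := zpow_ne_zero _ ht
  have hP' : φ.symm (φ (ν c)) ∉ X.P := by
    rw [φ.left_inv hc]
    exact hP
  have h1 : chartAt (E n) (ν c) ∈ Charts (E n) Y := IsManifold.chart_mem_maximalAtlas _
  have hk' : X.Ker A φ (φ (ν c)) (σ φ c) := by
    rw [h]
    exact (Ker_smul X hφ (φ.map_source hc) hP' hA htk v).2 hk
  unfold ku
  rw [hσ.1 φ hφ _ h1 c hc (mem_chart_source _ _),
    K_change X hφ h1 hc (mem_chart_source _ _) hP hA hk', h,
    K_smul X hφ (φ.map_source hc) hP' hA, norm_zpow]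

end Pool.Agent.Nef6.SN
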