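import Pool.Agent.H.MP_6a1d6a_ag.SN.B1
import Pool.Agent.H.MP_6a1d6a_ag.SM.Ex1

/-!
MP_6a1d6a_ag/SN, module Ex1: the flat metric is a metric in the sense of `IsMetric`, invariant under all rotations. See `SM/Ex1.lean` (`psh`: Cauchy-Schwarz with `H z = inner ℂ (v b) (v z) / ‖v b‖` and
`CC.Nef_peak_sub`). `‖dg e v‖ = ‖v‖`: `EuclideanSpace.norm_eq`.
-/

set_option autoImplicit false

open Set Filter Topology Metric MeasureTheory
open scoped ContDiff Manifold

namespace Pool.Agent.Nef6.SN

variable {N : ℕ}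

theorem flat_metric : IsMetric (fun _ v : E N => ‖v‖) univ := by
  refine ⟨isOpen_univ, ?_, fun x _ v hv => ?_, fun x _ c v => ?_, fun x _ v w => ?_,
    fun x v b r hr _ hv hne => ?_⟩
  · exact continuous_snd.norm.continuousOn
  · exact norm_pos_iff.2 hv
  · exact norm_smul c v
  · exact norm_add_le _ _
  · -- an open set around the closed ball on which `v` is analytic and not zero
    have hA : IsOpen {z | AnalyticAt ℂ v z} := isOpen_analyticAt ℂ v
    have hO : IsOpen ({z | AnalyticAt ℂ v z} ∩ v ⁻¹' {0}ᶜ) := by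
      refine ContinuousOn.isOpen_inter_preimage (fun z hz => ?_) hA isOpen_compl_singleton
      exact (show AnalyticAt ℂ v z from hz).continuousAt.continuousWithinAt
    have hsub : closedBall b r ⊆ {z | AnalyticAt ℂ v z} ∩ v ⁻¹' {0}ᶜ := fun z hz =>
      ⟨hv z hz, (hne z hz).2⟩
    obtain ⟨δ, hδ, hT⟩ := (isCompact_closedBall b r).exists_thickening_subset_open hO hsub
    rw [thickening_closedBall hδ hr.le] at hT
    have hb0 : v b ≠ 0 := (hne b (mem_closedBall_self hr.le)).2
    have hw0 : ‖v b‖ ≠ 0 := norm_ne_zero_iff.2 hb0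
    have hpos : ∀ z ∈ ball b (δ + r), 0 < ‖v z‖ := fun z hz => norm_pos_iff.2 (hT hz).2
    have hW : ContinuousOn (fun z => Real.log ‖v z‖) (ball b (δ + r)) := by
      refine ContinuousOn.log (ContinuousOn.norm fun z hz => ?_) fun z hz => (hpos z hz).ne'
      exact (show AnalyticAt ℂ v z from (hT hz).1).continuousAt.continuousWithinAt
    have hH : DifferentiableOn ℂ (fun z => (innerSL ℂ (v b) (v z)) / ((‖v b‖ : ℝ) : ℂ))
        (ball b (δ + r)) := by
      intro z hz
      have h1 : DifferentiableAt ℂ v z :=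
        (show AnalyticAt ℂ v z from (hT hz).1).differentiableAt
      have h2 : DifferentiableAt ℂ (fun z => (innerSL ℂ (v b) (v z))) z :=
        (innerSL ℂ (v b)).differentiableAt.comp z h1
      exact (h2.div_const _).differentiableWithinAt
    refine CC.Nef_peak_sub (W := fun z => Real.log ‖v z‖) hr
      (closedBall_subset_ball (by linarith)) hW hH ?_ ?_
    · intro z hz
      show ‖(innerSL ℂ (v b) (v z)) / ((‖v b‖ : ℝ) : ℂ)‖ ≤ Real.exp (Real.log ‖v z‖)
      rw [Real.exp_log (hpos z hz), norm_div, Complex.norm_real, Real.norm_of_nonneg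
        (norm_nonneg _), div_le_iff₀ (lt_of_le_of_ne (norm_nonneg _) (Ne.symm hw0)),
        innerSL_apply_apply, mul_comm]
      exact norm_inner_le_norm _ _
    · show ‖(innerSL ℂ (v b) (v b)) / ((‖v b‖ : ℝ) : ℂ)‖ = Real.exp (Real.log ‖v b‖)
      rw [Real.exp_log (lt_of_le_of_ne (norm_nonneg _) (Ne.symm hw0)), norm_div,
        Complex.norm_real, Real.norm_of_nonneg (norm_nonneg _), innerSL_apply_apply,
        inner_self_eq_norm_sq_to_K, norm_pow]
      show ‖((‖v b‖ : ℝ) : ℂ)‖ ^ 2 / _ = _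
      rw [Complex.norm_real, Real.norm_of_nonneg (norm_nonneg _), sq, mul_div_assoc,
        div_self hw0, mul_one]

theorem flat_rot (a : Fin N → ℝ) : RotInv a (fun _ v : E N => ‖v‖) univ := by
  intro e he _ x _
  refine ⟨mem_univ _, fun v => ?_⟩
  show ‖dg e v‖ = ‖v‖
  rw [EuclideanSpace.norm_eq, EuclideanSpace.norm_eq]
  congr 1
  refine Finset.sum_congr rfl fun i _ => ?_
  rw [dg_apply, norm_mul, he i, one_mul]

end Pool.Agent.Nef6.SN
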