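import Pool.Agent.H.MP_6a1d6a_ag.SN.B1
import Pool.Agent.H.MP_6a1d6a_ag.SM.Ex2

/-!
MP_6a1d6a_ag/SN, module Ex2: the complex hyperbolic metric (holomorphic curvature `-1`) of the unit ball of `ℂ^(n+1)` is a metric in the sense of `IsMetric`, invariant under all rotations.

`bh_metric`: transfer `Nef6.SM.hyp_metric` by the linear map `τ x = (x 0, toLp (fun i => x i.succ))` from `E (n+1)` to `ℂ × EuclideanSpace ℂ (Fin n)` (injective, continuous, analytic): `bh x v = √(KC.hyp (τ x) (τ v))`,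
`ball 0 1 = τ ⁻¹' KC.Bl n` (`Fin.sum_univ_succ`). `bh_rot`: `‖dg e v‖ = ‖v‖`, `inner ℂ (dg e x) (dg e v) = inner ℂ x v`.
-/

set_option autoImplicit false

open Set Filter Topology Metric MeasureTheory
open scoped ContDiff Manifold

namespace Pool.Agent.Nef6.SN

variable {n : ℕ}

/-- the length of `v` at `x` for the complex hyperbolic metric of the unit ball -/
noncomputable def bh (x v : E (n + 1)) : ℝ :=
  √(4 * (‖v‖ ^ 2 / (1 - ‖x‖ ^ 2) + ‖(inner ℂ x v : ℂ)‖ ^ 2 / (1 - ‖x‖ ^ 2) ^ 2))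

private noncomputable def Ex2_tau (n : ℕ) :
    E (n + 1) →L[ℂ] ℂ × EuclideanSpace ℂ (Fin n) :=
  LinearMap.toContinuousLinearMap
    { toFun := fun x => (x 0, WithLp.toLp 2 fun i : Fin n => x i.succ)
      map_add' := fun _ _ => rfl
      map_smul' := fun _ _ => rfl }

private theorem Ex2_tau_apply (x : E (n + 1)) :
    Ex2_tau n x = (x 0, WithLp.toLp 2 fun i : Fin n => x i.succ) := rfl

private theorem Ex2_norm (x : E (n + 1)) :
    ‖(Ex2_tau n x).1‖ ^ 2 + ‖(Ex2_tau n x).2‖ ^ 2 = ‖x‖ ^ 2 := by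
  rw [EuclideanSpace.norm_sq_eq x, Fin.sum_univ_succ, Ex2_tau_apply]
  dsimp only
  rw [EuclideanSpace.norm_sq_eq]

private theorem Ex2_inner (x v : E (n + 1)) :
    (starRingEnd ℂ) (Ex2_tau n x).1 * (Ex2_tau n v).1 +
      inner ℂ (Ex2_tau n x).2 (Ex2_tau n v).2 = (inner ℂ x v : ℂ) := by
  rw [PiLp.inner_apply x v, Fin.sum_univ_succ, Ex2_tau_apply, Ex2_tau_apply]
  dsimp only
  rw [PiLp.inner_apply, RCLike.inner_apply, mul_comm]

private theorem Ex2_bh (x v : E (n + 1)) :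
    bh x v = √(KC.hyp (Ex2_tau n x) (Ex2_tau n v)) := by
  unfold bh KC.hyp
  rw [Ex2_norm, Ex2_inner, sub_sub, Ex2_norm]

private theorem Ex2_ball {x : E (n + 1)} : x ∈ ball (0 : E (n + 1)) 1 ↔ Ex2_tau n x ∈ KC.Bl n := by
  rw [mem_ball_zero_iff]
  change ‖x‖ < 1 ↔ ‖(Ex2_tau n x).1‖ ^ 2 + ‖(Ex2_tau n x).2‖ ^ 2 < 1
  rw [Ex2_norm, sq_lt_one_iff₀ (norm_nonneg x)]

private theorem Ex2_ne {v : E (n + 1)} (hv : v ≠ 0) : Ex2_tau n v ≠ 0 := by
  intro h
  apply hv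
  have h1 := Ex2_norm v
  rw [h, Prod.fst_zero, Prod.snd_zero, norm_zero, norm_zero] at h1
  have h2 : ‖v‖ ^ 2 = 0 := by rw [← h1]; norm_num
  exact norm_eq_zero.mp (pow_eq_zero_iff two_ne_zero |>.mp h2)

private theorem Ex2_dg {e : Fin (n + 1) → ℂ} (he : ∀ i, ‖e i‖ = 1) (x : E (n + 1)) :
    ‖dg e x‖ = ‖x‖ := by
  rw [EuclideanSpace.norm_eq, EuclideanSpace.norm_eq]
  congr 1
  refine Finset.sum_congr rfl fun i _ => ?_
  rw [dg_apply, norm_mul, he i, one_mul]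

private theorem Ex2_dg_inner {e : Fin (n + 1) → ℂ} (he : ∀ i, ‖e i‖ = 1) (x v : E (n + 1)) :
    (inner ℂ (dg e x) (dg e v) : ℂ) = inner ℂ x v := by
  rw [PiLp.inner_apply, PiLp.inner_apply]
  refine Finset.sum_congr rfl fun i _ => ?_
  rw [dg_apply, dg_apply, RCLike.inner_apply, RCLike.inner_apply, map_mul]
  have h1 : e i * (starRingEnd ℂ) (e i) = 1 := by
    rw [Complex.mul_conj, Complex.normSq_eq_norm_sq, he i]
    norm_num
  linear_combination (v i * (starRingEnd ℂ) (x i)) * h1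

theorem bh_metric : IsMetric (bh (n := n)) (ball 0 1) := by
  have hfun : ∀ x v : E (n + 1), bh x v = √(KC.hyp (Ex2_tau n x) (Ex2_tau n v)) := Ex2_bh
  have hM := Nef6.SM.hyp_metric (n := n)
  refine ⟨isOpen_ball, ?_, fun x hx v hv => ?_, fun x hx c v => ?_, fun x hx v w => ?_,
    fun x v b r hr hx hv h => ?_⟩
  · have h1 : ContinuousOn (fun q : E (n + 1) × E (n + 1) => (Ex2_tau n q.1, Ex2_tau n q.2))
        (ball 0 1 ×ˢ univ) :=
      (((Ex2_tau n).continuous.comp continuous_fst).prodMk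
        ((Ex2_tau n).continuous.comp continuous_snd)).continuousOn
    have h2 := hM.cont.comp h1 fun q hq => ⟨Ex2_ball.mp hq.1, mem_univ _⟩
    refine h2.congr fun q _ => ?_
    exact hfun q.1 q.2
  · rw [hfun]
    exact hM.pos _ (Ex2_ball.mp hx) _ (Ex2_ne hv)
  · rw [hfun, hfun, map_smul]
    exact hM.smul _ (Ex2_ball.mp hx) c _
  · rw [hfun, hfun, hfun, map_add]
    exact hM.add _ (Ex2_ball.mp hx) _ _
  · simp only [hfun]
    exact hM.psh (fun z => Ex2_tau n (x z)) (fun z => Ex2_tau n (v z)) b r hr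
      (fun z hz => ((Ex2_tau n).analyticAt _).comp (hx z hz))
      (fun z hz => ((Ex2_tau n).analyticAt _).comp (hv z hz))
      (fun z hz => ⟨Ex2_ball.mp (h z hz).1, Ex2_ne (h z hz).2⟩)

theorem bh_rot (a : Fin (n + 1) → ℝ) : RotInv a (bh (n := n)) (ball 0 1) := by
  intro e he _ x hx
  refine ⟨?_, fun v => ?_⟩
  · rw [mem_ball_zero_iff] at hx ⊢
    rw [Ex2_dg he]
    exact hx
  · unfold bh
    rw [Ex2_dg he, Ex2_dg he, Ex2_dg_inner he]

end Pool.Agent.Nef6.SN
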