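import Pool.Agent.H.MP_6a1d6a_ag.SN.C4
import Pool.Agent.H.MP_6a1d6a_ag.SN.C6
import Pool.Agent.H.MP_6a1d6a_ag.SN.C10

/-!
MP_6a1d6a_ag/SN, module Main: the cotangent bundle of a complex manifold with a singular metric of nonpositive curvature is nef.
-/

set_option autoImplicit false

open Set Filter Topology Metric MeasureTheory
open scoped ContDiff Manifold

namespace Pool.Agent.Nef6.SN

variable {n : ℕ} {Y : Type} [TopologicalSpace Y] [ChartedSpace (E n) Y]
  [IsManifold 𝓘(ℂ, E n) ω Y]

theorem nef_singular (hn : 1 < n) (X : SingularMetric n Y) : CotangentNef (E n) Y := by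
  intro C _ _ _ _ _ _ ν hν σ o hσ
  rcases P_alt X hν with hP | ⟨p, hp⟩
  · rcases T_alt X hν hσ hP with hT | hT
    · exact case_pos X hn hν hσ hP hT
    · exact case_kernel X hn hν hσ hP hT
  · exact case_const hν hσ hp

end Pool.Agent.Nef6.SN
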