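import Mathlib

/-!
MP_6a1d6a_ag/SN, module P1: factorisation of `z - z₀` on a closed disc whose boundary does not contain `z₀`. See the proofs of `B4_small`, `B4_large`, `B4_id` in `SM/B4.lean`.

Case `r < ‖b - z₀‖`: `β = 1`, `l z = log ((z - z₀)/(b - z₀)) + log (b - z₀)` (`(z - z₀)/(b - z₀)` has positive real part in the closed disc); `‖exp (l z)‖ = ‖z - z₀‖ ≤ 2 ρ`.
Case `‖b - z₀‖ < r`, `q = z₀ - b`: `β z = r (z - z₀) / (r² - conj q * (z - b))`, `c z = (r² - conj q (z - b)) / r` has positive real part for `‖z - b‖ ≤ r`, `‖c z‖ ≤ 2 r`, `z - z₀ = β z * c z`,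
`l z = log (c z)`; `‖β z‖ ≤ 1` in the disc and `= 1` on the circle (`B4_id`).
-/

set_option autoImplicit false

open Set Filter Topology Metric MeasureTheory
open scoped ContDiff Manifold

namespace Pool.Agent.Nef6.SN

private theorem P1_small {z₀ b : ℂ} {r ρ : ℝ} (h0r : 0 < r) (hρ : r < ρ) (hb : b ∈ ball z₀ ρ)
    (hrq : r < ‖b - z₀‖) :
    ∃ β l : ℂ → ℂ, AnalyticOnNhd ℂ β (closedBall b r) ∧ AnalyticOnNhd ℂ l (closedBall b r) ∧
      (∀ z ∈ closedBall b r, z - z₀ = β z * Complex.exp (l z) ∧ ‖β z‖ ≤ 1 ∧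
        ‖Complex.exp (l z)‖ ≤ 2 * ρ) ∧ ∀ z ∈ sphere b r, ‖β z‖ = 1 := by
  have hp : 0 < ‖b - z₀‖ := h0r.trans hrq
  have hp0 : b - z₀ ≠ 0 := norm_pos_iff.mp hp
  have hre : ∀ z ∈ closedBall b r, 0 < ((z - z₀) / (b - z₀)).re := by
    intro z hz
    have h1 : (z - z₀) / (b - z₀) = 1 + (z - b) / (b - z₀) := by
      field_simp
      ring
    have h2 : ‖(z - b) / (b - z₀)‖ < 1 := by
      rw [norm_div, div_lt_one hp]
      exact (mem_closedBall_iff_norm.mp hz).trans_lt hrq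
    have h3 := Complex.abs_re_le_norm ((z - b) / (b - z₀))
    rw [h1, Complex.add_re, Complex.one_re]
    linarith [neg_abs_le ((z - b) / (b - z₀)).re]
  have hLe : ∀ z ∈ closedBall b r,
      Complex.exp (Complex.log ((z - z₀) / (b - z₀)) + Complex.log (b - z₀)) = z - z₀ := by
    intro z hz
    have h1 : (z - z₀) / (b - z₀) ≠ 0 := fun h2 => by
      have h3 := hre z hz
      rw [h2, Complex.zero_re] at h3
      exact lt_irrefl _ h3
    rw [Complex.exp_add, Complex.exp_log h1, Complex.exp_log hp0, div_mul_cancel₀ _ hp0]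
  refine ⟨fun _ => 1, fun z => Complex.log ((z - z₀) / (b - z₀)) + Complex.log (b - z₀),
    fun z _ => analyticAt_const, fun z hz => ?_, fun z hz => ⟨?_, ?_, ?_⟩, fun z _ => ?_⟩
  · have h1 : AnalyticAt ℂ (fun z => (z - z₀) / (b - z₀)) z :=
      (analyticAt_id.sub analyticAt_const).div analyticAt_const hp0
    exact (h1.clog (Or.inl (hre z hz))).add analyticAt_const
  · simp only
    rw [hLe z hz, one_mul]
  · simp only
    rw [norm_one]
  · simp only
    rw [hLe z hz]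
    have h1 : z - z₀ = (z - b) + (b - z₀) := by ring
    have h2 : ‖z - b‖ ≤ r := mem_closedBall_iff_norm.mp hz
    have h3 : ‖b - z₀‖ < ρ := mem_ball_iff_norm.mp hb
    have h4 := norm_add_le (z - b) (b - z₀)
    rw [h1]
    linarith
  · simp only
    rw [norm_one]

private theorem P1_id (q w : ℂ) (r : ℝ) :
    ‖(r : ℂ) ^ 2 - (starRingEnd ℂ) q * w‖ ^ 2 - r ^ 2 * ‖w - q‖ ^ 2 =
      (r ^ 2 - ‖w‖ ^ 2) * (r ^ 2 - ‖q‖ ^ 2) := by
  have h1 : (r : ℂ) ^ 2 = ((r ^ 2 : ℝ) : ℂ) := by push_cast; ring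
  rw [h1]
  simp only [← Complex.normSq_eq_norm_sq, Complex.normSq_apply, Complex.sub_re, Complex.sub_im,
    Complex.mul_re, Complex.mul_im, Complex.conj_re, Complex.conj_im, Complex.ofReal_re,
    Complex.ofReal_im]
  ring

private theorem P1_large {z₀ b : ℂ} {r ρ : ℝ} (h0r : 0 < r) (hρ : r < ρ)
    (hqr : ‖z₀ - b‖ < r) :
    ∃ β l : ℂ → ℂ, AnalyticOnNhd ℂ β (closedBall b r) ∧ AnalyticOnNhd ℂ l (closedBall b r) ∧
      (∀ z ∈ closedBall b r, z - z₀ = β z * Complex.exp (l z) ∧ ‖β z‖ ≤ 1 ∧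
        ‖Complex.exp (l z)‖ ≤ 2 * ρ) ∧ ∀ z ∈ sphere b r, ‖β z‖ = 1 := by
  set q : ℂ := z₀ - b with hq
  have hr0 : (r : ℂ) ≠ 0 := Complex.ofReal_ne_zero.mpr h0r.ne'
  set D : ℂ → ℂ := fun z => (r : ℂ) ^ 2 - (starRingEnd ℂ) q * (z - b) with hD
  set c : ℂ → ℂ := fun z => D z / r with hc
  have hqw : ∀ z ∈ closedBall b r, ‖(starRingEnd ℂ) q * (z - b)‖ ≤ ‖q‖ * r := by
    intro z hz
    rw [norm_mul, RCLike.norm_conj]
    exact mul_le_mul_of_nonneg_left (mem_closedBall_iff_norm.mp hz) (norm_nonneg _)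
  have hqr2 : ‖q‖ * r < r ^ 2 := by nlinarith
  have hre : ∀ z ∈ closedBall b r, 0 < (c z).re := by
    intro z hz
    have h1 : (c z).re = (r ^ 2 - ((starRingEnd ℂ) q * (z - b)).re) / r := by
      rw [hc]
      simp only
      rw [Complex.div_ofReal_re, hD]
      simp only [Complex.sub_re]
      congr 2
      rw [← Complex.ofReal_pow, Complex.ofReal_re]
    rw [h1]
    refine div_pos ?_ h0r
    have h2 := (Complex.abs_re_le_norm ((starRingEnd ℂ) q * (z - b))).trans (hqw z hz)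
    linarith [le_abs_self ((starRingEnd ℂ) q * (z - b)).re]
  have hc0 : ∀ z ∈ closedBall b r, c z ≠ 0 := fun z hz h1 => by
    have h2 := hre z hz
    rw [h1, Complex.zero_re] at h2
    exact lt_irrefl _ h2
  have hcn : ∀ z ∈ closedBall b r, ‖c z‖ ≤ 2 * r := by
    intro z hz
    rw [hc]
    simp only
    rw [norm_div, Complex.norm_real, Real.norm_of_nonneg h0r.le, div_le_iff₀ h0r]
    have h1 : ‖D z‖ ≤ ‖(r : ℂ) ^ 2‖ + ‖(starRingEnd ℂ) q * (z - b)‖ := norm_sub_le _ _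
    rw [norm_pow, Complex.norm_real, Real.norm_of_nonneg h0r.le] at h1
    have h2 := hqw z hz
    nlinarith
  have hca : ∀ z, AnalyticAt ℂ c z := fun z =>
    (analyticAt_const.sub (analyticAt_const.mul (analyticAt_id.sub analyticAt_const))).div
      analyticAt_const hr0
  have hnid : ∀ z, ‖D z‖ ^ 2 - r ^ 2 * ‖z - z₀‖ ^ 2 =
      (r ^ 2 - ‖z - b‖ ^ 2) * (r ^ 2 - ‖q‖ ^ 2) := by
    intro z
    have h1 := P1_id q (z - b) r
    have h2 : z - b - q = z - z₀ := by rw [hq]; ring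
    rw [h2] at h1
    exact h1
  have hnc : ∀ z, ‖c z‖ = ‖D z‖ / r := fun z => by
    rw [hc]
    simp only
    rw [norm_div, Complex.norm_real, Real.norm_of_nonneg h0r.le]
  have hβ1 : ∀ z ∈ closedBall b r, ‖z - z₀‖ ≤ ‖c z‖ := by
    intro z hz
    rw [hnc, le_div_iff₀ h0r]
    have h1 := hnid z
    have h2 : ‖z - b‖ ≤ r := mem_closedBall_iff_norm.mp hz
    have h3 : 0 ≤ (r ^ 2 - ‖z - b‖ ^ 2) * (r ^ 2 - ‖q‖ ^ 2) :=
      mul_nonneg (by nlinarith [norm_nonneg (z - b)]) (by nlinarith [norm_nonneg q])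
    refine le_of_sq_le_sq ?_ (norm_nonneg _)
    rw [mul_pow]
    linarith
  have hβ2 : ∀ z ∈ sphere b r, ‖z - z₀‖ = ‖c z‖ := by
    intro z hz
    rw [hnc, eq_div_iff h0r.ne']
    have h1 := hnid z
    have h2 : ‖z - b‖ = r := mem_sphere_iff_norm.mp hz
    rw [h2, sub_self, zero_mul] at h1
    have h3 : (‖z - z₀‖ * r) ^ 2 = ‖D z‖ ^ 2 := by
      rw [mul_pow]
      linarith
    exact (sq_eq_sq₀ (mul_nonneg (norm_nonneg _) h0r.le) (norm_nonneg _)).mp h3
  refine ⟨fun z => (z - z₀) / c z, fun z => Complex.log (c z), fun z hz => ?_, fun z hz => ?_,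
    fun z hz => ⟨?_, ?_, ?_⟩, fun z hz => ?_⟩
  · exact (analyticAt_id.sub analyticAt_const).div (hca z) (hc0 z hz)
  · exact (hca z).clog (Or.inl (hre z hz))
  · simp only
    rw [Complex.exp_log (hc0 z hz), div_mul_cancel₀ _ (hc0 z hz)]
  · simp only
    rw [norm_div]
    exact div_le_one_of_le₀ (hβ1 z hz) (norm_nonneg _)
  · simp only
    rw [Complex.exp_log (hc0 z hz)]
    linarith [hcn z hz]
  · simp only
    rw [norm_div, hβ2 z hz, div_self]
    exact norm_ne_zero_iff.mpr (hc0 z (sphere_subset_closedBall hz))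

theorem blaschke {z₀ b : ℂ} {r ρ : ℝ} (hr : 0 < r) (hρ : r < ρ) (hb : b ∈ ball z₀ ρ)
    (hne : r ≠ ‖b - z₀‖) :
    ∃ β l : ℂ → ℂ, AnalyticOnNhd ℂ β (closedBall b r) ∧ AnalyticOnNhd ℂ l (closedBall b r) ∧
      (∀ z ∈ closedBall b r, z - z₀ = β z * Complex.exp (l z) ∧ ‖β z‖ ≤ 1 ∧
        ‖Complex.exp (l z)‖ ≤ 2 * ρ) ∧ ∀ z ∈ sphere b r, ‖β z‖ = 1 := by
  rcases lt_or_gt_of_ne hne with h | h
  · exact P1_small hr hρ hb h
  · rw [norm_sub_rev] at h
    exact P1_large hr hρ h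

/-- an analytic function which is not identically zero near `z₀` -/
theorem zero_form {f : ℂ → ℂ} {z₀ : ℂ} (hf : AnalyticAt ℂ f z₀) (hne : ¬ ∀ᶠ z in 𝓝 z₀, f z = 0) :
    ∃ (k : ℕ) (l : ℂ → ℂ), (k = 0 ↔ f z₀ ≠ 0) ∧ AnalyticAt ℂ l z₀ ∧
      ∀ᶠ z in 𝓝 z₀, f z = (z - z₀) ^ k * Complex.exp (l z) := by
  obtain ⟨k, e, he, he0, hfe⟩ := hf.exists_eventuallyEq_pow_smul_nonzero_iff.mpr hne
  refine ⟨k, fun z => Complex.log (e z / e z₀) + Complex.log (e z₀), ?_, ?_, ?_⟩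
  · have h1 := hfe.self_of_nhds
    rw [sub_self] at h1
    constructor
    · intro hk
      rw [h1, hk, pow_zero, one_smul]
      exact he0
    · intro h2
      by_contra hk
      rw [zero_pow hk, zero_smul] at h1
      exact h2 h1
  · refine AnalyticAt.add (AnalyticAt.clog (he.div analyticAt_const he0) ?_) analyticAt_const
    rw [div_self he0]
    exact Complex.one_mem_slitPlane
  · filter_upwards [hfe, he.continuousAt.eventually_ne he0] with z hz hz0
    rw [hz, smul_eq_mul, Complex.exp_add, Complex.exp_log he0,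
      Complex.exp_log (div_ne_zero hz0 he0), div_mul_cancel₀ _ he0]

end Pool.Agent.Nef6.SN
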