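import Pool.Agent.H.MP_6a1d6a_ag.SN.S1

/-!
MP_6a1d6a_ag/SN, module S2: the sub-mean value inequality on a disc from representations of the coordinates.

`sub_of_rep`: choose `X i`, `V i` from `hrep i`, `X z = toLp (X i z)`, `V z = toLp (V i z)`: analytic on a neighbourhood of the closed disc. For `z` in the closed disc choose the `u i`: the point
`dg u (X z)` is in `U` by `hε`, so `X z = dg u⁻¹ (dg u (X z)) ∈ U` (`RotInv`, `u i = 1` if `a i = 1`); `V z k ≠ 0`. `psh`: `log h (X b) (V b) ≤` the circle average of `log h (X z) (V z)`, and on the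
sphere `h (ξ z) (τ z) = h (dg c (X z)) (dg c (V z)) = h (X z) (V z)` (`RotInv`). At the centre `h (ξ b) (τ b) = h (dg c (X b)) (dg c (V b)) ≤ h (X b) (V b)` by `scale_le` with `ζ = c`
(`a i = 1 → c i = 1`; index `k`): its hypothesis `hU`: let `‖η i‖ ≤ 1`, `η i = c i` if `‖c i‖ = 1`. Let `u i` be the numbers for `z = b`, `e i = u i * (c i)⁻¹` if `fix i` (then `‖c i‖ = 1`), `e i = 1` otherwise.
The coordinates of `dg e (dg η (X b))` are `u i * X i b` if `fix i`, and `η i * X i b`, of norm `≤ ‖X i b‖ = ‖u i * X i b - p₀ i‖ ≤ ε`, `p₀ i = 0`, otherwise; so it is in `U` by `hε`, and so is `dg η (X b)`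
(`RotInv`; `a i = 1` implies `fix i`, `u i = 1`, `c i = 1`). `0 < h (ξ b) (τ b)` as `τ b k ≠ 0` and `ξ b ∈ U` (`ξ b = dg c (X b)`, `hU` with `η = c`).
-/

set_option autoImplicit false

open Set Filter Topology Metric MeasureTheory
open scoped ContDiff Manifold

namespace Pool.Agent.Nef6.SN

variable {N : ℕ} {a : Fin N → ℝ} {h : E N → E N → ℝ} {U : Set (E N)}

/-- On the closed disc `closedBall b r` the functions `ξ`, `τ` (the coordinates of a point and a vector, with values `ξ z₀ = ξ₀` at a reference point) are represented by analytic functions `X`, `V`: up to a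
common factor of norm `1` on the circle, and of norm `≤ 1` at the centre (`= 1` if `fix`). -/
def CoordRep (a : ℝ) (ξ τ : ℂ → ℂ) (ξ₀ : ℂ) (ε : ℝ) (fix : Prop) (b : ℂ) (r : ℝ) : Prop :=
  ∃ X V : ℂ → ℂ, AnalyticOnNhd ℂ X (closedBall b r) ∧ AnalyticOnNhd ℂ V (closedBall b r) ∧
    (∃ c : ℂ, ‖c‖ ≤ 1 ∧ (fix → ‖c‖ = 1) ∧ (a = 1 → c = 1) ∧ ξ b = c * X b ∧ τ b = c * V b) ∧
    (∀ z ∈ sphere b r, ∃ c : ℂ, ‖c‖ = 1 ∧ (a = 1 → c = 1) ∧ ξ z = c * X z ∧ τ z = c * V z) ∧
    (∀ z ∈ closedBall b r, ∃ u : ℂ, ‖u‖ = 1 ∧ (a = 1 → u = 1) ∧ ‖u * X z - ξ₀‖ ≤ ε) ∧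
    (fix → ∀ z ∈ closedBall b r, τ z ≠ 0 → V z ≠ 0)

/-- The point `x` is in `U` if a rotated point is in `U`. -/
private theorem S2_back (hr : RotInv a h U) {u : Fin N → ℂ} (hu : ∀ i, ‖u i‖ = 1)
    (hu1 : ∀ i, a i = 1 → u i = 1) {x : E N} (hx : dg u x ∈ U) : x ∈ U := by
  have h0 : ∀ i, u i ≠ 0 := fun i h0 => by
    have h1 := hu i
    rw [h0, norm_zero] at h1
    exact zero_ne_one h1
  have h1 := (hr (fun i => (u i)⁻¹) (fun i => by rw [norm_inv, hu i, inv_one])
    (fun i hi => by rw [hu1 i hi, inv_one]) (dg u x) hx).1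
  have h2 : dg (fun i => (u i)⁻¹) (dg u x) = x := by
    rw [dg_dg]
    have h3 : (fun i => (u i)⁻¹ * u i) = fun _ : Fin N => (1 : ℂ) := by
      funext i
      exact inv_mul_cancel₀ (h0 i)
    rw [h3, dg_one]
  rwa [h2] at h1

/-- The coordinates of an analytic function. -/
private theorem S2_an {X : Fin N → ℂ → ℂ} {S : Set ℂ} (hX : ∀ i, AnalyticOnNhd ℂ (X i) S) :
    AnalyticOnNhd ℂ (fun z => (WithLp.toLp 2 (fun i => X i z) : E N)) S := by
  intro z hz
  have h1 : AnalyticAt ℂ (fun z => fun i => X i z) z := AnalyticAt.pi fun i => hX i z hz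
  exact ((PiLp.continuousLinearEquiv 2 ℂ (fun _ : Fin N => ℂ)).symm.analyticAt _).comp h1

private theorem S2_eq {c : Fin N → ℂ} {x : E N} {y : Fin N → ℂ} (h : ∀ i, x i = c i * y i) :
    x = dg c (WithLp.toLp 2 y) := by
  ext i
  exact h i

theorem sub_of_rep (hh : IsMetric h U) (hr : RotInv a h U) {ξ τ : ℂ → E N} {p₀ : E N} {ε : ℝ}
    (hε : ∀ y : E N, (∀ i, ‖y i - p₀ i‖ ≤ ε) → y ∈ U) {fix : Fin N → Prop}
    (hfix : ∀ i, ¬ fix i → p₀ i = 0) (hfix1 : ∀ i, a i = 1 → fix i) {b : ℂ} {r : ℝ} (h0r : 0 < r)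
    (hrep : ∀ i, CoordRep (a i) (fun z => ξ z i) (fun z => τ z i) (p₀ i) ε (fix i) b r)
    {k : Fin N} (hk : fix k) (hτk : ∀ z ∈ closedBall b r, τ z k ≠ 0) :
    Real.log (h (ξ b) (τ b)) ≤ Real.circleAverage (fun z => Real.log (h (ξ z) (τ z))) b r := by
  unfold CoordRep at hrep
  choose X V hX hV hcen hsph hcl hfx using hrep
  choose c hc1 hc2 hc3 hc4 hc5 using hcen
  have hXU : ∀ z ∈ closedBall b r, (WithLp.toLp 2 (fun i => X i z) : E N) ∈ U := by
    intro z hz
    have h1 := fun i => hcl i z hz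
    choose u hu1 hu2 hu3 using h1
    exact S2_back hr hu1 hu2 (hε _ hu3)
  have hV0 : ∀ z ∈ closedBall b r, (WithLp.toLp 2 (fun i => V i z) : E N) ≠ 0 := by
    intro z hz h0
    exact hfx k hk z hz (hτk z hz) (congrFun (congrArg WithLp.ofLp h0) k)
  have hb : b ∈ closedBall b r := mem_closedBall_self h0r.le
  have key := hh.psh _ _ b r h0r (S2_an hX) (S2_an hV) fun z hz => ⟨hXU z hz, hV0 z hz⟩
  have hcirc : Real.circleAverage (fun z => Real.log (h (ξ z) (τ z))) b r =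
      Real.circleAverage (fun z => Real.log (h (WithLp.toLp 2 (fun i => X i z))
        (WithLp.toLp 2 (fun i => V i z)))) b r := by
    apply Real.circleAverage_congr_sphere
    intro z hz
    rw [abs_of_pos h0r] at hz
    have h1 := fun i => hsph i z hz
    choose u hu1 hu2 hu3 hu4 using h1
    show Real.log _ = Real.log _
    rw [S2_eq hu3, S2_eq hu4,
      (hr u hu1 hu2 _ (hXU z (sphere_subset_closedBall hz))).2]
  have hU : ∀ η : Fin N → ℂ, (∀ i, ‖η i‖ ≤ 1) → (∀ i, ‖c i‖ = 1 → η i = c i) →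
      dg η (WithLp.toLp 2 (fun i => X i b)) ∈ U := by
    intro η hη1 hη2
    have h1 := fun i => hcl i b hb
    choose u hu1 hu2 hu3 using h1
    classical
    refine S2_back hr (u := fun i => if fix i then u i * (c i)⁻¹ else 1) ?_ ?_ ?_
    · intro i
      by_cases hi : fix i
      · rw [if_pos hi, norm_mul, norm_inv, hu1 i, hc2 i hi, inv_one, one_mul]
      · rw [if_neg hi, norm_one]
    · intro i hi
      have h2 := hfix1 i hi
      show (if fix i then u i * (c i)⁻¹ else 1) = 1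
      rw [if_pos h2, hu2 i hi, hc3 i hi, inv_one, mul_one]
    · refine hε _ fun i => ?_
      show ‖(if fix i then u i * (c i)⁻¹ else 1) * (η i * X i b) - p₀ i‖ ≤ ε
      by_cases hi : fix i
      · have h2 := hc2 i hi
        have h3 : c i ≠ 0 := fun h0 => by
          rw [h0, norm_zero] at h2
          exact zero_ne_one h2
        have h4 : u i * (c i)⁻¹ * (c i * X i b) = u i * X i b := by
          field_simp
        rw [if_pos hi, hη2 i h2, h4]
        exact hu3 i
      · have h2 := hu3 i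
        rw [hfix i hi, sub_zero, norm_mul, hu1 i, one_mul] at h2
        rw [if_neg hi, hfix i hi, sub_zero, one_mul, norm_mul]
        calc ‖η i‖ * ‖X i b‖ ≤ 1 * ‖X i b‖ :=
              mul_le_mul_of_nonneg_right (hη1 i) (norm_nonneg _)
          _ = ‖X i b‖ := one_mul _
          _ ≤ ε := h2
  have h1 : h (ξ b) (τ b) ≤ h (WithLp.toLp 2 (fun i => X i b)) (WithLp.toLp 2 (fun i => V i b)) := by
    rw [S2_eq hc4, S2_eq hc5]
    exact scale_le hh hr hc1 hc3 hU (hc2 k hk) (hfx k hk b hb (hτk b hb))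
  have h2 : ξ b ∈ U := by
    rw [S2_eq hc4]
    exact hU c hc1 fun _ _ => rfl
  have h3 : τ b ≠ 0 := by
    intro h0
    apply hτk b hb
    rw [h0]
    rfl
  rw [hcirc]
  exact (Real.log_le_log (hh.pos _ h2 _ h3) h1).trans key

end Pool.Agent.Nef6.SN
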