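import Pool.Agent.H.MP_6a1d6a_ag.SN.P1
import Pool.Agent.H.MP_6a1d6a_ag.SN.S2

/-!
MP_6a1d6a_ag/SN, module P2: the representations of the coordinates (see `CoordRep` in S2).

`rep_one`: `X = x`, `V = v`, `c = u = 1`; `ρ` small by continuity.
`rep_pull`. If `x = 0` near `z₀`: `X = V = 0`, `c = u = 1` (`0 ^ (a-1) = 0`; `fix` is false, `ρ` with `x = 0` on the closed disc). Otherwise `zero_form`: `x = (z - z₀)^k exp (ℓ z)` on `ball z₀ (2 ρ)`. With `β`, `l` of `blaschke`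
(for this `ρ`): `B = β ^ k`, `L = k l + ℓ`, `x = B exp L`; `X = B exp (a L)`, `V = a exp ((a-1) L) v`; `branch` gives `c` with `‖c‖ = ‖B‖ ^ (a-1)`: `≤ 1`, `= 1` on the sphere. If `k = 0` (`x z₀ ≠ 0`, `fix`): `B = 1`,
`L = ℓ`, `‖c‖ = 1`; `u = exp (- i (a-1) Im (ℓ z))`... simply: `ξ z = c X z` with `‖c‖ = 1` for all `z` in the closed disc (`branch`), and `ξ` is continuous at `z₀`: take `u = c` and `ρ` small; `V z ≠ 0` if `v z ≠ 0`.
If `k > 0`: `ξ₀ = 0`, `‖X z‖ ≤ ‖exp (a L)‖ = ‖exp (l z)‖ ^ (k a) ‖exp (a ℓ z)‖ ≤ (2 ρ) ^ (k a) * const ≤ ε` for `ρ` small, `u = 1`.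
`rep_lead`: the same with `x := v`: `X = 0`, `V = A * B * exp (A L)` where `v = B exp L`; `‖v‖ ^ (A-1) v = c * B exp (A L)` by `branch`. If `v = 0` near `z₀`: `V = 0`.
-/

set_option autoImplicit false

open Set Filter Topology Metric MeasureTheory
open scoped ContDiff Manifold

namespace Pool.Agent.Nef6.SN

private theorem P2_sub {z₀ b : ℂ} {ρ r : ℝ} (hb : b ∈ ball z₀ ρ) (hr : r < ρ) :
    closedBall b r ⊆ ball z₀ (2 * ρ) := by
  intro z hz
  rw [mem_closedBall] at hz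
  rw [mem_ball] at hb ⊢
  have := dist_triangle z b z₀
  linarith

private theorem P2_ball {p : ℂ → Prop} {z₀ : ℂ} (h : ∀ᶠ z in 𝓝 z₀, p z) {M : ℝ} (hM : 0 < M) :
    ∃ ρ > 0, ρ ≤ M ∧ ∀ b ∈ ball z₀ ρ, ∀ r, r < ρ → ∀ z ∈ closedBall b r, p z := by
  obtain ⟨δ, hδ, h1⟩ := Metric.eventually_nhds_iff_ball.mp h
  refine ⟨min (δ / 2) M, lt_min (by linarith) hM, min_le_right _ _, ?_⟩
  intro b hb r hr z hz
  apply h1
  have h2 := P2_sub hb hr hz
  rw [mem_ball] at h2 ⊢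
  have := min_le_left (δ / 2) M
  linarith

private theorem P2_branch (a : ℝ) (B L : ℂ) : ∃ c : ℂ, ‖c‖ = ‖B‖ ^ (a - 1) ∧
    ((‖B * Complex.exp L‖ ^ (a - 1) : ℝ) : ℂ) = c * Complex.exp ((a - 1) * L) := by
  refine ⟨((‖B * Complex.exp L‖ ^ (a - 1) : ℝ) : ℂ) * Complex.exp (-((a - 1) * L)), ?_, ?_⟩
  · have h1 : (-(((a : ℂ) - 1) * L)).re = -(L.re * (a - 1)) := by
      have h2 : ((a : ℂ) - 1) = ((a - 1 : ℝ) : ℂ) := by push_cast; ring
      rw [h2, Complex.neg_re, Complex.re_ofReal_mul]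
      ring
    rw [norm_mul, Complex.norm_real, Real.norm_of_nonneg (Real.rpow_nonneg (norm_nonneg _) _),
      Complex.norm_exp, h1, norm_mul, Complex.norm_exp,
      Real.mul_rpow (norm_nonneg _) (Real.exp_pos _).le, ← Real.exp_mul, mul_assoc,
      ← Real.exp_add, add_neg_cancel, Real.exp_zero, mul_one]
  · rw [mul_assoc, ← Complex.exp_add, neg_add_cancel, Complex.exp_zero, mul_one]

private theorem P2_exp (a : ℝ) (L : ℂ) :
    Complex.exp (a * L) = Complex.exp ((a - 1) * L) * Complex.exp L := by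
  rw [← Complex.exp_add]
  congr 1
  ring

private theorem P2_c (a : ℝ) {x B L : ℂ} (v : ℂ) (h : x = B * Complex.exp L) :
    ∃ c : ℂ, ‖c‖ = ‖B‖ ^ (a - 1) ∧
      ((‖x‖ ^ (a - 1) : ℝ) : ℂ) * x = c * (B * Complex.exp (a * L)) ∧
      ((a * ‖x‖ ^ (a - 1) : ℝ) : ℂ) * v = c * (a * Complex.exp ((a - 1) * L) * v) := by
  obtain ⟨c, hc1, hc2⟩ := P2_branch a B L
  rw [← h] at hc2
  refine ⟨c, hc1, ?_, ?_⟩
  · rw [hc2, P2_exp, h]
    ring
  · rw [Complex.ofReal_mul, hc2]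
    ring

private theorem P2_pow {a : ℝ} (ha : 1 < a) {B : ℂ} (h : ‖B‖ ≤ 1) : ‖B‖ ^ (a - 1) ≤ 1 :=
  Real.rpow_le_one (norm_nonneg _) h (by linarith)

theorem rep_one {x v : ℂ → ℂ} {z₀ : ℂ} (hx : AnalyticAt ℂ x z₀) (hv : AnalyticAt ℂ v z₀) {ε : ℝ}
    (hε : 0 < ε) : ∃ ρ > 0, ∀ b ∈ ball z₀ ρ, ∀ r, 0 < r → r < ρ → CoordRep 1 x v (x z₀) ε True b r := by
  have h1 : ∀ᶠ z in 𝓝 z₀, AnalyticAt ℂ x z ∧ AnalyticAt ℂ v z ∧ ‖x z - x z₀‖ ≤ ε := by
    have h2 : ∀ᶠ z in 𝓝 z₀, x z ∈ closedBall (x z₀) ε :=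
      hx.continuousAt (closedBall_mem_nhds _ hε)
    filter_upwards [hx.eventually_analyticAt, hv.eventually_analyticAt, h2] with z k1 k2 k3
    exact ⟨k1, k2, mem_closedBall_iff_norm.mp k3⟩
  obtain ⟨ρ, hρ, -, h2⟩ := P2_ball h1 one_pos
  refine ⟨ρ, hρ, fun b hb r _ hr => ⟨x, v, fun z hz => (h2 b hb r hr z hz).1,
    fun z hz => (h2 b hb r hr z hz).2.1, ⟨1, by simp, fun _ => by simp, fun _ => rfl, by simp,
    by simp⟩, fun z _ => ⟨1, by simp, fun _ => rfl, by simp, by simp⟩,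
    fun z hz => ⟨1, by simp, fun _ => rfl, ?_⟩, fun _ z _ h => h⟩⟩
  rw [one_mul]
  exact (h2 b hb r hr z hz).2.2

theorem rep_pull {a : ℝ} (ha : 1 < a) {x v : ℂ → ℂ} {z₀ : ℂ} (hx : AnalyticAt ℂ x z₀)
    (hv : AnalyticAt ℂ v z₀) {ε : ℝ} (hε : 0 < ε) :
    ∃ ρ > 0, ∀ b ∈ ball z₀ ρ, ∀ r, 0 < r → r < ρ → r ≠ ‖b - z₀‖ →
      CoordRep a (fun z => ((‖x z‖ ^ (a - 1) : ℝ) : ℂ) * x z)
        (fun z => ((a * ‖x z‖ ^ (a - 1) : ℝ) : ℂ) * v z)
        (((‖x z₀‖ ^ (a - 1) : ℝ) : ℂ) * x z₀) ε (x z₀ ≠ 0) b r := by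
  have ha0 : 0 < a - 1 := by linarith
  have ha1 : a ≠ 1 := by linarith
  by_cases hne : ∀ᶠ z in 𝓝 z₀, x z = 0
  · -- identically zero
    obtain ⟨ρ, hρ, -, h2⟩ := P2_ball hne one_pos
    have h0 : x z₀ = 0 := hne.self_of_nhds
    have hz0 : ∀ b ∈ ball z₀ ρ, ∀ r, r < ρ → ∀ z ∈ closedBall b r,
        ((‖x z‖ ^ (a - 1) : ℝ) : ℂ) * x z = 0 ∧ ((a * ‖x z‖ ^ (a - 1) : ℝ) : ℂ) * v z = 0 := by
      intro b hb r hr z hz
      rw [h2 b hb r hr z hz, norm_zero, Real.zero_rpow ha0.ne']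
      simp
    refine ⟨ρ, hρ, fun b hb r h0r hr _ => ⟨fun _ => 0, fun _ => 0, fun z _ => analyticAt_const,
      fun z _ => analyticAt_const, ⟨1, by simp, fun _ => by simp, fun h => absurd h ha1, ?_, ?_⟩,
      fun z hz => ⟨1, by simp, fun h => absurd h ha1, ?_, ?_⟩,
      fun z hz => ⟨1, by simp, fun h => absurd h ha1, ?_⟩, fun h => absurd h0 h⟩⟩
    · exact (hz0 b hb r hr b (mem_closedBall_self h0r.le)).1.trans (mul_zero _).symm
    · exact (hz0 b hb r hr b (mem_closedBall_self h0r.le)).2.trans (mul_zero _).symm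
    · exact (hz0 b hb r hr z (sphere_subset_closedBall hz)).1.trans (mul_zero _).symm
    · exact (hz0 b hb r hr z (sphere_subset_closedBall hz)).2.trans (mul_zero _).symm
    · rw [h0, mul_zero, mul_zero, sub_zero, norm_zero]
      exact hε.le
  · obtain ⟨k, l, hk, hl, hxl⟩ := zero_form hx hne
    by_cases hk0 : k = 0
    · -- no zero
      have hξ : ContinuousAt (fun z => ((‖x z‖ ^ (a - 1) : ℝ) : ℂ) * x z) z₀ := by
        have h1 : ContinuousAt (fun z => ‖x z‖ ^ (a - 1)) z₀ :=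
          hx.continuousAt.norm.rpow_const (Or.inr ha0.le)
        exact (Complex.continuous_ofReal.continuousAt.comp h1).mul hx.continuousAt
      have h1 : ∀ᶠ z in 𝓝 z₀, AnalyticAt ℂ v z ∧ AnalyticAt ℂ l z ∧ x z = 1 * Complex.exp (l z) ∧
          ‖((‖x z‖ ^ (a - 1) : ℝ) : ℂ) * x z - ((‖x z₀‖ ^ (a - 1) : ℝ) : ℂ) * x z₀‖ ≤ ε := by
        have h2 : ∀ᶠ z in 𝓝 z₀, ((‖x z‖ ^ (a - 1) : ℝ) : ℂ) * x z ∈
            closedBall (((‖x z₀‖ ^ (a - 1) : ℝ) : ℂ) * x z₀) ε :=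
          hξ (closedBall_mem_nhds _ hε)
        filter_upwards [hv.eventually_analyticAt, hl.eventually_analyticAt, hxl, h2] with
          z k1 k2 k3 k4
        refine ⟨k1, k2, ?_, mem_closedBall_iff_norm.mp k4⟩
        rw [k3, hk0, pow_zero]
      obtain ⟨ρ, hρ, -, h2⟩ := P2_ball h1 one_pos
      refine ⟨ρ, hρ, fun b hb r h0r hr _ => ?_⟩
      have h3 : ∀ z ∈ closedBall b r, ∃ c : ℂ, ‖c‖ = 1 ∧
          ((‖x z‖ ^ (a - 1) : ℝ) : ℂ) * x z = c * (1 * Complex.exp (a * l z)) ∧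
          ((a * ‖x z‖ ^ (a - 1) : ℝ) : ℂ) * v z = c * (a * Complex.exp ((a - 1) * l z) * v z) := by
        intro z hz
        obtain ⟨c, hc1, hc2, hc3⟩ := P2_c a (v z) (h2 b hb r hr z hz).2.2.1
        rw [norm_one, Real.one_rpow] at hc1
        exact ⟨c, hc1, hc2, hc3⟩
      refine ⟨fun z => 1 * Complex.exp (a * l z), fun z => a * Complex.exp ((a - 1) * l z) * v z,
        fun z hz => ?_, fun z hz => ?_, ?_, fun z hz => ?_, fun z hz => ?_, fun _ z hz h => ?_⟩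
      · exact analyticAt_const.mul
          (AnalyticAt.cexp' (analyticAt_const.mul (h2 b hb r hr z hz).2.1))
      · exact (analyticAt_const.mul
          (AnalyticAt.cexp' (analyticAt_const.mul (h2 b hb r hr z hz).2.1))).mul
          (h2 b hb r hr z hz).1
      · obtain ⟨c, hc1, hc2, hc3⟩ := h3 b (mem_closedBall_self h0r.le)
        exact ⟨c, hc1.le, fun _ => hc1, fun h => absurd h ha1, hc2, hc3⟩
      · obtain ⟨c, hc1, hc2, hc3⟩ := h3 z (sphere_subset_closedBall hz)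
        exact ⟨c, hc1, fun h => absurd h ha1, hc2, hc3⟩
      · obtain ⟨c, hc1, hc2, hc3⟩ := h3 z hz
        refine ⟨c, hc1, fun h => absurd h ha1, ?_⟩
        rw [← hc2]
        exact (h2 b hb r hr z hz).2.2.2
      · obtain ⟨c, hc1, hc2, hc3⟩ := h3 z hz
        intro h4
        apply h
        change ((a * ‖x z‖ ^ (a - 1) : ℝ) : ℂ) * v z = 0
        rw [hc3]
        change (a : ℂ) * Complex.exp ((a - 1) * l z) * v z = 0 at h4
        rw [h4, mul_zero]
    · -- a zero of order k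
      have hx0 : x z₀ = 0 := by
        by_contra h
        exact hk0 (hk.mpr h)
      have hk1 : (1 : ℝ) ≤ k := by exact_mod_cast Nat.one_le_iff_ne_zero.mpr hk0
      obtain ⟨M, hM⟩ : ∃ M : ℝ, M = ‖Complex.exp (a * l z₀)‖ + 1 := ⟨_, rfl⟩
      have hM0 : 0 < M := by rw [hM]; positivity
      have h1 : ∀ᶠ z in 𝓝 z₀, AnalyticAt ℂ v z ∧ AnalyticAt ℂ l z ∧
          x z = (z - z₀) ^ k * Complex.exp (l z) ∧ ‖Complex.exp (a * l z)‖ < M := by
        have h2 : ContinuousAt (fun z => ‖Complex.exp (a * l z)‖) z₀ :=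
          (Complex.continuous_exp.continuousAt.comp
            (continuousAt_const.mul hl.continuousAt)).norm
        have h3 : ∀ᶠ z in 𝓝 z₀, ‖Complex.exp (a * l z)‖ < M :=
          h2.eventually_lt continuousAt_const (by rw [hM]; linarith)
        filter_upwards [hv.eventually_analyticAt, hl.eventually_analyticAt, hxl, h3] with
          z k1 k2 k3 k4
        exact ⟨k1, k2, k3, k4⟩
      obtain ⟨ρ, hρ, hρM, h2⟩ := P2_ball h1 (M := min (1 / 2) (ε / (2 * M)))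
        (lt_min (by norm_num) (by positivity))
      have hρ1 : 2 * ρ ≤ 1 := by
        have := hρM.trans (min_le_left _ _)
        linarith
      have hρ2 : 2 * ρ * M ≤ ε := by
        have h3 := hρM.trans (min_le_right _ _)
        rw [le_div_iff₀ (by positivity)] at h3
        linarith
      refine ⟨ρ, hρ, fun b hb r h0r hr hne => ?_⟩
      obtain ⟨β, L, hβ, hL, hβL, hβ1⟩ := blaschke h0r hr hb hne
      have h4 : ∀ z ∈ closedBall b r, x z = β z ^ k * Complex.exp (k * L z + l z) := by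
        intro z hz
        rw [(h2 b hb r hr z hz).2.2.1, (hβL z hz).1, Complex.exp_add, Complex.exp_nat_mul, mul_pow,
          mul_assoc]
      have hB1 : ∀ z ∈ closedBall b r, ‖β z ^ k‖ ≤ 1 := fun z hz => by
        rw [norm_pow]
        exact pow_le_one₀ (norm_nonneg _) (hβL z hz).2.1
      have hLa : ∀ z ∈ closedBall b r, AnalyticAt ℂ (fun z => (k : ℂ) * L z + l z) z :=
        fun z hz => (analyticAt_const.mul (hL z hz)).add (h2 b hb r hr z hz).2.1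
      refine ⟨fun z => β z ^ k * Complex.exp (a * (k * L z + l z)),
        fun z => a * Complex.exp ((a - 1) * (k * L z + l z)) * v z,
        fun z hz => ?_, fun z hz => ?_, ?_, fun z hz => ?_, fun z hz => ?_,
        fun h => absurd hx0 h⟩
      · exact ((hβ z hz).pow k).mul (AnalyticAt.cexp' (analyticAt_const.mul (hLa z hz)))
      · exact (analyticAt_const.mul
          (AnalyticAt.cexp' (analyticAt_const.mul (hLa z hz)))).mul (h2 b hb r hr z hz).1
      · have hbb := mem_closedBall_self (x := b) h0r.le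
        obtain ⟨c, hc1, hc2, hc3⟩ := P2_c a (v b) (h4 b hbb)
        exact ⟨c, hc1.le.trans (P2_pow ha (hB1 b hbb)), fun h => absurd hx0 h,
          fun h => absurd h ha1, hc2, hc3⟩
      · obtain ⟨c, hc1, hc2, hc3⟩ := P2_c a (v z) (h4 z (sphere_subset_closedBall hz))
        rw [norm_pow, hβ1 z hz, one_pow, Real.one_rpow] at hc1
        exact ⟨c, hc1, fun h => absurd h ha1, hc2, hc3⟩
      · refine ⟨1, norm_one, fun h => absurd h ha1, ?_⟩
        rw [hx0, mul_zero, sub_zero, one_mul, norm_mul]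
        have h5 : ‖Complex.exp (a * (k * L z + l z))‖ =
            Real.exp (a * k * (L z).re) * ‖Complex.exp (a * l z)‖ := by
          rw [Complex.norm_exp, Complex.norm_exp, ← Real.exp_add]
          congr 1
          have h6 : (a : ℂ) * (k * L z + l z) = ((a * k : ℝ) : ℂ) * L z + (a : ℂ) * l z := by
            push_cast
            ring
          rw [h6, Complex.add_re, Complex.re_ofReal_mul]
        have h6 : Real.exp (L z).re ≤ 2 * ρ := by
          have h7 := (hβL z hz).2.2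
          rw [Complex.norm_exp] at h7
          exact h7
        have h7 : (L z).re ≤ 0 := by
          rw [← Real.exp_le_one_iff]
          exact h6.trans hρ1
        have h8 : Real.exp (a * k * (L z).re) ≤ 2 * ρ := by
          refine le_trans (Real.exp_le_exp.mpr ?_) h6
          have h9 : 1 ≤ a * k := by nlinarith
          nlinarith
        have h10 : ‖Complex.exp (a * l z)‖ ≤ M := (h2 b hb r hr z hz).2.2.2.le
        calc ‖β z ^ k‖ * ‖Complex.exp (a * (k * L z + l z))‖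
            ≤ 1 * ‖Complex.exp (a * (k * L z + l z))‖ :=
              mul_le_mul_of_nonneg_right (hB1 z hz) (norm_nonneg _)
          _ = Real.exp (a * k * (L z).re) * ‖Complex.exp (a * l z)‖ := by rw [one_mul, h5]
          _ ≤ 2 * ρ * M := mul_le_mul h8 h10 (norm_nonneg _) (by positivity)
          _ ≤ ε := hρ2

theorem rep_lead {A : ℝ} (hA : 1 < A) {v : ℂ → ℂ} {z₀ : ℂ} (hv : AnalyticAt ℂ v z₀) {ε : ℝ}
    (hε : 0 < ε) :
    ∃ ρ > 0, ∀ b ∈ ball z₀ ρ, ∀ r, 0 < r → r < ρ → r ≠ ‖b - z₀‖ →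
      CoordRep A (fun _ => 0) (fun z => ((A * ‖v z‖ ^ (A - 1) : ℝ) : ℂ) * v z) 0 ε (v z₀ ≠ 0) b r := by
  obtain ⟨ρ, hρ, h⟩ := rep_pull hA hv hv hε
  refine ⟨ρ, hρ, fun b hb r h0r hr hne => ?_⟩
  obtain ⟨_, V, _, hV, ⟨c, k1, k2, k3, _, k5⟩, h2, _, h4⟩ := h b hb r h0r hr hne
  refine ⟨fun _ => 0, V, fun z _ => analyticAt_const, hV,
    ⟨c, k1, k2, k3, (mul_zero c).symm, k5⟩, fun z hz => ?_, fun z _ => ?_, h4⟩
  · obtain ⟨d, l1, l2, -, l4⟩ := h2 z hz
    exact ⟨d, l1, l2, (mul_zero d).symm, l4⟩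
  · refine ⟨1, norm_one, fun _ => rfl, ?_⟩
    rw [mul_zero, sub_zero, norm_zero]
    exact hε.le

end Pool.Agent.Nef6.SN
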