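import Pool.Agent.H.MP_6a1d6a_ag.SN.B1

/-!
MP_6a1d6a_ag/SN, module S1: a rotationally symmetric metric with plurisubharmonic logarithm increases along the coordinate discs. Compare with
`scale_le` in `SM/B2.lean` (one coordinate).

For each `i` let `φ i w = (w + ζ i) / (1 + conj (ζ i) * w)` if `‖ζ i‖ < 1`, and the constant `φ i w = ζ i` if `‖ζ i‖ = 1`: holomorphic on a neighbourhood of the closed
unit disc, `φ i 0 = ζ i`, `‖φ i w‖ = 1` for `‖w‖ = 1`, `‖φ i w‖ ≤ 1` for `‖w‖ ≤ 1`. If `a i = 1` then `ζ i = 1`, `φ i = 1`. Apply `psh` to `w ↦ dg (φ · w) s` (in `U` by `hU`),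
`w ↦ dg (φ · w) t` (not zero: the coordinate `k` is `ζ k * t k ≠ 0`), centre `0`, radius `1`: `log h (dg ζ s) (dg ζ t) ≤` the circle average of
`log h (dg (φ · w) s) (dg (φ · w) t)`, which is the constant `log h s t` on the circle (`RotInv`, `s ∈ U`). Exponentiate (`pos`). `s ∈ U`: `dg (φ · 1) s ∈ U` by `hU`, and
rotate it back.
-/

set_option autoImplicit false

open Set Filter Topology Metric MeasureTheory
open scoped ContDiff Manifold

namespace Pool.Agent.Nef6.SN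

variable {N : ℕ} {a : Fin N → ℝ} {h : E N → E N → ℝ} {U : Set (E N)}

private theorem S1_norm (ζ z : ℂ) :
    ‖1 + (starRingEnd ℂ) ζ * z‖ ^ 2 - ‖z + ζ‖ ^ 2 = (1 - ‖ζ‖ ^ 2) * (1 - ‖z‖ ^ 2) := by
  rw [Complex.sq_norm, Complex.sq_norm, Complex.sq_norm, Complex.sq_norm, Complex.normSq_apply,
    Complex.normSq_apply, Complex.normSq_apply, Complex.normSq_apply]
  simp only [Complex.add_re, Complex.add_im, Complex.mul_re, Complex.mul_im, Complex.conj_re,
    Complex.conj_im, Complex.one_re, Complex.one_im]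
  ring

/-- a disc in the closed unit disc with centre `ζ`, constant if `‖ζ‖ = 1` -/
private theorem S1_disc {ζ : ℂ} (hζ : ‖ζ‖ ≤ 1) : ∃ φ : ℂ → ℂ,
    (∀ z, ‖z‖ ≤ 1 → AnalyticAt ℂ φ z) ∧ φ 0 = ζ ∧ (∀ z, ‖z‖ ≤ 1 → ‖φ z‖ ≤ 1) ∧
      (∀ z, ‖z‖ = 1 → ‖φ z‖ = 1) ∧ (‖ζ‖ = 1 → ∀ z, φ z = ζ) := by
  rcases lt_or_eq_of_le hζ with hlt | heq
  · have hζ2 : 0 < 1 - ‖ζ‖ ^ 2 := by nlinarith [norm_nonneg ζ]
    have hden : ∀ z : ℂ, ‖z‖ ≤ 1 → 1 + (starRingEnd ℂ) ζ * z ≠ 0 := by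
      intro z hz h0
      have h1 : (starRingEnd ℂ) ζ * z = -1 := by linear_combination h0
      have h2 : ‖(starRingEnd ℂ) ζ * z‖ = 1 := by rw [h1, norm_neg, norm_one]
      rw [norm_mul, RCLike.norm_conj] at h2
      have h3 : ‖ζ‖ * ‖z‖ ≤ ‖ζ‖ * 1 := mul_le_mul_of_nonneg_left hz (norm_nonneg _)
      linarith
    refine ⟨fun z => (z + ζ) / (1 + (starRingEnd ℂ) ζ * z), ?_, ?_, ?_, ?_, ?_⟩
    · intro z hz
      exact (analyticAt_id.add analyticAt_const).div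
        (analyticAt_const.add (analyticAt_const.mul analyticAt_id)) (hden z hz)
    · show ((0 : ℂ) + ζ) / (1 + (starRingEnd ℂ) ζ * 0) = ζ
      rw [zero_add, mul_zero, add_zero, div_one]
    · intro z hz
      have h0 : 0 < ‖1 + (starRingEnd ℂ) ζ * z‖ := norm_pos_iff.2 (hden z hz)
      show ‖(z + ζ) / (1 + (starRingEnd ℂ) ζ * z)‖ ≤ 1
      rw [norm_div, div_le_one h0]
      have h1 := S1_norm ζ z
      have h2 : 0 ≤ (1 - ‖ζ‖ ^ 2) * (1 - ‖z‖ ^ 2) :=
        mul_nonneg hζ2.le (by nlinarith [norm_nonneg z])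
      exact le_of_sq_le_sq (by linarith) h0.le
    · intro z hz
      have h0 : 0 < ‖1 + (starRingEnd ℂ) ζ * z‖ := norm_pos_iff.2 (hden z hz.le)
      show ‖(z + ζ) / (1 + (starRingEnd ℂ) ζ * z)‖ = 1
      rw [norm_div, div_eq_one_iff_eq h0.ne']
      have h1 := S1_norm ζ z
      rw [hz, one_pow, sub_self, mul_zero, sub_eq_zero] at h1
      exact ((pow_left_inj₀ (norm_nonneg _) (norm_nonneg _) two_ne_zero).1 h1).symm
    · intro h
      exact absurd h hlt.ne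
  · exact ⟨fun _ => ζ, fun z _ => analyticAt_const, rfl, fun z _ => hζ, fun z _ => heq,
      fun _ z => rfl⟩

private theorem S1_an {φ : Fin N → ℂ → ℂ} {z : ℂ} (h : ∀ i, AnalyticAt ℂ (φ i) z) (s : E N) :
    AnalyticAt ℂ (fun z : ℂ => dg (fun i => φ i z) s) z := by
  have h1 : AnalyticAt ℂ (fun z : ℂ => fun i => φ i z * s i) z :=
    AnalyticAt.pi fun i => (h i).mul analyticAt_const
  exact (((PiLp.continuousLinearEquiv 2 ℂ (fun _ : Fin N => ℂ)).symm :
    (Fin N → ℂ) →L[ℂ] E N).analyticAt _).comp h1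

theorem scale_le (hh : IsMetric h U) (hr : RotInv a h U) {s t : E N} {ζ : Fin N → ℂ}
    (hζ : ∀ i, ‖ζ i‖ ≤ 1) (hζ1 : ∀ i, a i = 1 → ζ i = 1)
    (hU : ∀ η : Fin N → ℂ, (∀ i, ‖η i‖ ≤ 1) → (∀ i, ‖ζ i‖ = 1 → η i = ζ i) → dg η s ∈ U)
    {k : Fin N} (hk : ‖ζ k‖ = 1) (htk : t k ≠ 0) : h (dg ζ s) (dg ζ t) ≤ h s t := by
  choose φ hφa hφ0 hφ1 hφ2 hφ3 using fun i => S1_disc (hζ i)
  have hs : s ∈ U := by
    have h1 : dg (fun i => φ i 1) s ∈ U :=
      hU _ (fun i => hφ1 i 1 (by rw [norm_one])) fun i hi => hφ3 i hi 1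
    have h2 : ∀ i, ‖φ i 1‖ = 1 := fun i => hφ2 i 1 norm_one
    have h3 := (hr (fun i => (φ i 1)⁻¹) (fun i => by rw [norm_inv, h2, inv_one]) (fun i hi => by
      rw [hφ3 i (by rw [hζ1 i hi, norm_one]) 1, hζ1 i hi, inv_one]) _ h1).1
    have h4 : (fun i => (φ i 1)⁻¹ * φ i 1) = fun _ : Fin N => (1 : ℂ) := by
      funext i
      refine inv_mul_cancel₀ ?_
      intro h5
      have h6 := h2 i
      rw [h5, norm_zero] at h6
      exact zero_ne_one h6
    rwa [dg_dg, h4, dg_one] at h3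
  have hζk : ζ k ≠ 0 := by
    intro h0
    rw [h0, norm_zero] at hk
    exact zero_ne_one hk
  have hne : ∀ z : ℂ, dg (fun i => φ i z) t ≠ 0 := by
    intro z h0
    have h1 : dg (fun i => φ i z) t k = (0 : E N) k := by rw [h0]
    rw [dg_apply, hφ3 k hk z] at h1
    exact mul_ne_zero hζk htk h1
  have hUz : ∀ z : ℂ, ‖z‖ ≤ 1 → dg (fun i => φ i z) s ∈ U := fun z hz =>
    hU _ (fun i => hφ1 i z hz) fun i hi => hφ3 i hi z
  have key := hh.psh (fun z => dg (fun i => φ i z) s) (fun z => dg (fun i => φ i z) t) 0 1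
    one_pos (fun z hz => S1_an (fun i => hφa i z (mem_closedBall_zero_iff.1 hz)) s)
    (fun z hz => S1_an (fun i => hφa i z (mem_closedBall_zero_iff.1 hz)) t)
    (fun z hz => ⟨hUz z (mem_closedBall_zero_iff.1 hz), hne z⟩)
  have hcong : Real.circleAverage (fun z : ℂ => Real.log
      (h (dg (fun i => φ i z) s) (dg (fun i => φ i z) t))) 0 1 = Real.log (h s t) := by
    have h1 : Real.circleAverage (fun z : ℂ => Real.log
        (h (dg (fun i => φ i z) s) (dg (fun i => φ i z) t))) 0 1 =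
        Real.circleAverage (fun _ : ℂ => Real.log (h s t)) 0 1 := by
      apply Real.circleAverage_congr_sphere
      intro z hz
      have hz1 : ‖z‖ = 1 := by
        rw [abs_one] at hz
        exact mem_sphere_zero_iff_norm.1 hz
      show Real.log _ = Real.log _
      rw [(hr _ (fun i => hφ2 i z hz1) (fun i hi => by
        rw [hφ3 i (by rw [hζ1 i hi, norm_one]) z, hζ1 i hi]) s hs).2 t]
    rw [h1, Real.circleAverage_const]
  rw [hcong] at key
  have e0 : (fun i => φ i 0) = ζ := funext hφ0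
  simp only [e0] at key
  have hζU : dg ζ s ∈ U := hU ζ hζ fun i _ => rfl
  have hζt : dg ζ t ≠ 0 := by
    intro h0
    have h1 : dg ζ t k = (0 : E N) k := by rw [h0]
    rw [dg_apply] at h1
    exact mul_ne_zero hζk htk h1
  have hp1 : 0 < h (dg ζ s) (dg ζ t) := hh.pos _ hζU _ hζt
  have ht : t ≠ 0 := by
    intro h0
    apply htk
    rw [h0]
    rfl
  have hp2 : 0 < h s t := hh.pos _ hs _ ht
  exact (Real.log_le_log_iff hp1 hp2).1 key

end Pool.Agent.Nef6.SN
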